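import Pool.Agent.Lib.MP_e3f158_nt.D2.Defs
import Pool.Agent.Lib.MP_c77da8_nt.Mert

/-!
# High moments of `exp (∑_{p ∣ h} 1/p)`

PROOF of `avg_ES`. Split the primes dividing `h` into `p ≤ k` and `p > k`.
`exp (k ∑_{p ≤ k} 1/p) ≤ (C₁ log k) ^ k`: with `J = Nat.clog 2 k ≥ 1`,
`∑_{p ≤ k} 1/p ≤ Mert.R J ≤ log J + 6` and `J ≤ log k / log 2 + 1 ≤ 3 log k` (`k ≥ 2`).
For the primes `p > k` dividing `h ≤ Y`: `exp (k / p) ≤ 1 + 2 k / p` (as `k / p ≤ 1`,
`exp x ≤ 1 + 2 x` on `[0, 1]`), so with `P` the set of primes in `(k, Y]`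
`exp (k ∑_{p ∣ h, p > k} 1/p) ≤ ∏_{p ∈ P, p ∣ h} (1 + 2k/p) = ∑_{D ⊆ P, ∀ p ∈ D, p ∣ h} ∏_{p ∈ D} 2k/p`
(`Finset.prod_one_add`). Sum over `h ≤ Y`: `#{h ≤ Y : ∀ p ∈ D, p ∣ h} ≤ Y / ∏_{p ∈ D} p` (distinct
primes, `Finset.prod_primes_dvd`), so the sum is `≤ Y ∑_D ∏_{p ∈ D} 2k/p² = Y ∏_{p ∈ P} (1 + 2k/p²)
≤ Y exp (2k ∑_{n > k} 1/n²) ≤ Y exp 2`.
Together: `≤ Y exp 2 (C₁ log k) ^ k ≤ Y (exp 2 · C₁ log k) ^ k`.

PROOF of `pair_avg`. `Q` may be assumed to have at least 2 elements (else the sum is empty; the right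
side is `≥ 0`). By the power mean inequality (`Finset.pow_sum_div_card_le_sum_pow` or
`inner_le_nnorm_mul_nnorm`), `(∑ E)^k ≤ |offDiag|^(k-1) ∑ E^k`, and
`∑_{x ∈ offDiag} E(dist)^k ≤ |Q| * 2 * ∑_{1 ≤ h ≤ Y} E(h)^k` (for fixed `x.1` each distance
`h ∈ [1, Y]` occurs for at most two `x.2`), `|offDiag| ≤ |Q|²`. So
`(∑ E)^k ≤ |Q|^(2(k-1)) |Q| 2 Y (C log k)^k ≤ |Q|^(2k) exp(k) (C log k)^k` by
`2 Y ≤ |Q| exp k`. Take `k`-th roots (`pow_le_pow_left₀`/`le_of_pow_le_pow_left`):
`∑ E ≤ |Q|² e C log k`.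
-/

namespace Pool.Agent.Lib.MP_e3f158_nt.D2

open Finset

private theorem clog_le (k : ℕ) (hk : 2 ≤ k) :
    1 ≤ Nat.clog 2 k ∧ ((Nat.clog 2 k : ℕ) : ℝ) ≤ 3 * Real.log k := by
  have hJ : 1 ≤ Nat.clog 2 k := Nat.clog_pos (by norm_num) hk
  refine ⟨hJ, ?_⟩
  have h1 : 2 ^ (Nat.clog 2 k - 1) < k := by
    have := Nat.pow_pred_clog_lt_self (b := 2) (by norm_num) (x := k) (by omega)
    simpa using this
  have h2 : ((Nat.clog 2 k : ℕ) : ℝ) - 1 ≤ Real.log k / Real.log 2 := by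
    rw [le_div_iff₀ (Real.log_pos (by norm_num))]
    have h3 : ((2 : ℝ) ^ (Nat.clog 2 k - 1)) ≤ k := by exact_mod_cast h1.le
    have h4 := Real.log_le_log (by positivity) h3
    rw [Real.log_pow] at h4
    have h5 : (((Nat.clog 2 k - 1 : ℕ)) : ℝ) = (Nat.clog 2 k : ℝ) - 1 := by
      push_cast [Nat.cast_sub hJ]; ring
    rw [h5] at h4
    exact h4
  have hl2 : (0.6931471803 : ℝ) < Real.log 2 := Real.log_two_gt_d9
  have hlk : Real.log 2 ≤ Real.log k := Real.log_le_log (by norm_num) (by exact_mod_cast hk)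
  have h6 : Real.log k / Real.log 2 ≤ 1.5 * Real.log k := by
    rw [div_le_iff₀ (by linarith)]
    nlinarith
  linarith

private theorem small_part (k : ℕ) (hk : 2 ≤ k) (D : Finset ℕ) (hD : ∀ p ∈ D, p.Prime)
    (hDk : ∀ p ∈ D, p ≤ k) :
    Real.exp (∑ p ∈ D, (1 : ℝ) / p) ≤ 3 * Real.exp 6 * Real.log k := by
  obtain ⟨hJ, hJ2⟩ := clog_le k hk
  set J := Nat.clog 2 k with hJdef
  have h1 : ∑ p ∈ D, (1 : ℝ) / p ≤ MP_c77da8_nt.Mert.R J := by
    unfold MP_c77da8_nt.Mert.R
    apply Finset.sum_le_sum_of_subset_of_nonneg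
    · intro p hp
      rw [Nat.mem_primesLE]
      exact ⟨(hDk p hp).trans (Nat.le_pow_clog (by norm_num) k), hD p hp⟩
    · intro p _ _
      positivity
  have h2 := MP_c77da8_nt.Mert.R_le J hJ
  have hJ0 : (0 : ℝ) < J := by exact_mod_cast hJ
  have hlk : 0 < Real.log k := Real.log_pos (by exact_mod_cast (by omega : 1 < k))
  calc Real.exp (∑ p ∈ D, (1 : ℝ) / p) ≤ Real.exp (Real.log J + 6) :=
        Real.exp_le_exp.mpr (h1.trans h2)
    _ = J * Real.exp 6 := by rw [Real.exp_add, Real.exp_log hJ0]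
    _ ≤ (3 * Real.log k) * Real.exp 6 := by
        apply mul_le_mul_of_nonneg_right hJ2 (Real.exp_pos _).le
    _ = 3 * Real.exp 6 * Real.log k := by ring

private theorem exp_le_lin (x : ℝ) (h0 : 0 ≤ x) (h1 : x ≤ 1) : Real.exp x ≤ 1 + 2 * x := by
  have h := Real.exp_bound' h0 h1 (n := 2) (by norm_num)
  simp only [Finset.sum_range_succ, Finset.sum_range_zero, Nat.factorial] at h
  norm_num at h
  nlinarith

/-- numbers up to `Y` divisible by all the primes of `D` -/
private theorem card_multiples (Y : ℕ) (D : Finset ℕ) (hD : ∀ p ∈ D, p.Prime) :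
    ((((Icc 1 Y).filter fun h => ∀ p ∈ D, p ∣ h).card : ℕ) : ℝ) ≤ Y / ((∏ p ∈ D, p : ℕ) : ℝ) := by
  have hpos : 0 < ∏ p ∈ D, p := Finset.prod_pos fun p hp => (hD p hp).pos
  rw [le_div_iff₀ (by exact_mod_cast hpos)]
  have h1 : ((Icc 1 Y).filter fun h => ∀ p ∈ D, p ∣ h) ⊆
      (Ioc 0 Y).filter fun h => (∏ p ∈ D, p) ∣ h := by
    intro h hh
    rw [Finset.mem_filter, Finset.mem_Icc] at hh
    rw [Finset.mem_filter, Finset.mem_Ioc]
    refine ⟨⟨by omega, hh.1.2⟩, ?_⟩
    exact Finset.prod_primes_dvd h (fun p hp => (hD p hp).prime) hh.2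
  have h2 := Finset.card_le_card h1
  rw [Nat.Ioc_filter_dvd_card_eq_div] at h2
  have h3 : ((Icc 1 Y).filter fun h => ∀ p ∈ D, p ∣ h).card * (∏ p ∈ D, p) ≤ Y :=
    (Nat.mul_le_mul_right _ h2).trans (Nat.div_mul_le_self _ _)
  exact_mod_cast h3

private theorem large_part (k : ℕ) (hk : 2 ≤ k) (Y : ℕ) :
    ∑ h ∈ Icc 1 Y, ∏ p ∈ h.primeFactors.filter (fun p => k < p), (1 + 2 * (k : ℝ) / p) ≤
      Y * Real.exp 2 := by
  classical
  set P : Finset ℕ := (Ioc k Y).filter Nat.Prime with hP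
  have hk0 : (0 : ℝ) < k := by exact_mod_cast (by omega : 0 < k)
  have key : ∀ h ∈ Icc 1 Y, ∏ p ∈ h.primeFactors.filter (fun p => k < p), (1 + 2 * (k : ℝ) / p) =
      ∑ D ∈ P.powerset, if (∀ p ∈ D, p ∣ h) then ∏ p ∈ D, (2 * (k : ℝ) / p) else 0 := by
    intro h hh
    rw [Finset.mem_Icc] at hh
    rw [Finset.prod_one_add, ← Finset.sum_filter]
    apply Finset.sum_congr _ (fun _ _ => rfl)
    ext D
    simp only [Finset.mem_powerset, Finset.mem_filter, hP]
    constructor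
    · intro hD
      refine ⟨fun p hp => ?_, fun p hp => ?_⟩
      · have := hD hp
        rw [Finset.mem_filter, Nat.mem_primeFactors] at this
        rw [Finset.mem_filter, Finset.mem_Ioc]
        exact ⟨⟨this.2, (Nat.le_of_dvd (by omega) this.1.2.1).trans hh.2⟩, this.1.1⟩
      · have := hD hp
        rw [Finset.mem_filter, Nat.mem_primeFactors] at this
        exact this.1.2.1
    · rintro ⟨h1, h2⟩ p hp
      have := h1 hp
      rw [Finset.mem_filter, Finset.mem_Ioc] at this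
      rw [Finset.mem_filter, Nat.mem_primeFactors]
      exact ⟨⟨this.2, h2 p hp, by omega⟩, this.1.1⟩
  rw [Finset.sum_congr rfl key, Finset.sum_comm]
  have hPprime : ∀ D ∈ P.powerset, ∀ p ∈ D, p.Prime := by
    intro D hD p hp
    have := (Finset.mem_powerset.mp hD) hp
    rw [hP, Finset.mem_filter] at this
    exact this.2
  calc ∑ D ∈ P.powerset, ∑ h ∈ Icc 1 Y,
        (if (∀ p ∈ D, p ∣ h) then ∏ p ∈ D, (2 * (k : ℝ) / p) else 0)
      ≤ ∑ D ∈ P.powerset, (Y : ℝ) * ∏ p ∈ D, (2 * (k : ℝ) / (p : ℝ) ^ 2) := by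
        apply Finset.sum_le_sum
        intro D hD
        rw [← Finset.sum_filter, Finset.sum_const, nsmul_eq_mul]
        have h1 := card_multiples Y D (hPprime D hD)
        have h2 : (0 : ℝ) ≤ ∏ p ∈ D, (2 * (k : ℝ) / p) := Finset.prod_nonneg fun p _ => by positivity
        refine (mul_le_mul_of_nonneg_right h1 h2).trans (le_of_eq ?_)
        rw [Nat.cast_prod, div_mul_eq_mul_div, mul_div_assoc, ← Finset.prod_div_distrib]
        congr 1
        apply Finset.prod_congr rfl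
        intro p hp
        have : (p : ℝ) ≠ 0 := by exact_mod_cast (hPprime D hD p hp).ne_zero
        field_simp
    _ = Y * ∏ p ∈ P, (1 + 2 * (k : ℝ) / (p : ℝ) ^ 2) := by
        rw [← Finset.mul_sum, Finset.prod_one_add]
    _ ≤ Y * Real.exp (∑ p ∈ P, 2 * (k : ℝ) / (p : ℝ) ^ 2) := by
        apply mul_le_mul_of_nonneg_left _ (Nat.cast_nonneg _)
        rw [Real.exp_sum]
        apply Finset.prod_le_prod
        · intro p _; positivity
        · intro p _
          have := Real.add_one_le_exp (2 * (k : ℝ) / (p : ℝ) ^ 2)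
          linarith
    _ ≤ Y * Real.exp 2 := by
        apply mul_le_mul_of_nonneg_left _ (Nat.cast_nonneg _)
        apply Real.exp_le_exp.mpr
        rcases le_or_gt k Y with hkY | hkY
        · have h3 : ∑ p ∈ P, 2 * (k : ℝ) / (p : ℝ) ^ 2 ≤
              ∑ p ∈ Ioc k Y, 2 * (k : ℝ) / (p : ℝ) ^ 2 := by
            apply Finset.sum_le_sum_of_subset_of_nonneg (Finset.filter_subset _ _)
            intro p _ _; positivity
          have h4 := sum_Ioc_inv_sq_le_sub (α := ℝ) (k := k) (n := Y) (by omega) hkY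
          have h5 : ∑ p ∈ Ioc k Y, 2 * (k : ℝ) / (p : ℝ) ^ 2 =
              2 * k * ∑ p ∈ Ioc k Y, ((p : ℝ) ^ 2)⁻¹ := by
            rw [Finset.mul_sum]
            apply Finset.sum_congr rfl
            intro p _
            rw [div_eq_mul_inv]
          have h6 : (0 : ℝ) ≤ (Y : ℝ)⁻¹ := by positivity
          have h7 : 2 * (k : ℝ) * ∑ p ∈ Ioc k Y, ((p : ℝ) ^ 2)⁻¹ ≤ 2 * k * (k : ℝ)⁻¹ :=
            mul_le_mul_of_nonneg_left (by linarith) (by positivity)
          have h8 : 2 * (k : ℝ) * (k : ℝ)⁻¹ = 2 := by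
            rw [mul_assoc, mul_inv_cancel₀ hk0.ne', mul_one]
          linarith
        · have : P = ∅ := by
            rw [hP, Finset.Ioc_eq_empty (by omega), Finset.filter_empty]
          rw [this]; simp

theorem avg_ES : ∃ C : ℝ, 1 ≤ C ∧ ∀ k : ℕ, 2 ≤ k → ∀ Y : ℕ,
    ∑ h ∈ Icc 1 Y, (ES h.primeFactors) ^ k ≤ Y * (C * Real.log k) ^ k := by
  refine ⟨Real.exp 2 * (3 * Real.exp 6), ?_, fun k hk Y => ?_⟩
  · have h2 : 1 ≤ Real.exp 2 := Real.one_le_exp (by norm_num)
    have h6 : 1 ≤ Real.exp 6 := Real.one_le_exp (by norm_num)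
    nlinarith
  have hk0 : (0 : ℝ) < k := by exact_mod_cast (by omega : 0 < k)
  have hlk : 0 < Real.log k := Real.log_pos (by exact_mod_cast (by omega : 1 < k))
  have h1 : ∀ h ∈ Icc 1 Y, (ES h.primeFactors) ^ k ≤ (3 * Real.exp 6 * Real.log k) ^ k *
      ∏ p ∈ h.primeFactors.filter (fun p => k < p), (1 + 2 * (k : ℝ) / p) := by
    intro h _
    have hsplit : ES h.primeFactors =
        Real.exp (∑ p ∈ h.primeFactors.filter (fun p => p ≤ k), (1 : ℝ) / p) *
        Real.exp (∑ p ∈ h.primeFactors.filter (fun p => k < p), (1 : ℝ) / p) := by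
      unfold ES
      rw [← Real.exp_add, ← Finset.sum_filter_add_sum_filter_not h.primeFactors (fun p => p ≤ k)]
      congr 3
      apply Finset.filter_congr
      intro p _
      exact not_le
    rw [hsplit, mul_pow]
    apply mul_le_mul
    · apply pow_le_pow_left₀ (Real.exp_pos _).le
      apply small_part k hk
      · intro p hp
        exact Nat.prime_of_mem_primeFactors (Finset.mem_filter.mp hp).1
      · intro p hp
        exact (Finset.mem_filter.mp hp).2
    · rw [← Real.exp_nat_mul, Finset.mul_sum, Real.exp_sum]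
      apply Finset.prod_le_prod
      · intro p _; positivity
      · intro p hp
        have hp2 := (Finset.mem_filter.mp hp).2
        have hpk : (k : ℝ) < p := by exact_mod_cast hp2
        have hp0 : (0 : ℝ) < p := by linarith
        have h9 := exp_le_lin ((k : ℝ) * (1 / p)) (by positivity)
          (by rw [mul_one_div, div_le_one hp0]; exact hpk.le)
        refine h9.trans (le_of_eq ?_)
        ring
    · positivity
    · positivity
  calc ∑ h ∈ Icc 1 Y, (ES h.primeFactors) ^ k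
      ≤ ∑ h ∈ Icc 1 Y, (3 * Real.exp 6 * Real.log k) ^ k *
        ∏ p ∈ h.primeFactors.filter (fun p => k < p), (1 + 2 * (k : ℝ) / p) :=
        Finset.sum_le_sum h1
    _ = (3 * Real.exp 6 * Real.log k) ^ k * ∑ h ∈ Icc 1 Y,
        ∏ p ∈ h.primeFactors.filter (fun p => k < p), (1 + 2 * (k : ℝ) / p) := by
        rw [Finset.mul_sum]
    _ ≤ (3 * Real.exp 6 * Real.log k) ^ k * (Y * Real.exp 2) :=
        mul_le_mul_of_nonneg_left (large_part k hk Y) (by positivity)
    _ ≤ (3 * Real.exp 6 * Real.log k) ^ k * (Y * Real.exp 2 ^ k) := by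
        apply mul_le_mul_of_nonneg_left _ (by positivity)
        apply mul_le_mul_of_nonneg_left _ (by positivity)
        have h2 : 1 ≤ Real.exp 2 := Real.one_le_exp (by norm_num)
        calc Real.exp 2 = Real.exp 2 ^ 1 := (pow_one _).symm
          _ ≤ Real.exp 2 ^ k := pow_le_pow_right₀ h2 (by omega)
    _ = Y * (Real.exp 2 * (3 * Real.exp 6) * Real.log k) ^ k := by
        rw [show Real.exp 2 * (3 * Real.exp 6) * Real.log k =
          (3 * Real.exp 6 * Real.log k) * Real.exp 2 by ring, mul_pow]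
        ring

theorem pair_avg : ∃ C : ℝ, 1 ≤ C ∧ ∀ (Y : ℕ) (Q : Finset ℕ), Q ⊆ Icc 1 Y → ∀ k : ℕ, 2 ≤ k →
    2 * (Y : ℝ) ≤ Q.card * Real.exp k →
    ∑ x ∈ Q.offDiag, ES (Nat.dist x.1 x.2).primeFactors ≤
      C * Real.log k * (Q.card : ℝ) ^ 2 := by
  obtain ⟨C, hC1, hC⟩ := avg_ES
  refine ⟨Real.exp 1 * C, ?_, fun Y Q hQ k hk hY => ?_⟩
  · have h2 : 1 ≤ Real.exp 1 := Real.one_le_exp (by norm_num)
    nlinarith
  have hlk : 0 < Real.log k := Real.log_pos (by exact_mod_cast (by omega : 1 < k))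
  have hESpos : ∀ D : Finset ℕ, 0 < ES D := fun D => Real.exp_pos _
  -- power mean
  have hpm : (∑ x ∈ Q.offDiag, ES (Nat.dist x.1 x.2).primeFactors) ^ k ≤
      (Q.offDiag.card : ℝ) ^ (k - 1) *
        ∑ x ∈ Q.offDiag, ES (Nat.dist x.1 x.2).primeFactors ^ k := by
    obtain ⟨m, rfl⟩ : ∃ m, k = m + 1 := ⟨k - 1, by omega⟩
    simpa using pow_sum_le_card_mul_sum_pow (s := Q.offDiag)
      (f := fun x => ES (Nat.dist x.1 x.2).primeFactors) (fun x _ => (hESpos _).le) m
  -- each distance occurs at most `2 |Q|` times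
  have hdist : ∑ x ∈ Q.offDiag, ES (Nat.dist x.1 x.2).primeFactors ^ k ≤
      Q.card * (2 * ∑ h ∈ Icc 1 Y, ES h.primeFactors ^ k) := by
    have hmaps : ∀ x ∈ Q.offDiag, (fun x : ℕ × ℕ => (x.1, Nat.dist x.1 x.2)) x ∈
        Q ×ˢ Icc 1 Y := by
      intro x hx
      rw [Finset.mem_offDiag] at hx
      have h1 := Finset.mem_Icc.mp (hQ hx.1)
      have h2 := Finset.mem_Icc.mp (hQ hx.2.1)
      have h3 := hx.2.2
      rw [Finset.mem_product, Finset.mem_Icc]
      refine ⟨hx.1, ?_, ?_⟩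
      · simp only [Nat.dist]; omega
      · simp only [Nat.dist]; omega
    rw [← Finset.sum_fiberwise_of_maps_to hmaps]
    calc ∑ y ∈ Q ×ˢ Icc 1 Y, ∑ x ∈ Q.offDiag.filter
          (fun x => (fun x : ℕ × ℕ => (x.1, Nat.dist x.1 x.2)) x = y),
          ES (Nat.dist x.1 x.2).primeFactors ^ k
        ≤ ∑ y ∈ Q ×ˢ Icc 1 Y, 2 * ES y.2.primeFactors ^ k := by
          apply Finset.sum_le_sum
          intro y _
          have hc : (Q.offDiag.filter
              (fun x => (fun x : ℕ × ℕ => (x.1, Nat.dist x.1 x.2)) x = y)).card ≤ 2 := by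
            have hsub : (Q.offDiag.filter
              (fun x => (fun x : ℕ × ℕ => (x.1, Nat.dist x.1 x.2)) x = y)) ⊆
              {(y.1, y.1 + y.2), (y.1, y.1 - y.2)} := by
              intro x hx
              rw [Finset.mem_filter] at hx
              obtain ⟨hx1, hx2⟩ := hx
              rw [← hx2]
              rw [Finset.mem_insert, Finset.mem_singleton, Prod.ext_iff, Prod.ext_iff]
              simp only [Nat.dist, true_and]
              omega
            exact (Finset.card_le_card hsub).trans Finset.card_le_two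
          have heq : ∀ x ∈ Q.offDiag.filter
              (fun x => (fun x : ℕ × ℕ => (x.1, Nat.dist x.1 x.2)) x = y),
              ES (Nat.dist x.1 x.2).primeFactors ^ k = ES y.2.primeFactors ^ k := by
            intro x hx
            rw [Finset.mem_filter] at hx
            rw [← hx.2]
          rw [Finset.sum_congr rfl heq, Finset.sum_const, nsmul_eq_mul]
          apply mul_le_mul_of_nonneg_right _ (pow_nonneg (hESpos _).le _)
          exact_mod_cast hc
      _ = Q.card * (2 * ∑ h ∈ Icc 1 Y, ES h.primeFactors ^ k) := by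
          rw [Finset.sum_product]
          simp only [Finset.sum_const, nsmul_eq_mul]
          rw [Finset.mul_sum, Finset.mul_sum, Finset.mul_sum]
  have hoff : (Q.offDiag.card : ℝ) ≤ (Q.card : ℝ) ^ 2 := by
    rw [Finset.offDiag_card]
    have : Q.card * Q.card - Q.card ≤ Q.card ^ 2 := by
      rw [sq]; exact Nat.sub_le _ _
    exact_mod_cast this
  have hq0 : (0 : ℝ) ≤ Q.card := Nat.cast_nonneg _
  have hek : Real.exp (k : ℝ) = Real.exp 1 ^ k := by
    rw [← Real.exp_nat_mul, mul_one]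
  have hCl : 0 ≤ C * Real.log k := mul_nonneg (by linarith) hlk.le
  have hfin : (∑ x ∈ Q.offDiag, ES (Nat.dist x.1 x.2).primeFactors) ^ k ≤
      (Real.exp 1 * C * Real.log k * (Q.card : ℝ) ^ 2) ^ k := by
    calc (∑ x ∈ Q.offDiag, ES (Nat.dist x.1 x.2).primeFactors) ^ k
        ≤ (Q.offDiag.card : ℝ) ^ (k - 1) *
          ∑ x ∈ Q.offDiag, ES (Nat.dist x.1 x.2).primeFactors ^ k := hpm
      _ ≤ ((Q.card : ℝ) ^ 2) ^ (k - 1) * (Q.card * (2 * (Y * (C * Real.log k) ^ k))) := by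
          apply mul_le_mul
          · exact pow_le_pow_left₀ (Nat.cast_nonneg _) hoff _
          · refine hdist.trans ?_
            apply mul_le_mul_of_nonneg_left _ hq0
            apply mul_le_mul_of_nonneg_left (hC k hk Y) (by norm_num)
          · exact Finset.sum_nonneg fun x _ => pow_nonneg (hESpos _).le _
          · positivity
      _ = ((Q.card : ℝ) ^ 2) ^ (k - 1) * (Q.card * (2 * Y)) * (C * Real.log k) ^ k := by ring
      _ ≤ ((Q.card : ℝ) ^ 2) ^ (k - 1) * (Q.card * (Q.card * Real.exp k)) *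
            (C * Real.log k) ^ k := by
          apply mul_le_mul_of_nonneg_right _ (pow_nonneg hCl _)
          apply mul_le_mul_of_nonneg_left _ (by positivity)
          exact mul_le_mul_of_nonneg_left hY hq0
      _ = ((Q.card : ℝ) ^ 2) ^ (k - 1) * ((Q.card : ℝ) ^ 2) * Real.exp 1 ^ k *
            (C * Real.log k) ^ k := by rw [hek]; ring
      _ = ((Q.card : ℝ) ^ 2) ^ k * Real.exp 1 ^ k * (C * Real.log k) ^ k := by
          rw [← pow_succ, Nat.sub_add_cancel (by omega)]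
      _ = (Real.exp 1 * C * Real.log k * (Q.card : ℝ) ^ 2) ^ k := by
          rw [← mul_pow, ← mul_pow]; ring
  exact le_of_pow_le_pow_left₀ (by omega : k ≠ 0) (by positivity) hfin

end Pool.Agent.Lib.MP_e3f158_nt.D2
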