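import Pool.Agent.Lib.MP_e3f158_nt.D2.LargeDev

/-!
# Few blocks contain too many primes

PROOF. Apply `large_dev` with `2 * H` (`(2H)² = 4H² ≤ N`), `C₁ = 2 C₀`. Let `i ≥ 1` be a bad block of
the filter. For every `m ∈ [(i - 1) H, i H)` the interval `(m, m + 2H]` contains
`(i H, (i + 1) H]`, so `cnt m (2H) ≥ cnt (i H) H` and `C₀ (2H) < cnt m (2H) * log N`; also
`m < i H ≤ N`. Different `i` give disjoint sets of `H` numbers `m` each, so
`H * (bad - 1) ≤ N (log N)^E / (2 H)` (the `-1` is for `i = 0`), hence the claim.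
-/

namespace Pool.Agent.Lib.MP_e3f158_nt.D2

open Finset Filter

private theorem bb_cnt {i H m : ℕ} (h1 : (i - 1) * H ≤ m) (h2 : m < (i - 1) * H + H)
    (hi : 1 ≤ i) : cnt (i * H) H ≤ cnt m (2 * H) := by
  obtain ⟨k, rfl⟩ : ∃ k, i = k + 1 := ⟨i - 1, by omega⟩
  rw [Nat.add_sub_cancel] at h1 h2
  have e : (k + 1) * H = k * H + H := by ring
  unfold cnt
  refine card_le_card_of_injOn (fun h => (k + 1) * H + h - m) ?_ ?_
  · intro h hh
    rw [mem_coe, mem_filter, mem_Ioc] at hh
    rw [mem_coe, mem_filter, mem_Ioc]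
    have h4 : 0 < (k + 1) * H + h - m := by omega
    have h5 : (k + 1) * H + h - m ≤ 2 * H := by omega
    refine ⟨⟨h4, h5⟩, ?_⟩
    have h3 : m + ((k + 1) * H + h - m) = (k + 1) * H + h := by omega
    change (m + ((k + 1) * H + h - m)).Prime
    rw [h3]
    exact hh.2
  · intro a ha b hb hab
    rw [mem_coe, mem_filter, mem_Ioc] at ha hb
    have hab' : (k + 1) * H + a - m = (k + 1) * H + b - m := hab
    omega

theorem bad_blk : ∃ C₁ : ℝ, 1 ≤ C₁ ∧ ∃ E : ℕ, ∀ᶠ N : ℕ in atTop, ∀ H : ℕ, 1 ≤ H →
    4 * (H : ℝ) ^ 2 ≤ N →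
    (((range (N / H)).filter fun i => C₁ * H < cnt (i * H) H * Real.log N).card : ℝ) ≤
      1 + N * (Real.log N) ^ E / (H : ℝ) ^ 2 := by
  classical
  obtain ⟨C₀, hC₀, E, hE⟩ := large_dev
  refine ⟨2 * C₀, by linarith, E, ?_⟩
  filter_upwards [hE, eventually_ge_atTop 1] with N hN hN1 H hH hHN
  have hHpos : (0 : ℝ) < H := by exact_mod_cast hH
  have hlog : 0 ≤ Real.log N := Real.log_natCast_nonneg N
  have h1 := hN (2 * H) (by omega) (by push_cast; linarith)
  set B := (range (N / H)).filter fun i => 2 * C₀ * H < cnt (i * H) H * Real.log N with hB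
  set S := (range N).filter fun m => C₀ * ((2 * H : ℕ) : ℝ) < cnt m (2 * H) * Real.log N with hS
  set B' := B.filter fun i => 1 ≤ i with hB'
  have h2 : B.card ≤ B'.card + 1 := by
    have h3 : B ⊆ insert 0 B' := by
      intro i hi
      rw [mem_insert, hB', mem_filter]
      rcases Nat.eq_zero_or_pos i with h | h
      · exact Or.inl h
      · exact Or.inr ⟨hi, h⟩
    exact (card_le_card h3).trans (card_insert_le _ _)
  have h3 : B'.card * H ≤ S.card := by
    have h4 : (B' ×ˢ range H).card ≤ S.card := by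
      refine card_le_card_of_injOn (fun x => (x.1 - 1) * H + x.2) ?_ ?_
      · rintro ⟨i, j⟩ hx
        rw [mem_coe, mem_product, hB', mem_filter, hB, mem_filter, mem_range, mem_range] at hx
        obtain ⟨⟨⟨hi, hbad⟩, hi1⟩, hj⟩ := hx
        change j < H at hj
        change i < N / H at hi
        change 1 ≤ i at hi1
        change 2 * C₀ * H < cnt (i * H) H * Real.log N at hbad
        rw [mem_coe, hS, mem_filter, mem_range]
        have h5 : (N / H) * H ≤ N := Nat.div_mul_le_self N H
        have h6 : (i + 1) * H ≤ (N / H) * H := Nat.mul_le_mul_right H hi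
        have h7 : (i - 1) * H + H = i * H := by
          obtain ⟨k, rfl⟩ : ∃ k, i = k + 1 := ⟨i - 1, by omega⟩
          rw [Nat.add_sub_cancel]
          ring
        have h8 : (i + 1) * H = i * H + H := by ring
        refine ⟨?_, ?_⟩
        · change (i - 1) * H + j < N
          omega
        · change C₀ * ((2 * H : ℕ) : ℝ) < cnt ((i - 1) * H + j) (2 * H) * Real.log N
          have h9 := bb_cnt (i := i) (H := H) (m := (i - 1) * H + j) (by omega) (by omega) hi1
          have h10 : (cnt (i * H) H : ℝ) ≤ cnt ((i - 1) * H + j) (2 * H) := by exact_mod_cast h9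
          have h11 := mul_le_mul_of_nonneg_right h10 hlog
          push_cast
          linarith
      · rintro ⟨i, j⟩ hx ⟨i', j'⟩ hx' hxx
        rw [mem_coe, mem_product, hB', mem_filter, mem_range] at hx hx'
        have hj : j < H := hx.2
        have hj' : j' < H := hx'.2
        have hi : 1 ≤ i := hx.1.2
        have hi' : 1 ≤ i' := hx'.1.2
        have hxx' : (i - 1) * H + j = (i' - 1) * H + j' := hxx
        have e1 : ((i - 1) * H + j) / H = i - 1 := by
          rw [mul_comm, Nat.mul_add_div (by omega), Nat.div_eq_of_lt hj, add_zero]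
        have e2 : ((i' - 1) * H + j') / H = i' - 1 := by
          rw [mul_comm, Nat.mul_add_div (by omega), Nat.div_eq_of_lt hj', add_zero]
        have e3 : i - 1 = i' - 1 := by rw [← e1, ← e2, hxx']
        have e4 : i = i' := by omega
        subst e4
        have e5 : j = j' := by omega
        rw [e5]
    rwa [card_product, card_range] at h4
  have h4 : (B'.card : ℝ) * H ≤ N * Real.log N ^ E / (2 * H) := by
    have h5 : ((B'.card * H : ℕ) : ℝ) ≤ S.card := by exact_mod_cast h3
    push_cast at h5 h1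
    exact h5.trans h1
  have h5 : (B'.card : ℝ) ≤ N * Real.log N ^ E / (H : ℝ) ^ 2 := by
    rw [le_div_iff₀ (by positivity)]
    have h6 : (B'.card : ℝ) * (H : ℝ) ^ 2 ≤ N * Real.log N ^ E / 2 := by
      have h7 := mul_le_mul_of_nonneg_right h4 hHpos.le
      have h8 : N * Real.log N ^ E / (2 * H) * H = N * Real.log N ^ E / 2 := by
        field_simp
      rw [h8] at h7
      calc (B'.card : ℝ) * (H : ℝ) ^ 2 = B'.card * H * H := by ring
        _ ≤ _ := h7
    have h9 : 0 ≤ (N : ℝ) * Real.log N ^ E := by positivity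
    linarith
  have h6 : (B.card : ℝ) ≤ B'.card + 1 := by exact_mod_cast h2
  linarith

end Pool.Agent.Lib.MP_e3f158_nt.D2
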