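import Pool.Agent.Lib.MP_e3f158_nt.D2.Defs
import Pool.Agent.Lib.MP_c77da8_nt.Mert

/-!
# `∑ 1/p` over the prime factors of a number

PROOF of `ES_le`. Split `D` into the `p ≤ X` and the `p > X`. First part: `≤ ∑_{p ≤ X} 1/p ≤
Mert.R J` with `2^J ≥ X` minimal (`J = Nat.clog 2 ⌈X⌉₊ ≥ 1`), `Mert.R_le : R J ≤ log J + 6` and
`J ≤ log X / log 2 + 2 ≤ 6 log X`. Second part: there are at most `∑_{p ∈ D} log p / log 2 ≤
X / log 2` primes in `D`, each contributes `≤ 1 / X`, total `≤ 1 / log 2 ≤ 2`.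
Hence `ES D ≤ exp (log (6 log X) + 8) = 6 exp 8 log X`.

PROOF of `sum_log_dset`. `∑_{p ∈ n.primeFactors} log p = log ∏ p ≤ log n` for
`n = ∏_{x ∈ S.offDiag} dist x.1 x.2 ≠ 0` (`Nat.prod_primeFactors_dvd`), and `n ≤ H ^ (S.card ^ 2)`
because there are at most `S.card ^ 2` factors, each `≤ H`.
-/

namespace Pool.Agent.Lib.MP_e3f158_nt.D2

open Finset

theorem ES_le : ∃ C : ℝ, 1 ≤ C ∧ ∀ D : Finset ℕ, (∀ p ∈ D, p.Prime) → ∀ X : ℝ, 2 ≤ X →
    ∑ p ∈ D, Real.log p ≤ X → ES D ≤ C * Real.log X := by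
  refine ⟨6 * Real.exp 8, ?_, ?_⟩
  · have h1 : (1 : ℝ) ≤ Real.exp 8 := Real.one_le_exp (by norm_num)
    linarith
  intro D hD X hX hsum
  have hX0 : (0 : ℝ) < X := by linarith
  have hl2 : (0.69 : ℝ) < Real.log 2 := by
    have := Real.log_two_gt_d9
    linarith
  have hl2p : (0 : ℝ) < Real.log 2 := by linarith
  have hlX : Real.log 2 ≤ Real.log X := Real.log_le_log (by norm_num) hX
  have hlXp : (0 : ℝ) < Real.log X := by linarith
  set J : ℕ := ⌊Real.log X / Real.log 2⌋₊ + 1 with hJ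
  have hJ1 : 1 ≤ J := by omega
  have hJle : (J : ℝ) ≤ 6 * Real.log X := by
    have h1 : ((⌊Real.log X / Real.log 2⌋₊ : ℕ) : ℝ) ≤ Real.log X / Real.log 2 :=
      Nat.floor_le (by positivity)
    have h2 : Real.log X / Real.log 2 ≤ 3 * Real.log X := by
      rw [div_le_iff₀ hl2p]
      nlinarith
    rw [hJ]
    push_cast
    linarith
  have hXJ : X ≤ 2 ^ J := by
    have h1 : Real.log X / Real.log 2 < J := by
      rw [hJ]
      push_cast
      exact Nat.lt_floor_add_one _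
    rw [div_lt_iff₀ hl2p] at h1
    rw [← Real.log_le_log_iff hX0 (by positivity), Real.log_pow]
    exact h1.le
  have hpos : ∀ p ∈ D, (0 : ℝ) < p := fun p hp => by exact_mod_cast (hD p hp).pos
  have hlog : ∀ p ∈ D, Real.log 2 ≤ Real.log p := fun p hp =>
    Real.log_le_log (by norm_num) (by exact_mod_cast (hD p hp).two_le)
  -- the small primes
  have hA : ∑ p ∈ D.filter (fun p : ℕ => (p : ℝ) ≤ X), (1 : ℝ) / p ≤ Real.log (6 * Real.log X) + 6 := by
    have h1 : ∑ p ∈ D.filter (fun p : ℕ => (p : ℝ) ≤ X), (1 : ℝ) / p ≤ Pool.Agent.Lib.MP_c77da8_nt.Mert.R J := by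
      unfold Pool.Agent.Lib.MP_c77da8_nt.Mert.R
      refine Finset.sum_le_sum_of_subset_of_nonneg ?_ ?_
      · intro p hp
        rw [Finset.mem_filter] at hp
        rw [Nat.mem_primesLE]
        refine ⟨?_, hD p hp.1⟩
        have : (p : ℝ) ≤ ((2 ^ J : ℕ) : ℝ) := by
          push_cast
          exact hp.2.trans hXJ
        exact_mod_cast this
      · intro p _ _
        positivity
    have h2 := Pool.Agent.Lib.MP_c77da8_nt.Mert.R_le J hJ1
    have h3 : Real.log (J : ℝ) ≤ Real.log (6 * Real.log X) :=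
      Real.log_le_log (by exact_mod_cast hJ1) hJle
    linarith
  -- the large primes
  have hB : ∑ p ∈ D.filter (fun p : ℕ => ¬ (p : ℝ) ≤ X), (1 : ℝ) / p ≤ 2 := by
    set E := D.filter (fun p : ℕ => ¬ (p : ℝ) ≤ X) with hE
    have h1 : ∑ p ∈ E, (1 : ℝ) / p ≤ ∑ _p ∈ E, 1 / X := by
      refine Finset.sum_le_sum fun p hp => ?_
      rw [hE, Finset.mem_filter] at hp
      exact one_div_le_one_div_of_le hX0 (not_le.1 hp.2).le
    rw [Finset.sum_const, nsmul_eq_mul] at h1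
    have h2 : (E.card : ℝ) * Real.log 2 ≤ X := by
      have h3 : ∑ _p ∈ E, Real.log 2 ≤ ∑ p ∈ D, Real.log p := by
        refine (Finset.sum_le_sum (fun p hp => hlog p (Finset.mem_of_mem_filter p hp))).trans ?_
        refine Finset.sum_le_sum_of_subset_of_nonneg (Finset.filter_subset _ _) ?_
        intro p hp _
        exact hl2p.le.trans (hlog p hp)
      rw [Finset.sum_const, nsmul_eq_mul] at h3
      linarith
    have h4 : (E.card : ℝ) ≤ 2 * X := by
      have h5 : (0 : ℝ) ≤ E.card := Nat.cast_nonneg _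
      nlinarith
    refine h1.trans ?_
    rw [mul_one_div, div_le_iff₀ hX0]
    exact h4
  have hT : ∑ p ∈ D, (1 : ℝ) / p ≤ Real.log (6 * Real.log X) + 8 := by
    rw [← Finset.sum_filter_add_sum_filter_not D (fun p : ℕ => (p : ℝ) ≤ X)]
    linarith
  rw [ES]
  refine (Real.exp_le_exp.2 hT).trans (le_of_eq ?_)
  rw [Real.exp_add, Real.exp_log (by positivity)]
  ring

theorem sum_log_dset (S : Finset ℕ) (H : ℕ) (hH : 1 ≤ H) (hS : ∀ h ∈ S, h ≤ H) :
    ∑ p ∈ dset S, Real.log p ≤ (S.card : ℝ) ^ 2 * Real.log H := by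
  have hne : ∀ x ∈ S.offDiag, Nat.dist x.1 x.2 ≠ 0 := by
    intro x hx h0
    rw [Finset.mem_offDiag] at hx
    exact hx.2.2 (Nat.eq_of_dist_eq_zero h0)
  have hprod : (∏ x ∈ S.offDiag, Nat.dist x.1 x.2) ≠ 0 := Finset.prod_ne_zero_iff.2 hne
  have hlH : 0 ≤ Real.log H := Real.log_nonneg (by exact_mod_cast hH)
  have h1 : ∑ p ∈ dset S, Real.log p ≤ Real.log ((∏ x ∈ S.offDiag, Nat.dist x.1 x.2 : ℕ) : ℝ) := by
    rw [dset, ← Real.log_prod (fun p hp => by
      have := (Nat.prime_of_mem_primeFactors hp).pos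
      positivity)]
    have h2 : (∏ p ∈ (∏ x ∈ S.offDiag, Nat.dist x.1 x.2).primeFactors, p) ≤
        ∏ x ∈ S.offDiag, Nat.dist x.1 x.2 :=
      Nat.le_of_dvd (Nat.pos_of_ne_zero hprod) (Nat.prod_primeFactors_dvd _)
    refine Real.log_le_log ?_ ?_
    · refine Finset.prod_pos fun p hp => ?_
      exact_mod_cast (Nat.prime_of_mem_primeFactors hp).pos
    · rw [← Nat.cast_prod]
      exact_mod_cast h2
  refine h1.trans ?_
  rw [Nat.cast_prod, Real.log_prod (fun x hx => by exact_mod_cast hne x hx)]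
  have h3 : ∑ x ∈ S.offDiag, Real.log ((Nat.dist x.1 x.2 : ℕ) : ℝ) ≤
      ∑ _x ∈ S.offDiag, Real.log H := by
    refine Finset.sum_le_sum fun x hx => ?_
    refine Real.log_le_log (by exact_mod_cast Nat.pos_of_ne_zero (hne x hx)) ?_
    rw [Finset.mem_offDiag] at hx
    have h4 := hS _ hx.1
    have h5 := hS _ hx.2.1
    have h6 : Nat.dist x.1 x.2 ≤ H := by
      unfold Nat.dist
      omega
    exact_mod_cast h6
  refine h3.trans ?_
  rw [Finset.sum_const, nsmul_eq_mul]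
  refine mul_le_mul_of_nonneg_right ?_ hlH
  rw [Finset.offDiag_card]
  have h7 : S.card * S.card - S.card ≤ S.card ^ 2 := by
    rw [sq]
    omega
  exact_mod_cast h7

end Pool.Agent.Lib.MP_e3f158_nt.D2
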