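import Mathlib

/-!
# A moment bound for the size of a sumset

PROOF. Let `X = A + B` and `r x = #{q ∈ A : q ≤ x ∧ G (x - q)}`. Every pair `(q, p) ∈ A × B` gives
`x = q + p ∈ X`, `q ∈` the set defining `r x` (`x - q = p ∈ B`); so `∑_{x ∈ X} r x ≥ |A| |B|`.
Let `X' = {x ∈ X : 2 t ≤ r x}`. Then `∑_{X \ X'} r ≤ 2 t |X| ≤ |A||B|/2`, so
`∑_{x ∈ X'} r x ≥ |A||B|/2`. For `x ∈ X'`: `C(r x, t) ≥ (r x + 1 - t)^t / t! ≥ (r x / 2)^t / t!`
(`Nat.pow_le_choose`). Power mean (`Finset.pow_sum_div_card_le_sum_pow`):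
`∑_{X'} (r/2)^t ≥ (∑_{X'} r/2)^t / |X'|^(t-1) ≥ (|A||B|/4)^t / |X|^(t-1)`.
On the other hand (double counting, as `sum_choose_cnt` in Conc.lean)
`∑_{x ∈ X} C(r x, t) = ∑_{S ⊆ A, |S| = t} #{x ∈ X : ∀ q ∈ S, q ≤ x ∧ G (x - q)} ≤ C(|A|, t) M ≤
(|A|^t / t!) M` (`Nat.choose_le_pow_div`). So `(|A||B|/4)^t ≤ |X|^(t-1) |A|^t M`; divide by `|A|^t`.
-/

namespace Pool.Agent.Lib.MP_e3f158_nt.D2

open Finset

private theorem sumMom_count (A X : Finset ℕ) (Q : ℕ → ℕ → Prop) [∀ x q, Decidable (Q x q)]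
    (t : ℕ) :
    ∑ x ∈ X, ((A.filter fun q => Q x q).card).choose t =
      ∑ S ∈ A.powersetCard t, (X.filter fun x => ∀ q ∈ S, Q x q).card := by
  classical
  have h3 : ∀ x ∈ X, ((A.filter fun q => Q x q).card).choose t =
      ∑ S ∈ A.powersetCard t, if (∀ q ∈ S, Q x q) then 1 else 0 := by
    intro m _
    rw [← card_powersetCard, ← Finset.sum_filter, sum_const, smul_eq_mul, mul_one]
    congr 1
    ext S
    simp only [mem_powersetCard, mem_filter]
    constructor
    · rintro ⟨h4, h5⟩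
      exact ⟨⟨fun p hp => (mem_filter.1 (h4 hp)).1, h5⟩, fun p hp => (mem_filter.1 (h4 hp)).2⟩
    · rintro ⟨⟨h4, h5⟩, h6⟩
      exact ⟨fun p hp => mem_filter.2 ⟨h4 hp, h6 p hp⟩, h5⟩
  rw [sum_congr rfl h3, sum_comm]
  refine sum_congr rfl fun D _ => ?_
  rw [card_filter]

private theorem sumMom_pairs (A B : Finset ℕ) (G : ℕ → Prop) [DecidablePred G]
    (hB : ∀ p ∈ B, G p) :
    A.card * B.card ≤ ∑ x ∈ image₂ (fun q p => q + p) A B,
      (A.filter fun q => q ≤ x ∧ G (x - q)).card := by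
  classical
  have h1 : ∑ x ∈ image₂ (fun q p => q + p) A B, (A.filter fun q => q ≤ x ∧ G (x - q)).card =
      ((image₂ (fun q p => q + p) A B).sigma fun x =>
        A.filter fun q => q ≤ x ∧ G (x - q)).card := by
    rw [card_sigma]
  rw [h1, ← card_product]
  refine card_le_card_of_injOn (fun z => ⟨z.1 + z.2, z.1⟩) ?_ ?_
  · intro z hz
    have hz' := mem_product.1 hz
    simp only [coe_sigma, Set.mem_sigma_iff, mem_coe, mem_filter]
    refine ⟨mem_image₂.2 ⟨z.1, hz'.1, z.2, hz'.2, rfl⟩, hz'.1, by omega, ?_⟩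
    have : z.1 + z.2 - z.1 = z.2 := by omega
    rw [this]
    exact hB _ hz'.2
  · intro z _ w _ h
    simp only [Sigma.mk.injEq, heq_eq_eq] at h
    ext <;> omega

theorem sumset_moment (A B : Finset ℕ) (G : ℕ → Prop) [DecidablePred G] (hA : A.Nonempty)
    (hB : ∀ p ∈ B, G p) (t : ℕ) (ht : 1 ≤ t) (M : ℝ) (hM : 0 ≤ M)
    (hS : ∀ S ⊆ A, S.card = t →
      (((image₂ (fun q p => q + p) A B).filter fun x => ∀ q ∈ S, q ≤ x ∧ G (x - q)).card : ℝ) ≤ M)
    (hbig : 4 * (t : ℝ) * ((image₂ (fun q p => q + p) A B).card : ℝ) ≤ A.card * B.card) :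
    ((B.card : ℝ) / 4) ^ t ≤ ((image₂ (fun q p => q + p) A B).card : ℝ) ^ (t - 1) * M := by
  classical
  set X := image₂ (fun q p => q + p) A B with hX
  set r : ℕ → ℕ := fun x => (A.filter fun q => q ≤ x ∧ G (x - q)).card with hr
  have hpairs : ((A.card : ℝ) * B.card) ≤ ∑ x ∈ X, (r x : ℝ) := by
    exact_mod_cast sumMom_pairs A B G hB
  have hcount : ∑ x ∈ X, ((r x).choose t : ℝ) ≤ (A.card.choose t : ℝ) * M := by
    have h1 := sumMom_count A X (fun x q => q ≤ x ∧ G (x - q)) t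
    have h2 : ∑ x ∈ X, ((r x).choose t : ℝ) =
        ∑ S ∈ A.powersetCard t, ((X.filter fun x => ∀ q ∈ S, q ≤ x ∧ G (x - q)).card : ℝ) := by
      exact_mod_cast h1
    rw [h2]
    calc _ ≤ ∑ S ∈ A.powersetCard t, M := by
            refine sum_le_sum fun S hS' => ?_
            exact hS S (mem_powersetCard.1 hS').1 (mem_powersetCard.1 hS').2
      _ = (A.card.choose t : ℝ) * M := by
            rw [sum_const, card_powersetCard, nsmul_eq_mul]
  have hf : (0 : ℝ) < (t.factorial : ℝ) := by exact_mod_cast t.factorial_pos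
  set X' := X.filter fun x => 2 * t ≤ r x with hX'
  have hsplit : (A.card : ℝ) * B.card / 2 ≤ ∑ x ∈ X', (r x : ℝ) := by
    have h1 : ∑ x ∈ X, (r x : ℝ) = ∑ x ∈ X', (r x : ℝ) +
        ∑ x ∈ X.filter (fun x => ¬ 2 * t ≤ r x), (r x : ℝ) :=
      (sum_filter_add_sum_filter_not X _ _).symm
    have h2 : ∑ x ∈ X.filter (fun x => ¬ 2 * t ≤ r x), (r x : ℝ) ≤ X.card * (2 * t) := by
      calc _ ≤ ∑ x ∈ X.filter (fun x => ¬ 2 * t ≤ r x), (2 * t : ℝ) := by
              refine sum_le_sum fun x hx => ?_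
              have := (mem_filter.1 hx).2
              have h3 : r x ≤ 2 * t := by omega
              exact_mod_cast h3
        _ = ((X.filter (fun x => ¬ 2 * t ≤ r x)).card : ℝ) * (2 * t) := by
              rw [sum_const, nsmul_eq_mul]
        _ ≤ X.card * (2 * t) := by
              refine mul_le_mul_of_nonneg_right ?_ (by positivity)
              exact_mod_cast card_le_card (filter_subset _ _)
    linarith
  have hmom : ∑ x ∈ X', ((r x : ℝ) / 2) ^ t ≤ (A.card : ℝ) ^ t * M := by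
    have h1 : ∑ x ∈ X', ((r x : ℝ) / 2) ^ t / (t.factorial : ℝ) ≤
        (A.card : ℝ) ^ t / (t.factorial : ℝ) * M := by
      calc _ ≤ ∑ x ∈ X', ((r x).choose t : ℝ) := by
              refine sum_le_sum fun x hx => ?_
              have hx2 : 2 * t ≤ r x := (mem_filter.1 hx).2
              have h2 : (((r x + 1 - t : ℕ) : ℝ)) ^ t / (t.factorial : ℝ) ≤ ((r x).choose t : ℝ) :=
                Nat.pow_le_choose t (r x)
              have h4 : ((r x : ℝ) / 2) ^ t ≤ (((r x + 1 - t : ℕ) : ℝ)) ^ t := by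
                refine pow_le_pow_left₀ (by positivity) ?_ t
                have h5 : (2 : ℝ) * t ≤ r x := by exact_mod_cast hx2
                rw [Nat.cast_sub (by omega)]
                push_cast
                linarith
              refine le_trans ?_ h2
              gcongr
        _ ≤ ∑ x ∈ X, ((r x).choose t : ℝ) :=
              sum_le_sum_of_subset_of_nonneg (filter_subset _ _) fun _ _ _ => by positivity
        _ ≤ (A.card.choose t : ℝ) * M := hcount
        _ ≤ _ := mul_le_mul_of_nonneg_right (Nat.choose_le_pow_div t A.card) hM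
    rw [← sum_div] at h1
    rw [div_mul_eq_mul_div, div_le_div_iff_of_pos_right hf] at h1
    exact h1
  have hpow : (∑ x ∈ X', ((r x : ℝ) / 2)) ^ t ≤ (X.card : ℝ) ^ (t - 1) *
      ∑ x ∈ X', ((r x : ℝ) / 2) ^ t := by
    obtain ⟨n, rfl⟩ : ∃ n, t = n + 1 := ⟨t - 1, by omega⟩
    simp only [Nat.add_sub_cancel]
    by_cases hc : X'.card = 0
    · have : X' = ∅ := card_eq_zero.1 hc
      rw [this]
      simp
    · have h1 := pow_sum_div_card_le_sum_pow (s := X') (f := fun x => (r x : ℝ) / 2)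
        (fun _ _ => by positivity) n
      have h2 : (0 : ℝ) < (X'.card : ℝ) ^ n := by
        have : (0 : ℝ) < (X'.card : ℝ) := by exact_mod_cast Nat.pos_of_ne_zero hc
        positivity
      rw [div_le_iff₀ h2] at h1
      refine h1.trans ?_
      rw [mul_comm]
      refine mul_le_mul_of_nonneg_right ?_ (sum_nonneg fun _ _ => by positivity)
      refine pow_le_pow_left₀ (by positivity) ?_ n
      exact_mod_cast card_le_card (filter_subset _ _)
  have hfin : ((A.card : ℝ) * B.card / 4) ^ t ≤ (X.card : ℝ) ^ (t - 1) * ((A.card : ℝ) ^ t * M) := by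
    calc ((A.card : ℝ) * B.card / 4) ^ t ≤ (∑ x ∈ X', ((r x : ℝ) / 2)) ^ t := by
            refine pow_le_pow_left₀ (by positivity) ?_ t
            rw [← sum_div]
            linarith
      _ ≤ _ := hpow
      _ ≤ _ := mul_le_mul_of_nonneg_left hmom (by positivity)
  have hApos : (0 : ℝ) < (A.card : ℝ) ^ t := by
    have : (0 : ℝ) < (A.card : ℝ) := by exact_mod_cast card_pos.2 hA
    positivity
  have h1 : (A.card : ℝ) ^ t * ((B.card : ℝ) / 4) ^ t ≤
      (A.card : ℝ) ^ t * ((X.card : ℝ) ^ (t - 1) * M) := by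
    calc (A.card : ℝ) ^ t * ((B.card : ℝ) / 4) ^ t = ((A.card : ℝ) * B.card / 4) ^ t := by
            rw [← mul_pow]; ring
      _ ≤ _ := hfin
      _ = _ := by ring
  exact le_of_mul_le_mul_left h1 hApos

end Pool.Agent.Lib.MP_e3f158_nt.D2
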