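import Pool.Agent.Lib.MP_e3f158_nt.D2.TSieve
import Pool.Agent.Lib.MP_e3f158_nt.D2.ESle
import Pool.Agent.Lib.MP_e3f158_nt.D2.SumMom

/-!
# Sums of a set in a short block and a dense set of small primes

PROOF. Let `y = log (log H)`, `t = ⌈y⌉₊ + 1` (so `y ≤ t - 1`, `t ≤ y + 2 ≤ 2y`), `X = A + B`
(nonempty; `|X| ≤ 2H` since `X ⊆ (u, u + 2H]`). If `H` is large then `A, B` are nonempty. Use
`sumset_moment` with `G p := p.Prime ∧ p ≤ H`.
`hbig`: `4 t |X| ≤ 8 t H ≤ c₁ H log H ≤ |A||B|` as `|A||B| ≥ (log H)^(b+2) c₁ H/(log H)^(b+1)`.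
`hS`: for `S ⊆ A`, `|S| = t`, let `w = S.max'`, `S' = S.image (fun q => w - q)`; `|S'| = t`,
`S' ⊆ [0, H]`, `x ↦ x - w` maps `{x ∈ X : ∀ q ∈ S, q ≤ x ∧ (x - q).Prime ∧ x - q ≤ H}` injectively into
`{n < H + 1 : ∀ h ∈ S', (n + h).Prime}` (`x - q = (x - w) + (w - q)`). By `tuple_sieve` with `N = H + 1`
(`C t log (t+1) ≤ log (H+1)` for large `H`) and `ES_le`, `sum_log_dset`
(`∑_{p ∈ dset S'} log p ≤ t² log H ≤ (log H)²`, so `ES (dset S') ≤ 2 C_E y`):
`M = 2 H (C t log (t+1) / log H)^t (2 C_E y)^(t-1)` works.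
Conclusion: `(|B|/4)^t ≤ |X|^(t-1) M`, so with `ℓ = log H`
`|X|^(t-1) ≥ H^(t-1) (c₁/(4 C t log (t+1)))^t ℓ^(-b t) / (2 (2 C_E y)^(t-1))`.
Take `(t-1)`-th roots in the form: if `a^(t-1) ≤ x^(t-1)` then `a ≤ x`. With
`z = 4 C t log(t+1)/c₁` one has `z^t = z^(t-1) z` and `z ≤ 2^(t-1)` for large `H`;
`ℓ^(b t) = ℓ^(b (t-1)) ℓ^b` and `ℓ^b = exp (b y) ≤ exp (b (t-1)) = (e^b)^(t-1)`; `2 ≤ 2^(t-1)`. Hence
`|X| ≥ H / (z · 2 · ℓ^b · e^b · 2 · 2 C_E y) `, and `t ≤ 2 y`, `log (t+1) ≤ 2 log y`. So the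
claim holds with `c = c₁ / (C' e^b)`.
-/

namespace Pool.Agent.Lib.MP_e3f158_nt.D2

open Finset Filter

/-- the combinatorial input: differences with the largest element -/
theorem bs_shift (H u t : ℕ) (A B S : Finset ℕ) (hA : A ⊆ Ioc u (u + H)) (hSA : S ⊆ A)
    (hSt : S.card = t) (ht : 1 ≤ t) : ∃ S' : Finset ℕ, S'.card = t ∧ (∀ h ∈ S', h ≤ H) ∧
      ((image₂ (fun q p => q + p) A B).filter fun x => ∀ q ∈ S, q ≤ x ∧ ((x - q).Prime ∧ x - q ≤ H)).card
        ≤ ((range (H + 1)).filter fun n => ∀ h ∈ S', (n + h).Prime).card := by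
  have hne : S.Nonempty := Finset.card_pos.1 (by omega)
  set w := S.max' hne with hw
  have hwS : w ∈ S := S.max'_mem hne
  have hle : ∀ q ∈ S, q ≤ w := fun q hq => S.le_max' q hq
  refine ⟨S.image fun q => w - q, ?_, ?_, ?_⟩
  · rw [Finset.card_image_of_injOn, hSt]
    intro q hq q' hq' h
    have h1 := hle q hq
    have h2 := hle q' hq'
    simp only at h
    omega
  · intro h hh
    obtain ⟨q, hq, rfl⟩ := Finset.mem_image.1 hh
    have h1 := Finset.mem_Ioc.1 (hA (hSA hq))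
    have h2 := Finset.mem_Ioc.1 (hA (hSA hwS))
    omega
  · refine Finset.card_le_card_of_injOn (fun x => x - w) ?_ ?_
    · intro x hx
      have hx2 := (Finset.mem_filter.1 (Finset.mem_coe.1 hx)).2
      have hxw := hx2 w hwS
      refine Finset.mem_coe.2 (Finset.mem_filter.2 ⟨Finset.mem_range.2 (Nat.lt_succ_of_le hxw.2.2), ?_⟩)
      intro h hh
      obtain ⟨q, hq, rfl⟩ := Finset.mem_image.1 hh
      have h1 := hle q hq
      have h2 := (hx2 q hq).2.1
      have : x - w + (w - q) = x - q := by have := hxw.1; omega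
      rw [this]; exact h2
    · intro x hx x' hx' h
      have hxw := ((Finset.mem_filter.1 (Finset.mem_coe.1 hx)).2 w hwS).1
      have hxw' := ((Finset.mem_filter.1 (Finset.mem_coe.1 hx')).2 w hwS).1
      simp only at h
      omega

theorem bs_card (H u : ℕ) (A B : Finset ℕ) (hA : A ⊆ Ioc u (u + H)) (hB : ∀ p ∈ B, p.Prime ∧ p ≤ H) :
    (image₂ (fun q p => q + p) A B).card ≤ 2 * H := by
  have h1 : image₂ (fun q p => q + p) A B ⊆ Ioc u (u + 2 * H) := by
    intro x hx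
    obtain ⟨q, hq, p, hp, rfl⟩ := Finset.mem_image₂.1 hx
    have h1 := Finset.mem_Ioc.1 (hA hq)
    have h2 := (hB p hp).2
    exact Finset.mem_Ioc.2 ⟨by omega, by omega⟩
  calc _ ≤ (Ioc u (u + 2 * H)).card := Finset.card_le_card h1
    _ = 2 * H := by simp

/-- the real-number part: extraction of roots -/
theorem bs_real (b t : ℕ) (ht : 2 ≤ t) {c₁ C E H ℓ y L X Bc : ℝ} (hc₁ : 0 < c₁) (hC : 1 ≤ C) (hE : 1 ≤ E)
    (hH : 0 < H) (hℓ : 0 < ℓ) (hy : 0 < y) (hL : 0 < L) (hX : 0 ≤ X)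
    (hℓy : ℓ ^ b ≤ (Real.exp b) ^ (t - 1)) (hz : 4 * C * t * L / c₁ ≤ 2 ^ (t - 1))
    (hB : c₁ * H / ℓ ^ (b + 1) ≤ Bc)
    (h : (Bc / 4) ^ t ≤ X ^ (t - 1) * (2 * H * (C * t * L / ℓ) ^ t * (2 * E * y) ^ (t - 1))) :
    H ≤ 8 * Real.exp b * E * (4 * C * t * L / c₁) * ℓ ^ b * y * X := by
  have ht0 : (0 : ℝ) < t := by exact_mod_cast (by omega : 0 < t)
  set z := 4 * C * t * L / c₁ with hzdef
  have hz0 : 0 < z := by positivity
  have hC0 : 0 < C := by linarith
  have hE0 : 0 < E := by linarith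
  obtain ⟨m, rfl⟩ : ∃ m, t = m + 1 := ⟨t - 1, by omega⟩
  simp only [Nat.add_sub_cancel] at *
  have hm : 1 ≤ m := by omega
  -- lower bound for the left side
  have h1 : (c₁ * H / ℓ ^ (b + 1) / 4) ^ (m + 1)
      ≤ X ^ m * (2 * H * (C * (m + 1 : ℕ) * L / ℓ) ^ (m + 1) * (2 * E * y) ^ m) :=
    (pow_le_pow_left₀ (by positivity) (by linarith) _).trans h
  have h2 : c₁ * H / ℓ ^ (b + 1) / 4 = (C * (m + 1 : ℕ) * L / ℓ) * (H / (z * ℓ ^ b)) := by
    rw [hzdef, pow_succ]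
    field_simp
  rw [h2, mul_pow] at h1
  have h3 : 0 < (C * (m + 1 : ℕ) * L / ℓ) ^ (m + 1) := by positivity
  have h4 : (H / (z * ℓ ^ b)) ^ (m + 1) ≤ X ^ m * (2 * H * (2 * E * y) ^ m) := by
    refine le_of_mul_le_mul_left ?_ h3
    calc _ ≤ _ := h1
      _ = _ := by ring
  rw [div_pow, div_le_iff₀ (by positivity)] at h4
  have h5 : H ^ m ≤ (2 * 2 * Real.exp b * z * ℓ ^ b * (2 * E * y) * X) ^ m := by
    have e1 : H ^ (m + 1) = H * H ^ m := by ring
    rw [e1] at h4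
    have h6 : H ^ m ≤ X ^ m * (2 * (2 * E * y) ^ m) * (z * ℓ ^ b) ^ (m + 1) := by
      refine le_of_mul_le_mul_left ?_ hH
      calc _ ≤ _ := h4
        _ = _ := by ring
    have h7 : (2 : ℝ) ≤ 2 ^ m := by
      calc (2 : ℝ) = 2 ^ 1 := by norm_num
        _ ≤ 2 ^ m := pow_le_pow_right₀ (by norm_num) hm
    calc H ^ m ≤ X ^ m * (2 * (2 * E * y) ^ m) * (z * ℓ ^ b) ^ (m + 1) := h6
      _ = X ^ m * (2 * E * y) ^ m * (z * ℓ ^ b) ^ m * (2 * (z * ℓ ^ b)) := by ring
      _ ≤ X ^ m * (2 * E * y) ^ m * (z * ℓ ^ b) ^ m * (2 ^ m * (2 ^ m * (Real.exp b) ^ m)) := by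
          refine mul_le_mul_of_nonneg_left ?_ (by positivity)
          exact mul_le_mul h7 (mul_le_mul hz hℓy (by positivity) (by positivity)) (by positivity)
            (by positivity)
      _ = _ := by
          rw [show (2 * 2 * Real.exp b * z * ℓ ^ b * (2 * E * y) * X) ^ m
            = (2 : ℝ) ^ m * 2 ^ m * (Real.exp b) ^ m * z ^ m * (ℓ ^ b) ^ m * (2 * E * y) ^ m * X ^ m by
              simp only [mul_pow]]
          ring
  have h8 := (pow_le_pow_iff_left₀ hH.le (by positivity) (by omega)).1 h5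
  calc H ≤ _ := h8
    _ = _ := by ring

/-- eventual inequalities -/
theorem bs_ev {c₁ C : ℝ} (hc₁ : 0 < c₁) (hC : 1 ≤ C) : ∃ Y : ℝ, ∀ y : ℝ, Y ≤ y →
    3 ≤ y ∧ 8 * (y + 2) ≤ c₁ * Real.exp y ∧ C * (y + 2) * (y + 3) ≤ Real.exp y ∧
    (y + 2) ^ 2 ≤ Real.exp y ∧ ∀ m : ℕ, y ≤ m → 4 * C * (m + 1) * Real.log (m + 2) / c₁ ≤ 2 ^ m := by
  have ht : ∀ n : ℕ, Tendsto (fun x : ℝ => x ^ n / Real.exp x) atTop (nhds 0) := fun n =>
    Real.tendsto_pow_mul_exp_neg_atTop_nhds_zero n |>.congr fun x => by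
      rw [Real.exp_neg, div_eq_mul_inv]
  have key : ∀ (K : ℝ) (n : ℕ), 0 < K → ∀ᶠ x : ℝ in atTop, K * x ^ n ≤ Real.exp x := by
    intro K n hK
    have h1 : ∀ᶠ x : ℝ in atTop, x ^ n / Real.exp x < 1 / K :=
      (ht n).eventually (gt_mem_nhds (by positivity))
    filter_upwards [h1] with x hx
    rw [div_lt_div_iff₀ (Real.exp_pos _) hK] at hx
    linarith
  have hm : ∀ᶠ m : ℕ in atTop, 4 * C * (m + 1) * Real.log (m + 2) / c₁ ≤ 2 ^ m := by
    have h1 : Tendsto (fun m : ℕ => ((m : ℝ)) ^ 2 / 2 ^ m) atTop (nhds 0) := by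
      have := tendsto_pow_const_div_const_pow_of_one_lt 2 (r := 2) (by norm_num)
      exact this
    have h2 : ∀ᶠ m : ℕ in atTop, ((m : ℝ)) ^ 2 / 2 ^ m < c₁ / (32 * C) :=
      h1.eventually (gt_mem_nhds (by positivity))
    filter_upwards [h2, eventually_ge_atTop 2] with m hm hm2
    have hm2' : (2 : ℝ) ≤ m := by exact_mod_cast hm2
    rw [div_lt_div_iff₀ (by positivity) (by positivity)] at hm
    rw [div_le_iff₀ hc₁]
    have h3 : Real.log (m + 2) ≤ m + 1 := by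
      have := Real.log_le_sub_one_of_pos (x := (m : ℝ) + 2) (by positivity)
      linarith
    have h4 : 4 * C * (m + 1) * Real.log (m + 2) ≤ 4 * C * (m + 1) * (m + 1) :=
      mul_le_mul_of_nonneg_left h3 (by positivity)
    have h5 : 4 * C * (m + 1) * ((m : ℝ) + 1) ≤ 4 * C * (8 * (m : ℝ) ^ 2) := by
      have : ((m : ℝ) + 1) * (m + 1) ≤ 8 * (m : ℝ) ^ 2 := by nlinarith
      have h6 : (0:ℝ) ≤ 4 * C := by positivity
      nlinarith
    nlinarith
  obtain ⟨M, hM⟩ := eventually_atTop.1 hm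
  have e1 := key (8 * 3 / c₁) 1 (by positivity)
  have e2 := key (C * 6) 2 (by positivity)
  have e3 := key 9 2 (by norm_num)
  have hall := (((e1.and e2).and e3).and (eventually_ge_atTop (3 : ℝ))).and (eventually_ge_atTop (M : ℝ))
  obtain ⟨Y, hY⟩ := eventually_atTop.1 hall
  refine ⟨Y, fun y hy => ?_⟩
  obtain ⟨⟨⟨⟨h1, h2⟩, h3⟩, h4⟩, h5⟩ := hY y hy
  refine ⟨h4, ?_, ?_, ?_, ?_⟩
  · have : 8 * (y + 2) ≤ c₁ * (8 * 3 / c₁ * y ^ 1) := by
      field_simp
      linarith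
    exact this.trans (mul_le_mul_of_nonneg_left h1 hc₁.le)
  · have : C * (y + 2) * (y + 3) ≤ C * 6 * y ^ 2 := by
      have h6 : (y + 2) * (y + 3) ≤ 6 * y ^ 2 := by nlinarith
      nlinarith
    exact this.trans h2
  · have : (y + 2) ^ 2 ≤ 9 * y ^ 2 := by nlinarith
    exact this.trans h3
  · intro m hmy
    exact hM m (by exact_mod_cast h5.trans hmy)

theorem block_sumset (b : ℕ) (c₁ : ℝ) (hc₁ : 0 < c₁) : ∃ c : ℝ, 0 < c ∧ ∀ᶠ H : ℕ in atTop,
    ∀ (u : ℕ) (A B : Finset ℕ), A ⊆ Ioc u (u + H) → (∀ p ∈ B, p.Prime ∧ p ≤ H) →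
    c₁ * H / (Real.log H) ^ (b + 1) ≤ B.card → (Real.log H) ^ (b + 2) ≤ A.card →
    c * H / ((Real.log H) ^ b * (Real.log (Real.log H)) ^ 2 *
        Real.log (Real.log (Real.log H))) ≤
      ((image₂ (fun q p => q + p) A B).card : ℝ) := by
  obtain ⟨C, hC, hsieve⟩ := tuple_sieve
  obtain ⟨E, hE, hES⟩ := ES_le
  obtain ⟨Y, hY⟩ := bs_ev hc₁ hC
  refine ⟨c₁ / (128 * Real.exp b * E * C), by positivity, ?_⟩
  have hlim : Tendsto (fun H : ℕ => Real.log (Real.log H)) atTop atTop :=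
    Real.tendsto_log_atTop.comp (Real.tendsto_log_atTop.comp tendsto_natCast_atTop_atTop)
  filter_upwards [hlim.eventually (eventually_ge_atTop Y), eventually_ge_atTop 3] with H hHY hH3
  intro u A B hA hB hBc hAc
  set ℓ := Real.log H with hℓdef
  set y := Real.log ℓ with hydef
  obtain ⟨y3, q1, q2, q3, q4⟩ := hY y hHY
  have hH0 : (0 : ℝ) < H := by exact_mod_cast (by omega : 0 < H)
  have hH1 : (1 : ℝ) ≤ H := by exact_mod_cast (by omega : 1 ≤ H)
  have hℓ0 : 0 < ℓ := Real.log_pos (by exact_mod_cast (by omega : 1 < H))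
  have hexp : Real.exp y = ℓ := Real.exp_log hℓ0
  rw [hexp] at q1 q2 q3
  have hy0 : 0 < y := by linarith
  have hℓ4 : 4 ≤ ℓ := by nlinarith
  set m := ⌈y⌉₊ with hm
  have hm1 : y ≤ m := Nat.le_ceil y
  have hm2 : (m : ℝ) < y + 1 := Nat.ceil_lt_add_one hy0.le
  have hmpos : 1 ≤ m := by
    have : (3 : ℝ) ≤ m := y3.trans hm1
    exact_mod_cast (by linarith : (1 : ℝ) ≤ m)
  set t := m + 1 with ht
  have htr : (t : ℝ) = m + 1 := by rw [ht]; push_cast; ring
  have ht2 : (t : ℝ) ≤ y + 2 := by rw [htr]; linarith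
  have ht0 : (0 : ℝ) < t := by rw [htr]; positivity
  have hlogt : 0 < Real.log (t + 1) := Real.log_pos (by linarith)
  have hlogt2 : Real.log (t + 1) ≤ y + 3 := by
    have := Real.log_le_sub_one_of_pos (x := (t : ℝ) + 1) (by positivity)
    linarith
  -- sieve hypotheses
  have hCt : C * t * Real.log (t + 1) ≤ ℓ := by
    have h1 : C * t * Real.log (t + 1) ≤ C * (y + 2) * (y + 3) :=
      mul_le_mul (mul_le_mul_of_nonneg_left ht2 (by linarith)) hlogt2 hlogt.le (by positivity)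
    exact h1.trans q2
  have hlogH : ℓ ≤ Real.log ((H + 1 : ℕ) : ℝ) := by
    push_cast
    exact Real.log_le_log hH0 (by linarith)
  set X := image₂ (fun q p => q + p) A B with hX
  have hXc : (X.card : ℝ) ≤ 2 * H := by exact_mod_cast bs_card H u A B hA hB
  set M : ℝ := 2 * H * (C * t * Real.log (t + 1) / ℓ) ^ t * (2 * E * y) ^ (t - 1) with hM
  have hM0 : 0 ≤ M := by
    have : 0 ≤ C := by linarith
    have : 0 ≤ E := by linarith
    positivity
  have hAne : A.Nonempty := by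
    rw [← Finset.card_pos]
    have : (0 : ℝ) < A.card := lt_of_lt_of_le (by positivity) hAc
    exact_mod_cast this
  have hmom := sumset_moment A B (fun p => p.Prime ∧ p ≤ H) hAne hB t (by omega) M hM0 ?_ ?_
  · -- conclusion
    have hℓb : ℓ ^ b ≤ (Real.exp b) ^ (t - 1) := by
      have : t - 1 = m := by omega
      rw [this, ← hexp, ← Real.exp_nat_mul, ← Real.exp_nat_mul]
      refine Real.exp_le_exp.2 ?_
      have hb : (0 : ℝ) ≤ b := Nat.cast_nonneg b
      nlinarith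
    have hz : 4 * C * t * Real.log (t + 1) / c₁ ≤ 2 ^ (t - 1) := by
      have h1 := q4 m hm1
      have : t - 1 = m := by omega
      rw [this, htr]
      have e : (m : ℝ) + 1 + 1 = m + 2 := by ring
      rw [e]; exact h1
    have hfin := bs_real b t (by omega) hc₁ hC hE hH0 hℓ0 hy0 hlogt (Nat.cast_nonneg X.card) hℓb hz hBc hmom
    have hly : 0 < Real.log y := Real.log_pos (by linarith)
    have hden : 0 < ℓ ^ b * y ^ 2 * Real.log y := by positivity
    rw [div_le_iff₀ hden]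
    have h2y : (t : ℝ) ≤ 2 * y := by linarith
    have hl2 : Real.log (t + 1) ≤ 2 * Real.log y := by
      have h1 : (t : ℝ) + 1 ≤ y ^ 2 := by nlinarith
      have h2 := Real.log_le_log (by positivity) h1
      rw [Real.log_pow] at h2
      push_cast at h2
      exact h2
    have hCE : 0 < 128 * Real.exp b * E * C := by
      have : 0 < C := by linarith
      have : 0 < E := by linarith
      positivity
    have h5 : 4 * C * t * Real.log (t + 1) / c₁ ≤ 16 * C * y * Real.log y / c₁ := by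
      refine div_le_div_of_nonneg_right ?_ hc₁.le
      have h6 : (t : ℝ) * Real.log (t + 1) ≤ (2 * y) * (2 * Real.log y) :=
        mul_le_mul h2y hl2 hlogt.le (by positivity)
      nlinarith
    have h7 : (H : ℝ) ≤ 8 * Real.exp b * E * (16 * C * y * Real.log y / c₁) * ℓ ^ b * y * X.card := by
      refine hfin.trans ?_
      have h8 : 0 ≤ 8 * Real.exp b * E := by
        have : 0 < E := by linarith
        positivity
      have h9 := mul_le_mul_of_nonneg_left h5 h8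
      have h10 := mul_le_mul_of_nonneg_right h9 (by positivity : 0 ≤ ℓ ^ b)
      have h11 := mul_le_mul_of_nonneg_right h10 hy0.le
      exact mul_le_mul_of_nonneg_right h11 (Nat.cast_nonneg _)
    calc c₁ / (128 * Real.exp b * E * C) * H
        ≤ c₁ / (128 * Real.exp b * E * C)
          * (8 * Real.exp b * E * (16 * C * y * Real.log y / c₁) * ℓ ^ b * y * X.card) :=
          mul_le_mul_of_nonneg_left h7 (by positivity)
      _ = X.card * (ℓ ^ b * y ^ 2 * Real.log y) := by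
          have h12 : C ≠ 0 := by linarith
          have h13 : E ≠ 0 := by linarith
          have h14 : Real.exp b ≠ 0 := (Real.exp_pos _).ne'
          field_simp
          ring
  · -- the sieve bound
    intro S hSA hSt
    obtain ⟨S', hS't, hS'H, hcard⟩ := bs_shift H u t A B S hA hSA hSt (by omega)
    have hS'ne : S'.Nonempty := Finset.card_pos.1 (by omega)
    have h1 := hsieve S' hS'ne (H + 1) (by rw [hS't]; exact hCt.trans hlogH)
    rw [hS't] at h1
    have h2 : ES (dset S') ≤ 2 * E * y := by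
      have h3 := sum_log_dset S' H (by omega) hS'H
      rw [hS't] at h3
      have h4 : (t : ℝ) ^ 2 * Real.log H ≤ ℓ ^ 2 := by
        have h5 : (t : ℝ) ^ 2 ≤ ℓ := by
          refine le_trans ?_ q3
          exact pow_le_pow_left₀ ht0.le ht2 2
        calc (t : ℝ) ^ 2 * Real.log H ≤ ℓ * ℓ := mul_le_mul_of_nonneg_right h5 hℓ0.le
          _ = ℓ ^ 2 := by ring
      have h6 := hES (dset S') (fun p hp => Nat.prime_of_mem_primeFactors hp) (ℓ ^ 2) (by nlinarith)
        (h3.trans h4)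
      rw [Real.log_pow] at h6
      push_cast at h6
      linarith
    have hES0 : 0 ≤ ES (dset S') := (Real.exp_pos _).le
    have h3 : (C * t * Real.log (t + 1) / Real.log ((H + 1 : ℕ) : ℝ)) ^ t
        ≤ (C * t * Real.log (t + 1) / ℓ) ^ t := by
      have hnum : 0 ≤ C * t * Real.log (t + 1) := by
        have : 0 < C := by linarith
        positivity
      refine pow_le_pow_left₀ (div_nonneg hnum (hℓ0.le.trans hlogH)) ?_ t
      exact div_le_div_of_nonneg_left hnum hℓ0 hlogH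
    have h4 : ES (dset S') ^ (t - 1) ≤ (2 * E * y) ^ (t - 1) := pow_le_pow_left₀ hES0 h2 _
    have h5 : (((H + 1 : ℕ)) : ℝ) ≤ 2 * H := by push_cast; linarith
    calc (((X.filter fun x => ∀ q ∈ S, q ≤ x ∧ ((x - q).Prime ∧ x - q ≤ H)).card : ℕ) : ℝ)
        ≤ (((range (H + 1)).filter fun n => ∀ h ∈ S', (n + h).Prime).card : ℝ) := by
          exact_mod_cast hcard
      _ ≤ _ := h1
      _ ≤ M := by
          have hnn : 0 ≤ (C * t * Real.log (t + 1) / ℓ) ^ t := by
            have : 0 < C := by linarith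
            positivity
          exact mul_le_mul (mul_le_mul h5 h3 (by
            have : 0 < C := by linarith
            have : 0 < Real.log ((H + 1 : ℕ) : ℝ) := hℓ0.trans_le hlogH
            positivity) (by positivity)) h4 (pow_nonneg hES0 _) (by positivity)
  · -- hbig
    have h1 : 8 * (t : ℝ) ≤ c₁ * ℓ := le_trans (by linarith) q1
    have h2 : c₁ * H * ℓ ≤ A.card * B.card := by
      calc c₁ * H * ℓ = ℓ ^ (b + 2) * (c₁ * H / ℓ ^ (b + 1)) := by
            have : ℓ ^ (b + 2) = ℓ ^ (b + 1) * ℓ := by ring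
            rw [this]; field_simp
        _ ≤ A.card * B.card := mul_le_mul hAc hBc (by positivity) (Nat.cast_nonneg _)
    calc 4 * (t : ℝ) * (X.card : ℝ) ≤ 4 * t * (2 * H) := mul_le_mul_of_nonneg_left hXc (by positivity)
      _ = 8 * t * H := by ring
      _ ≤ c₁ * ℓ * H := mul_le_mul_of_nonneg_right h1 hH0.le
      _ = c₁ * H * ℓ := by ring
      _ ≤ _ := h2

end Pool.Agent.Lib.MP_e3f158_nt.D2
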