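import Pool.Agent.Lib.MP_e3f158_nt.Iter

/-!
# MP_e3f158_nt, sharper density theorems: definitions
-/

namespace Pool.Agent.Lib.MP_e3f158_nt.D2

open Finset

/-- `exp (∑_{p ∈ D} 1/p)` for a finite set of primes `D`. -/
noncomputable def ES (D : Finset ℕ) : ℝ := Real.exp (∑ p ∈ D, (1 : ℝ) / p)

/-- The primes dividing the difference of two distinct elements of `S`. -/
def dset (S : Finset ℕ) : Finset ℕ := (∏ x ∈ S.offDiag, Nat.dist x.1 x.2).primeFactors

/-- The discrepancy of the multiples of `e` in `(m, m + H]`. -/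
noncomputable def psi (H e m : ℕ) : ℝ :=
  (((Ioc 0 H).filter fun h => e ∣ m + h).card : ℝ) - (H : ℝ) / e

/-- A positive proportion of the blocks of length `H` is hit by the set of the numbers
`pr^[R] x`, for all `H` between a power of `log N` and `√N / 2`. -/
def HitP (R : ℕ) : Prop := ∃ c : ℝ, 0 < c ∧ ∃ K : ℕ, ∀ᶠ N : ℕ in Filter.atTop, ∀ H : ℕ, 1 ≤ H →
    (Real.log N) ^ K ≤ H → 4 * (H : ℝ) ^ 2 ≤ N →
    c * N / H ≤
      (((range (N / H)).filter fun i => pic R (i * H) < pic R ((i + 1) * H)).card : ℝ)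

end Pool.Agent.Lib.MP_e3f158_nt.D2
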