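import Pool.Agent.Lib.MP_e3f158_nt.D2.Hit

/-!
# Blocks with many iterated primes

PROOF. Let `c₀, K` be as in `hit R` (`c₀ ≤ 1` may be assumed: decrease it), `L = log N`,
`H₁ = ⌈L^K⌉₊`, `M = ⌈L⌉₊`, `H = M * H₁`; for large `N`: `L^(K+1) ≤ H ≤ 4 L^(K+1) ≤ L^(K+2)`.
Apply `hit R` with `H₁`: at least `c₀ N / H₁` small blocks `j < N / H₁` are hit
(`pic R (j H₁) < pic R ((j+1) H₁)`). Let `n = N / H` (floor). At most `M` of the `j < N/H₁` are
`≥ n M`. The big block `i < n` is the union of the small blocks `i M ≤ j < (i+1) M`, and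
`pic R ((i+1)H) - pic R (iH) = ∑_j (pic R ((j+1)H₁) - pic R (j H₁)) ≥ h_i :=` number of hit small
blocks in it (monotone telescoping, `pic_mono`). `∑_i h_i ≥ c₀ N / H₁ - M`, `h_i ≤ M`. Let `G` be the set of
`i < n` with `h_i ≥ (c₀/2) M`. Then `c₀ N / H₁ - M ≤ |G| M + n (c₀/2) M`, so
`|G| ≥ c₀ N / H - 1 - (c₀/2) N / H ≥ (c₀/4) N / H` for large `N`. For `i ∈ G`:
`pic R ((i+1)H) - pic R (iH) ≥ (c₀/2) M ≥ (c₀/4) L`. Take `c = c₀/4`.
-/

namespace Pool.Agent.Lib.MP_e3f158_nt.D2

open Finset Filter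

theorem dense_aux1 (f : ℕ → ℕ) (hf : Monotone f) (a b : ℕ) (hab : a ≤ b) :
    ((Ico a b).filter fun j => f j < f (j + 1)).card + f a ≤ f b := by
  induction b, hab using Nat.le_induction with
  | base => simp
  | succ b hab ih =>
    have h1 : Ico a (b + 1) = insert b (Ico a b) := by
      ext x
      simp only [mem_Ico, mem_insert]
      omega
    rw [h1, filter_insert]
    have h2 : f b ≤ f (b + 1) := hf (Nat.le_succ b)
    split_ifs with h3
    · have h4 := card_insert_le b ((Ico a b).filter fun j => f j < f (j + 1))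
      omega
    · omega

theorem dense_aux2 (p : ℕ → Prop) [DecidablePred p] (M n : ℕ) :
    ((range (n * M)).filter p).card =
      ∑ i ∈ range n, ((Ico (i * M) ((i + 1) * M)).filter p).card := by
  induction n with
  | zero => simp
  | succ n ih =>
    rw [sum_range_succ, ← ih]
    have h1 : range ((n + 1) * M) = range (n * M) ∪ Ico (n * M) ((n + 1) * M) := by
      ext x
      simp only [mem_range, mem_union, mem_Ico]
      have : n * M ≤ (n + 1) * M := Nat.mul_le_mul_right M (Nat.le_succ n)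
      omega
    have h2 : Disjoint (range (n * M)) (Ico (n * M) ((n + 1) * M)) := by
      rw [disjoint_left]
      intro x hx hx'
      rw [mem_range] at hx
      rw [mem_Ico] at hx'
      omega
    rw [h1, filter_union, card_union_of_disjoint (disjoint_filter_filter h2)]

theorem dense_ev (k : ℕ) (c : ℝ) (hc : 0 < c) :
    ∀ᶠ N : ℕ in atTop, (Real.log N) ^ k ≤ c * N := by
  have h1 := ((Real.isLittleO_pow_log_id_atTop (n := k)).comp_tendsto
    tendsto_natCast_atTop_atTop).bound hc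
  filter_upwards [h1] with N hN
  simp only [Function.comp_apply, id_eq, Real.norm_eq_abs, Nat.abs_cast] at hN
  exact le_trans (le_abs_self _) hN

theorem dense (R : ℕ) : ∃ c : ℝ, 0 < c ∧ ∃ K : ℕ, ∀ᶠ N : ℕ in atTop, ∃ H : ℕ,
    (Real.log N) ^ (K + 1) ≤ H ∧ (H : ℝ) ≤ (Real.log N) ^ (K + 2) ∧
    c * N / H ≤ (((range (N / H)).filter fun i =>
      c * Real.log N ≤ ((pic R ((i + 1) * H) - pic R (i * H) : ℕ) : ℝ)).card : ℝ) := by
  obtain ⟨c₀, hc₀, K, hK⟩ := hit R
  set c₁ : ℝ := min c₀ 1 with hc₁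
  have hc₁0 : 0 < c₁ := lt_min hc₀ one_pos
  have hc₁1 : c₁ ≤ 1 := min_le_right _ _
  have hc₁' : c₁ ≤ c₀ := min_le_left _ _
  refine ⟨c₁ / 4, by positivity, K, ?_⟩
  have hlog : ∀ᶠ N : ℕ in atTop, (4 : ℝ) ≤ Real.log N :=
    (Real.tendsto_log_atTop.comp tendsto_natCast_atTop_atTop).eventually_ge_atTop 4
  filter_upwards [hK, hlog, dense_ev (2 * K) (1 / 16) (by norm_num),
    dense_ev (K + 2) (c₁ / 2) (by positivity)] with N hN hL h2K hK2
  set L := Real.log N with hLdef
  have hLK1 : 1 ≤ L ^ K := one_le_pow₀ (by linarith)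
  set H₁ : ℕ := ⌈L ^ K⌉₊ with hH₁
  set M : ℕ := ⌈L⌉₊ with hM
  have a1 : L ^ K ≤ H₁ := Nat.le_ceil _
  have a2 : (H₁ : ℝ) ≤ 2 * L ^ K := by
    have := Nat.ceil_lt_add_one (a := L ^ K) (by positivity)
    linarith
  have a3 : L ≤ M := Nat.le_ceil _
  have a4 : (M : ℝ) ≤ 2 * L := by
    have := Nat.ceil_lt_add_one (a := L) (by linarith)
    linarith
  have hH₁1 : 1 ≤ H₁ := by
    have : (1 : ℝ) ≤ H₁ := le_trans hLK1 a1
    exact_mod_cast this
  have hM1 : 1 ≤ M := by
    have : (1 : ℝ) ≤ M := by linarith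
    exact_mod_cast this
  have hH₁p : (0 : ℝ) < H₁ := by exact_mod_cast hH₁1
  have hMp : (0 : ℝ) < M := by exact_mod_cast hM1
  have hcast : ((M * H₁ : ℕ) : ℝ) = M * H₁ := by push_cast; ring
  have b1 : L ^ (K + 1) ≤ ((M * H₁ : ℕ) : ℝ) := by
    rw [hcast, pow_succ, mul_comm]
    exact mul_le_mul a3 a1 (by positivity) (by positivity)
  have b2 : ((M * H₁ : ℕ) : ℝ) ≤ L ^ (K + 2) := by
    rw [hcast]
    calc (M : ℝ) * H₁ ≤ (2 * L) * (2 * L ^ K) := mul_le_mul a4 a2 (by positivity) (by positivity)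
      _ = 4 * L ^ (K + 1) := by ring
      _ ≤ L * L ^ (K + 1) := by
          refine mul_le_mul_of_nonneg_right hL (by positivity)
      _ = L ^ (K + 2) := by ring
  refine ⟨M * H₁, b1, b2, ?_⟩
  have hN0 : (0 : ℝ) < N := by
    have : (0 : ℝ) < L ^ (K + 2) := by positivity
    nlinarith
  have h4 : 4 * (H₁ : ℝ) ^ 2 ≤ N := by
    have h5 : (H₁ : ℝ) ^ 2 ≤ (2 * L ^ K) ^ 2 := pow_le_pow_left₀ (by positivity) a2 2
    have h6 : (2 * L ^ K) ^ 2 = 4 * L ^ (2 * K) := by ring
    rw [h6] at h5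
    linarith
  have hS := hN H₁ hH₁1 a1 h4
  set f : ℕ → ℕ := fun j => pic R (j * H₁) with hf
  have hfm : Monotone f := fun a b hab => pic_mono R (Nat.mul_le_mul_right H₁ hab)
  set n : ℕ := N / (M * H₁) with hn
  have hHpos : 0 < M * H₁ := Nat.mul_pos hM1 hH₁1
  have c1' : N / H₁ ≤ n * M + M := by
    have h5 : N < (n + 1) * (M * H₁) := by
      have := Nat.lt_div_mul_add (a := N) hHpos
      rw [← hn] at this
      linarith
    have h6 : N / H₁ < (n + 1) * M := by
      rw [Nat.div_lt_iff_lt_mul hH₁1, mul_assoc]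
      exact h5
    have : (n + 1) * M = n * M + M := by ring
    omega
  have hSS : ((range (N / H₁)).filter fun i => f i < f (i + 1)).card ≤
      ((range (n * M)).filter fun i => f i < f (i + 1)).card + M := by
    have h5 : (range (N / H₁)).filter (fun i => f i < f (i + 1)) ⊆
        (range (n * M)).filter (fun i => f i < f (i + 1)) ∪ Ico (n * M) (n * M + M) := by
      intro x hx
      rw [mem_filter, mem_range] at hx
      rw [mem_union, mem_filter, mem_range, mem_Ico]
      by_cases hx' : x < n * M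
      · exact Or.inl ⟨hx', hx.2⟩
      · exact Or.inr ⟨by omega, by omega⟩
    calc _ ≤ _ := card_le_card h5
      _ ≤ _ := card_union_le _ _
      _ = _ := by rw [Nat.card_Ico]; omega
  set g : ℕ → ℕ := fun i => ((Ico (i * M) ((i + 1) * M)).filter fun j => f j < f (j + 1)).card
    with hg
  have hsum := dense_aux2 (fun j => f j < f (j + 1)) M n
  have hgM : ∀ i, g i ≤ M := by
    intro i
    refine le_trans (card_filter_le _ _) ?_
    rw [Nat.card_Ico]
    have : (i + 1) * M = i * M + M := by ring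
    omega
  have hgd : ∀ i, g i ≤ pic R ((i + 1) * (M * H₁)) - pic R (i * (M * H₁)) := by
    intro i
    have h5 := dense_aux1 f hfm (i * M) ((i + 1) * M) (Nat.mul_le_mul_right M (Nat.le_succ i))
    simp only [hf] at h5
    rw [mul_assoc i M H₁, mul_assoc (i + 1) M H₁] at h5
    have h6 : g i + pic R (i * (M * H₁)) ≤ pic R ((i + 1) * (M * H₁)) := h5
    omega
  set G := (range n).filter fun i =>
      c₁ / 4 * L ≤ ((pic R ((i + 1) * (M * H₁)) - pic R (i * (M * H₁)) : ℕ) : ℝ) with hG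
  have hle : (∑ i ∈ range n, (g i : ℝ)) ≤ G.card * M + n * (c₁ / 4 * M) := by
    have h5 : ∀ i ∈ range n, (g i : ℝ) ≤ (if c₁ / 4 * L ≤
        ((pic R ((i + 1) * (M * H₁)) - pic R (i * (M * H₁)) : ℕ) : ℝ) then (M : ℝ) else 0) +
        c₁ / 4 * M := by
      intro i _
      have h6 : (g i : ℝ) ≤ M := by exact_mod_cast hgM i
      have h7 : (g i : ℝ) ≤ ((pic R ((i + 1) * (M * H₁)) - pic R (i * (M * H₁)) : ℕ) : ℝ) := by
        exact_mod_cast hgd i
      have h8 : c₁ / 4 * L ≤ c₁ / 4 * M := mul_le_mul_of_nonneg_left a3 (by positivity)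
      split_ifs with h9
      · have : 0 ≤ c₁ / 4 * M := by positivity
        linarith
      · push Not at h9
        linarith
    calc (∑ i ∈ range n, (g i : ℝ)) ≤ _ := sum_le_sum h5
      _ = _ := by
        rw [sum_add_distrib, ← sum_filter, sum_const, sum_const, card_range, nsmul_eq_mul,
          nsmul_eq_mul]
  have hfin : c₁ * N / H₁ ≤ G.card * M + n * (c₁ / 4 * M) + M := by
    have h5 : c₁ * N / H₁ ≤ c₀ * N / H₁ := by
      refine div_le_div_of_nonneg_right (mul_le_mul_of_nonneg_right hc₁' hN0.le) hH₁p.le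
    have h6 : ((((range (N / H₁)).filter fun i => f i < f (i + 1)).card : ℕ) : ℝ) ≤
        ((((range (n * M)).filter fun i => f i < f (i + 1)).card : ℕ) : ℝ) + M := by
      exact_mod_cast hSS
    have h7 : ((((range (n * M)).filter fun i => f i < f (i + 1)).card : ℕ) : ℝ) =
        ∑ i ∈ range n, (g i : ℝ) := by
      rw [hsum]
      push_cast
      rfl
    have h8 : c₀ * N / H₁ ≤
        ((((range (N / H₁)).filter fun i => f i < f (i + 1)).card : ℕ) : ℝ) := hS
    linarith
  have hn' : (n : ℝ) ≤ N / (M * H₁) := by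
    have := @Nat.cast_div_le ℝ _ _ _ N (M * H₁)
    rw [hcast] at this
    exact this
  have hdiv : c₁ * N / (M * H₁) ≤ G.card + n * (c₁ / 4) + 1 := by
    have h5 : c₁ * N / (M * H₁) = (c₁ * N / H₁) / M := by
      field_simp
    rw [h5, div_le_iff₀ hMp]
    linarith
  have hone : 1 ≤ c₁ / 2 * (N / (M * H₁)) := by
    rw [← mul_div_assoc, le_div_iff₀ (by positivity), one_mul, ← hcast]
    exact le_trans b2 hK2
  have hfin2 : c₁ / 4 * N / ((M * H₁ : ℕ) : ℝ) ≤ G.card := by
    rw [hcast, mul_div_assoc]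
    have h5 : n * (c₁ / 4) ≤ N / (M * H₁) * (c₁ / 4) :=
      mul_le_mul_of_nonneg_right hn' (by positivity)
    rw [mul_div_assoc] at hdiv
    have h6 : 0 ≤ N / (M * H₁ : ℝ) := by positivity
    nlinarith
  exact hfin2

end Pool.Agent.Lib.MP_e3f158_nt.D2
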