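import Pool.Agent.Lib.MP_e3f158_nt.D2.Dense
import Pool.Agent.Lib.MP_e3f158_nt.D2.BlockSum

/-!
# Density of the even integers of type `(a, b)`: large `a`-primes and small `b`-primes
-/

namespace Pool.Agent.Lib.MP_e3f158_nt.D2

open Finset Filter

/-- the numbers `pr^[R] z` in `(u, v]` -/
private noncomputable def finalA_A (R u v : ℕ) : Finset ℕ :=
  (Ioc (pic R u) (pic R v)).image fun z => pr^[R] z

private theorem finalA_inj (R u v : ℕ) :
    Set.InjOn (fun z => pr^[R] z) ((Ioc (pic R u) (pic R v) : Finset ℕ) : Set ℕ) := by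
  intro z hz z' hz' h
  rw [mem_coe, mem_Ioc] at hz hz'
  rcases lt_trichotomy z z' with h1 | h1 | h1
  · have := iter_strictMono R z z' (by omega) h1
    simp only at h
    omega
  · exact h1
  · have := iter_strictMono R z' z (by omega) h1
    simp only at h
    omega

private theorem finalA_card (R u v : ℕ) : (finalA_A R u v).card = pic R v - pic R u := by
  unfold finalA_A
  rw [card_image_of_injOn (finalA_inj R u v), Nat.card_Ioc]

private theorem finalA_mem {R u v q : ℕ} (hq : q ∈ finalA_A R u v) :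
    ∃ z, 1 ≤ z ∧ pr^[R] z = q ∧ u < q ∧ q ≤ v := by
  unfold finalA_A at hq
  rw [mem_image] at hq
  obtain ⟨z, hz, rfl⟩ := hq
  rw [mem_Ioc] at hz
  refine ⟨z, by omega, rfl, ?_, ?_⟩
  · by_contra h
    have := (iter_le_iff R z u (by omega)).1 (not_lt.1 h)
    omega
  · exact (iter_le_iff R z v (by omega)).2 hz.2

private noncomputable def finalA_B (b H : ℕ) : Finset ℕ :=
  (Ioc 1 (pic (b + 1) H)).image fun z => ipr b z

private theorem finalA_Bcard (b H : ℕ) : (finalA_B b H).card = pic (b + 1) H - 1 := by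
  unfold finalA_B
  rw [card_image_of_injOn, Nat.card_Ioc]
  intro z hz z' hz' h
  rw [mem_coe, mem_Ioc] at hz hz'
  have h' : pr^[b + 1] z = pr^[b + 1] z' := h
  rcases lt_trichotomy z z' with h1 | h1 | h1
  · have := iter_strictMono (b + 1) z z' (by omega) h1
    omega
  · exact h1
  · have := iter_strictMono (b + 1) z' z (by omega) h1
    omega

private theorem finalA_Bmem {b H p : ℕ} (hp : p ∈ finalA_B b H) :
    ∃ z, 1 ≤ z ∧ ipr b z = p ∧ p.Prime ∧ 3 ≤ p ∧ p ≤ H := by
  unfold finalA_B at hp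
  rw [mem_image] at hp
  obtain ⟨z, hz, rfl⟩ := hp
  rw [mem_Ioc] at hz
  refine ⟨z, by omega, rfl, ipr_prime b z, ?_, ?_⟩
  · have h1 : ipr b 1 < ipr b z := iter_strictMono (b + 1) 1 z (le_refl _) (by omega)
    have h2 := (ipr_prime b 1).two_le
    omega
  · exact (iter_le_iff (b + 1) z H (by omega)).2 hz.2

open Classical in
private theorem finalA_class (a b N H n c : ℕ) (hn : n * H ≤ N) (W : ℝ) (G : Finset ℕ)
    (hG : ∀ i ∈ G, 1 ≤ i ∧ i + 2 ≤ n ∧ i % 2 = c)
    (hW : ∀ i ∈ G, W ≤ ((image₂ (fun q p => q + p) (finalA_A (a + 1) (i * H) ((i + 1) * H))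
      (finalA_B b H)).card : ℝ)) :
    (G.card : ℝ) * W ≤ (((Icc 1 N).filter fun m => Even m ∧ HasRep a b m).card : ℝ) := by
  have hloc : ∀ i ∈ G, ∀ m ∈ image₂ (fun q p => q + p) (finalA_A (a + 1) (i * H) ((i + 1) * H))
      (finalA_B b H), i * H < m ∧ m ≤ (i + 2) * H ∧ Even m ∧ HasRep a b m := by
    intro i hi m hm
    rw [mem_image₂] at hm
    obtain ⟨q, hq, p, hp, rfl⟩ := hm
    obtain ⟨z, hz1, hz2, hz3, hz4⟩ := finalA_mem hq
    obtain ⟨y, hy1, hy2, hy3, hy4, hy5⟩ := finalA_Bmem hp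
    obtain ⟨hi1, hi2, hi3⟩ := hG i hi
    have h6 : 1 * H ≤ i * H := Nat.mul_le_mul_right _ hi1
    have h8 : (i + 2) * H = (i + 1) * H + H := by ring
    have hqp : q.Prime := by
      rw [← hz2]
      exact ipr_prime a z
    refine ⟨by omega, by omega, ?_, ?_⟩
    · exact (odd_of_prime_gt hqp (by omega)).add_odd (odd_of_prime_gt hy3 (by omega))
    · refine ⟨z, y, hz1, hy1, ?_, ?_⟩
      · rw [hy2]
        change pr^[a + 1] z + p = q + p
        rw [hz2]
      · rw [hy2]
        change pr^[a + 1] z ≠ p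
        rw [hz2]
        omega
  have hdisj : ∀ i ∈ G, ∀ j ∈ G, i ≠ j →
      Disjoint (image₂ (fun q p => q + p) (finalA_A (a + 1) (i * H) ((i + 1) * H)) (finalA_B b H))
        (image₂ (fun q p => q + p) (finalA_A (a + 1) (j * H) ((j + 1) * H)) (finalA_B b H)) := by
    intro i hi j hj hij
    rw [Finset.disjoint_left]
    intro m hm hm'
    obtain ⟨h1, h2, _, _⟩ := hloc i hi m hm
    obtain ⟨h1', h2', _, _⟩ := hloc j hj m hm'
    have hci := (hG i hi).2.2
    have hcj := (hG j hj).2.2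
    rcases lt_or_gt_of_ne hij with h | h
    · have h6 : (i + 2) * H ≤ j * H := Nat.mul_le_mul_right _ (by omega)
      omega
    · have h6 : (j + 2) * H ≤ i * H := Nat.mul_le_mul_right _ (by omega)
      omega
  have hsub : (G.biUnion fun i => image₂ (fun q p => q + p)
      (finalA_A (a + 1) (i * H) ((i + 1) * H)) (finalA_B b H)) ⊆
      (Icc 1 N).filter fun m => Even m ∧ HasRep a b m := by
    intro m hm
    rw [mem_biUnion] at hm
    obtain ⟨i, hi, hm⟩ := hm
    obtain ⟨h1, h2, h3, h4⟩ := hloc i hi m hm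
    have h5 : (i + 2) * H ≤ n * H := Nat.mul_le_mul_right _ (hG i hi).2.1
    rw [mem_filter, mem_Icc]
    exact ⟨⟨by omega, by omega⟩, h3, h4⟩
  have h1 := card_le_card hsub
  rw [card_biUnion hdisj] at h1
  have h2 : (G.card : ℝ) * W ≤ ∑ i ∈ G, ((image₂ (fun q p => q + p)
      (finalA_A (a + 1) (i * H) ((i + 1) * H)) (finalA_B b H)).card : ℝ) := by
    rw [← nsmul_eq_mul, ← sum_const]
    exact sum_le_sum hW
  refine h2.trans ?_
  exact_mod_cast h1

open Classical in
private theorem finalA_finite (a b N H n : ℕ) (hn : n * H ≤ N) (W : ℝ) (hW0 : 0 ≤ W)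
    (G : Finset ℕ) (hG : ∀ i ∈ G, i < n)
    (hW : ∀ i ∈ G, W ≤ ((image₂ (fun q p => q + p) (finalA_A (a + 1) (i * H) ((i + 1) * H))
      (finalA_B b H)).card : ℝ)) :
    ((G.card : ℝ) - 2) / 2 * W ≤
      (((Icc 1 N).filter fun m => Even m ∧ HasRep a b m).card : ℝ) := by
  have h0 := finalA_class a b N H n 0 hn W (G.filter fun i => 1 ≤ i ∧ i + 2 ≤ n ∧ i % 2 = 0)
    (fun i hi => (mem_filter.1 hi).2) (fun i hi => hW i (mem_filter.1 hi).1)
  have h1 := finalA_class a b N H n 1 hn W (G.filter fun i => 1 ≤ i ∧ i + 2 ≤ n ∧ i % 2 = 1)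
    (fun i hi => (mem_filter.1 hi).2) (fun i hi => hW i (mem_filter.1 hi).1)
  have h2 : G ⊆ ((G.filter fun i => 1 ≤ i ∧ i + 2 ≤ n ∧ i % 2 = 0) ∪
      (G.filter fun i => 1 ≤ i ∧ i + 2 ≤ n ∧ i % 2 = 1)) ∪ {0, n - 1} := by
    intro i hi
    have hin := hG i hi
    rw [mem_union, mem_union, mem_filter, mem_filter, mem_insert, mem_singleton]
    by_cases h3 : i = 0
    · right; left; exact h3
    · by_cases h4 : i = n - 1
      · right; right; exact h4
      · left
        rcases Nat.mod_two_eq_zero_or_one i with h | h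
        · left; exact ⟨hi, by omega, by omega, h⟩
        · right; exact ⟨hi, by omega, by omega, h⟩
  have h3 : G.card ≤ (G.filter fun i => 1 ≤ i ∧ i + 2 ≤ n ∧ i % 2 = 0).card +
      (G.filter fun i => 1 ≤ i ∧ i + 2 ≤ n ∧ i % 2 = 1).card + 2 := by
    refine (card_le_card h2).trans ((card_union_le _ _).trans ?_)
    refine Nat.add_le_add (card_union_le _ _) ?_
    exact (card_insert_le _ _).trans (by simp)
  have h4 : (G.card : ℝ) ≤ ((G.filter fun i => 1 ≤ i ∧ i + 2 ≤ n ∧ i % 2 = 0).card : ℝ) +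
      ((G.filter fun i => 1 ≤ i ∧ i + 2 ≤ n ∧ i % 2 = 1).card : ℝ) + 2 := by exact_mod_cast h3
  nlinarith

open Classical in
theorem mainA (a b : ℕ) : ∀ᶠ N : ℕ in atTop,
    (N : ℝ) / ((Real.log (Real.log N)) ^ b * (Real.log (Real.log (Real.log N))) ^ 3) ≤
      (((Icc 1 N).filter fun m => Even m ∧ HasRep a b m).card : ℝ) := by
  obtain ⟨c₀, hc₀, K, hdense⟩ := dense (a + 1)
  set c₁ : ℝ := 1 / (2 * 2 ^ (b + 1)) with hc₁
  have hc₁0 : 0 < c₁ := by rw [hc₁]; positivity
  obtain ⟨c₂, hc₂, hblock⟩ := block_sumset b c₁ hc₁0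
  -- eventual conditions in `H`
  have hexp : ∀ (n : ℕ) (c : ℝ), ∀ᶠ x : ℝ in atTop, c * x ^ n ≤ Real.exp x := by
    intro n c
    filter_upwards [(Real.tendsto_exp_div_pow_atTop n).eventually_ge_atTop c,
      eventually_gt_atTop 0] with x h1 h2
    rwa [le_div_iff₀ (by positivity)] at h1
  have hL : Tendsto (fun N : ℕ => Real.log N) atTop atTop :=
    Real.tendsto_log_atTop.comp tendsto_natCast_atTop_atTop
  have hx : Tendsto (fun N : ℕ => Real.log (Real.log N)) atTop atTop :=
    Real.tendsto_log_atTop.comp hL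
  have hBge : ∀ᶠ H : ℕ in atTop, c₁ * H / (Real.log H) ^ (b + 1) ≤ ((pic (b + 1) H - 1 : ℕ) : ℝ) := by
    filter_upwards [pic_ge (b + 1), hL.eventually (hexp (b + 1) (2 * 2 ^ (b + 1))),
      eventually_ge_atTop 3] with H h1 h2 h3
    have hH0 : (3 : ℝ) ≤ H := by exact_mod_cast h3
    rw [Real.exp_log (by linarith)] at h2
    have hl : 0 < Real.log H := Real.log_pos (by linarith)
    have h4 : (2 : ℝ) ≤ H / (2 * Real.log H) ^ (b + 1) := by
      rw [le_div_iff₀ (by positivity), mul_pow]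
      linarith
    have h5 : (pic (b + 1) H : ℝ) ≤ ((pic (b + 1) H - 1 : ℕ) : ℝ) + 1 := by
      have : pic (b + 1) H ≤ pic (b + 1) H - 1 + 1 := by omega
      exact_mod_cast this
    have h6 : c₁ * H / (Real.log H) ^ (b + 1) = H / (2 * Real.log H) ^ (b + 1) / 2 := by
      rw [hc₁, mul_pow]
      field_simp
    rw [h6]
    linarith
  obtain ⟨H₀, hH₀⟩ := eventually_atTop.1 (hblock.and hBge)
  have hLx : ∀ (n : ℕ) (c : ℝ), ∀ᶠ N : ℕ in atTop, c * Real.log N ^ n ≤ N := by
    intro n c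
    filter_upwards [hL.eventually (hexp n c), eventually_ge_atTop 1] with N h1 h2
    rwa [Real.exp_log (by exact_mod_cast h2)] at h1
  have hy : Tendsto (fun N : ℕ => Real.log (Real.log (Real.log N))) atTop atTop :=
    Real.tendsto_log_atTop.comp hx
  have hlogy : ∀ c : ℝ, ∀ᶠ y : ℝ in atTop, c * Real.log y ≤ y := by
    intro c
    have h1 := Real.tendsto_log_atTop.eventually (hexp 1 c)
    filter_upwards [h1, eventually_gt_atTop 0] with y hy1 hy2
    rwa [Real.exp_log hy2, pow_one] at hy1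
  filter_upwards [hdense, hL.eventually_ge_atTop (H₀ : ℝ), hL.eventually_ge_atTop 1,
    hx.eventually (hexp (b + 2) (((K : ℝ) + 2) ^ (b + 2) / c₀)),
    hLx (K + 2) (4 / c₀), hx.eventually_ge_atTop ((K : ℝ) + 2), hy.eventually_ge_atTop 2,
    hy.eventually (hlogy (32 * ((K : ℝ) + 2) ^ b / (c₀ * c₂))), hL.eventually_ge_atTop 16] with
    N hN hNH hL1 hn1 hn2 hxK hy2 hn4 hL16
  obtain ⟨H, hH1, hH2, hG⟩ := hN
  set L : ℝ := Real.log N with hLdef
  set x : ℝ := Real.log L with hxdef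
  set y : ℝ := Real.log x with hydef
  have hL0 : 0 < L := by linarith
  have hex : Real.exp x = L := Real.exp_log hL0
  have hx2 : 2 ≤ x := by
    have : (0 : ℝ) ≤ K := Nat.cast_nonneg K
    linarith
  have hx0 : 0 < x := by linarith
  have hNpos : 0 < (N : ℝ) := by
    rcases Nat.eq_zero_or_pos N with h | h
    · exfalso
      rw [hLdef, h] at hL1
      simp at hL1
      linarith
    · exact_mod_cast h
  have hLH : L ≤ H := by
    calc L = L ^ 1 := (pow_one L).symm
      _ ≤ L ^ (K + 1) := pow_le_pow_right₀ hL1 (by omega)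
      _ ≤ H := hH1
  have hHpos : (0 : ℝ) < H := by linarith
  have hHpos' : 0 < H := by exact_mod_cast hHpos
  have hHH₀ : H₀ ≤ H := by
    have : (H₀ : ℝ) ≤ H := hNH.trans hLH
    exact_mod_cast this
  obtain ⟨hbl, hB⟩ := hH₀ H hHH₀
  -- logs of `H`
  have hlogH : Real.log H ≤ (K + 2) * x := by
    have h1 := Real.log_le_log hHpos hH2
    rw [Real.log_pow] at h1
    push_cast at h1
    exact h1
  have hlogH1 : x ≤ Real.log H := Real.log_le_log hL0 hLH
  have hlogH0 : 0 < Real.log H := by linarith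
  have hK2 : (0 : ℝ) < (K : ℝ) + 2 := by positivity
  have hllH : Real.log (Real.log H) ≤ 2 * y := by
    have h1 := Real.log_le_log hlogH0 hlogH
    rw [Real.log_mul hK2.ne' hx0.ne'] at h1
    have h2 := Real.log_le_log hK2 hxK
    linarith
  have hllH1 : y ≤ Real.log (Real.log H) := Real.log_le_log hx0 hlogH1
  have hy0 : 0 < y := by linarith
  have hllH0 : 0 < Real.log (Real.log H) := by linarith
  have hly : Real.log 2 ≤ Real.log y := Real.log_le_log (by norm_num) hy2
  have hl2 : 0 < Real.log 2 := Real.log_pos (by norm_num)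
  have hlllH : Real.log (Real.log (Real.log H)) ≤ 2 * Real.log y := by
    have h1 := Real.log_le_log hllH0 hllH
    rw [Real.log_mul (by norm_num) hy0.ne'] at h1
    linarith
  have hlllH1 : Real.log y ≤ Real.log (Real.log (Real.log H)) := Real.log_le_log hy0 hllH1
  have hlllH0 : 0 < Real.log (Real.log (Real.log H)) := by linarith
  -- the lower bound for one block
  set W : ℝ := c₂ * H / ((Real.log H) ^ b * (Real.log (Real.log H)) ^ 2 *
        Real.log (Real.log (Real.log H))) with hW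
  have hW0 : 0 ≤ W := by rw [hW]; positivity
  set G := (range (N / H)).filter fun i =>
      c₀ * L ≤ ((pic (a + 1) ((i + 1) * H) - pic (a + 1) (i * H) : ℕ) : ℝ) with hGdef
  have hWi : ∀ i ∈ G, W ≤ ((image₂ (fun q p => q + p) (finalA_A (a + 1) (i * H) ((i + 1) * H))
      (finalA_B b H)).card : ℝ) := by
    intro i hi
    rw [hGdef, mem_filter] at hi
    refine hbl (i * H) _ _ ?_ ?_ ?_ ?_
    · intro q hq
      obtain ⟨z, _, _, h3, h4⟩ := finalA_mem hq
      rw [mem_Ioc]
      have h8 : (i + 1) * H = i * H + H := by ring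
      exact ⟨h3, by omega⟩
    · intro p hp
      obtain ⟨z, _, _, h3, _, h5⟩ := finalA_Bmem hp
      exact ⟨h3, h5⟩
    · rw [finalA_Bcard]
      exact hB
    · rw [finalA_card]
      refine le_trans ?_ hi.2
      calc (Real.log H) ^ (b + 2) ≤ ((K + 2) * x) ^ (b + 2) := by gcongr
        _ = (K + 2) ^ (b + 2) * x ^ (b + 2) := mul_pow _ _ _
        _ = c₀ * (((K : ℝ) + 2) ^ (b + 2) / c₀ * x ^ (b + 2)) := by field_simp
        _ ≤ c₀ * Real.exp x := by gcongr
        _ = c₀ * L := by rw [hex]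
  have hfin := finalA_finite a b N H (N / H) (Nat.div_mul_le_self N H) W hW0 G
    (fun i hi => by rw [hGdef, mem_filter, mem_range] at hi; exact hi.1) hWi
  refine le_trans ?_ hfin
  have hH4 : 4 * (H : ℝ) ≤ c₀ * N := by
    have h1 : 4 / c₀ * L ^ (K + 2) ≤ N := hn2
    have h2 : 4 / c₀ * (H : ℝ) ≤ N := le_trans (by gcongr) h1
    rw [div_mul_eq_mul_div, div_le_iff₀ hc₀] at h2
    linarith
  have hGc : c₀ * N / (4 * H) ≤ ((G.card : ℝ) - 2) / 2 := by
    have h1 : c₀ * N / H = 2 * (c₀ * N / (4 * H)) * 2 := by field_simp; ring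
    have h2 : 1 ≤ c₀ * N / (4 * H) := by
      rw [le_div_iff₀ (by positivity), one_mul]
      exact hH4
    rw [h1] at hG
    linarith
  calc (N : ℝ) / (x ^ b * y ^ 3) ≤ c₀ * N / (4 * H) * W := by
        rw [hW]
        have h1 : c₀ * N / (4 * H) * (c₂ * H / ((Real.log H) ^ b * (Real.log (Real.log H)) ^ 2 *
            Real.log (Real.log (Real.log H)))) = (c₀ * c₂ * N / 4) / ((Real.log H) ^ b *
            (Real.log (Real.log H)) ^ 2 * Real.log (Real.log (Real.log H))) := by
          field_simp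
        rw [h1]
        have h2 : (Real.log H) ^ b * (Real.log (Real.log H)) ^ 2 *
            Real.log (Real.log (Real.log H)) ≤
            ((K + 2) * x) ^ b * (2 * y) ^ 2 * (2 * Real.log y) := by gcongr
        have h3 : (c₀ * c₂ * N / 4) / (((K + 2) * x) ^ b * (2 * y) ^ 2 * (2 * Real.log y)) ≤
            (c₀ * c₂ * N / 4) / ((Real.log H) ^ b * (Real.log (Real.log H)) ^ 2 *
              Real.log (Real.log (Real.log H))) :=
          div_le_div_of_nonneg_left (by positivity) (by positivity) h2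
        refine le_trans ?_ h3
        have hly0 : 0 < Real.log y := by linarith
        rw [div_le_div_iff₀ (by positivity) (by positivity), mul_pow]
        have h5 : 32 * ((K : ℝ) + 2) ^ b / (c₀ * c₂) * Real.log y ≤ y := hn4
        rw [div_mul_eq_mul_div, div_le_iff₀ (by positivity)] at h5
        calc (N : ℝ) * (((K : ℝ) + 2) ^ b * x ^ b * (2 * y) ^ 2 * (2 * Real.log y))
            = N * x ^ b * y ^ 2 / 4 * (32 * ((K : ℝ) + 2) ^ b * Real.log y) := by ring
          _ ≤ N * x ^ b * y ^ 2 / 4 * (y * (c₀ * c₂)) := by gcongr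
          _ = c₀ * c₂ * N / 4 * (x ^ b * y ^ 3) := by ring
    _ ≤ ((G.card : ℝ) - 2) / 2 * W := mul_le_mul_of_nonneg_right hGc hW0

end Pool.Agent.Lib.MP_e3f158_nt.D2
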