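import Pool.Agent.Lib.MP_e3f158_nt.D2.TSieve
import Pool.Agent.Lib.MP_e3f158_nt.D2.AvgE
import Pool.Agent.Lib.MP_e3f158_nt.Main

/-!
# Density of the even integers of type `(a, 0)`

PROOF. Let `N` be large, `L = log N`, `x = log L`, `Y = ⌊L²⌋₊`, `Q` the set of the `ipr a z`,
`z ∈ Icc 2 (pic (a+1) Y)`; they are distinct primes in `[3, Y]` (`iter_strictMono`, `iter_le_iff`).
`|Q| = pic (a+1) Y - 1` and `pic_ge (a+1)` (Main.lean) gives `|Q| ≥ Y / (2 (2 log Y)^(a+1))`,
`log Y ≤ 2x`; in particular `|Q| ≥ L`. Let `P` = primes in `(Y, N - Y]`; `|P| ≥ N/(4L)`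
(`primeCounting_ge`, subtract `≤ 2Y`) and `|P| ≤ C₂ N / L` (`tuple_sieve` with `S = {0}`).
Let `X = Q + P` (image of the sums), `r m = #{(q,p) ∈ Q ×ˢ P : q + p = m}`. Cauchy–Schwarz:
`(|Q||P|)² = (∑_{m ∈ X} r m)² ≤ |X| ∑ r²`, and `∑ r² = #{(q,p,q',p') : q + p = q' + p'} ≤
|Q||P| + ∑_{(q,q') ∈ Q.offDiag} #{n < N : n prime, n + dist q q' prime}` (for `q ≠ q'`, `n = min p p'`
and `(p, p')` is determined by `n` and the sign). `tuple_sieve` with `S = {0, h}`, `h = dist q q' ≥ 1`
(`dset {0, h} = (h * h).primeFactors = h.primeFactors`): `#.. ≤ C₃ (N / L²) ES h.primeFactors`.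
`pair_avg` with `k = ⌈(a + 2) log (log Y)⌉₊` (`exp k ≥ (log Y)^(a+2) ≥ 4 (2 log Y)^(a+1)`, so
`2 Y ≤ |Q| exp k`): `∑_{offDiag} ES ≤ C₄ log k |Q|²`, and `log k ≤ 2 log (log x)` for large `N`
(`k ≤ (a+3) log (2x)`). Since `|Q| ≥ L`: `|Q||P| ≤ C₂ |Q|² N / L²`. So
`∑ r² ≤ C₅ (N / L²) log (log x) |Q|²` and
`|X| ≥ |Q|² (N/(4L))² / (C₅ (N/L²) log(log x) |Q|²) = N / (16 C₅ log (log x))`; note
`log (log x) = log (log (log (log N)))`.
Finally `X ⊆ {m ∈ Icc 1 N : Even m ∧ HasRep a 0 m}`: `q, p` are odd primes (`q ≥ 3`, `p > Y ≥ q`),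
`q + p ≤ N`, `q ≠ p`; and `p = ipr 0 y` with `y = Nat.primeCounting p ≥ 1`
(`ipr 0 y = pr y = Nat.nth Nat.Prime (y - 1)`, `Nat.nth_count`).
-/

namespace Pool.Agent.Lib.MP_e3f158_nt.D2

open Finset Filter

/-- the small `a`-primes -/
private noncomputable def FB_Q (a Y : ℕ) : Finset ℕ :=
  (Icc 2 (pic (a + 1) Y)).image fun z => ipr a z

/-- the large primes -/
private def FB_P (Y N : ℕ) : Finset ℕ := (Ioc Y (N - Y)).filter Nat.Prime

private theorem FB_Qcard (a Y : ℕ) : (FB_Q a Y).card = pic (a + 1) Y - 1 := by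
  unfold FB_Q
  rw [card_image_of_injOn, Nat.card_Icc]
  · omega
  · intro z hz z' hz' h
    rw [mem_coe, mem_Icc] at hz hz'
    have h' : pr^[a + 1] z = pr^[a + 1] z' := h
    rcases lt_trichotomy z z' with h1 | h1 | h1
    · have := iter_strictMono (a + 1) z z' (by omega) h1
      omega
    · exact h1
    · have := iter_strictMono (a + 1) z' z (by omega) h1
      omega

private theorem FB_Qmem {a Y q : ℕ} (hq : q ∈ FB_Q a Y) :
    ∃ z, 1 ≤ z ∧ ipr a z = q ∧ q.Prime ∧ 3 ≤ q ∧ q ≤ Y := by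
  unfold FB_Q at hq
  rw [mem_image] at hq
  obtain ⟨z, hz, rfl⟩ := hq
  rw [mem_Icc] at hz
  refine ⟨z, by omega, rfl, ipr_prime a z, ?_, ?_⟩
  · have h1 : ipr a 1 < ipr a z := iter_strictMono (a + 1) 1 z (le_refl _) (by omega)
    have h2 := (ipr_prime a 1).two_le
    omega
  · exact (iter_le_iff (a + 1) z Y (by omega)).2 hz.2

open Classical in
private theorem FB_sum_mem {a Y N q p : ℕ} (hq : q ∈ FB_Q a Y) (hp : p ∈ FB_P Y N) :
    q + p ∈ (Icc 1 N).filter fun m => Even m ∧ HasRep a 0 m := by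
  obtain ⟨z, hz, hzq, hqp, hq3, hqY⟩ := FB_Qmem hq
  unfold FB_P at hp
  rw [mem_filter, mem_Ioc] at hp
  obtain ⟨⟨hp1, hp2⟩, hpp⟩ := hp
  rw [mem_filter, mem_Icc]
  refine ⟨⟨by omega, by omega⟩, ?_, ?_⟩
  · exact (odd_of_prime_gt hqp (by omega)).add_odd (odd_of_prime_gt hpp (by omega))
  · have hy : ipr 0 (Nat.count Nat.Prime p + 1) = p := by
      show pr (Nat.count Nat.Prime p + 1) = p
      rw [pr, Nat.add_sub_cancel]
      exact Nat.nth_count hpp
    refine ⟨z, Nat.count Nat.Prime p + 1, hz, by omega, by rw [hzq, hy], ?_⟩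
    rw [hzq, hy]
    omega

private theorem FB_energy (Q P : Finset ℕ) (B : ℕ → ℝ)
    (hB : ∀ h, 1 ≤ h → ((P.filter fun n => n + h ∈ P).card : ℝ) ≤ B h) :
    (addEnergy Q P : ℝ) ≤ Q.card * P.card + ∑ x ∈ Q.offDiag, B (Nat.dist x.1 x.2) := by
  classical
  have h1 : (addEnergy Q P : ℝ) =
      ∑ x ∈ Q ×ˢ Q, (((P ×ˢ P).filter fun y => x.1 + y.1 = x.2 + y.2).card : ℝ) := by
    unfold addEnergy
    rw [card_filter, sum_product]
    push_cast
    refine sum_congr rfl fun x _ => ?_
    rw [card_filter]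
    push_cast
    rfl
  rw [h1, ← diag_union_offDiag, sum_union (disjoint_diag_offDiag Q)]
  refine add_le_add ?_ ?_
  · have h2 : ∀ x ∈ Q.diag, (((P ×ˢ P).filter fun y => x.1 + y.1 = x.2 + y.2).card : ℝ) ≤
        P.card := by
      intro x hx
      rw [mem_diag] at hx
      have h3 : ((P ×ˢ P).filter fun y => x.1 + y.1 = x.2 + y.2).card ≤ P.card := by
        refine card_le_card_of_injOn (fun y => y.1) ?_ ?_
        · intro y hy
          rw [mem_coe, mem_filter, mem_product] at hy
          exact hy.1.1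
        · intro y hy y' hy' h
          rw [mem_coe, mem_filter] at hy hy'
          have e1 := hy.2
          have e2 := hy'.2
          have h' : y.1 = y'.1 := h
          rw [hx.2] at e1 e2
          exact Prod.ext h' (by omega)
      exact_mod_cast h3
    refine (sum_le_sum h2).trans (le_of_eq ?_)
    rw [sum_const, diag_card, nsmul_eq_mul]
  · refine sum_le_sum fun x hx => ?_
    rw [mem_offDiag] at hx
    obtain ⟨-, -, hne⟩ := hx
    rcases lt_or_gt_of_ne hne with hlt | hlt
    · have hd : Nat.dist x.1 x.2 = x.2 - x.1 := Nat.dist_eq_sub_of_le hlt.le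
      refine le_trans ?_ (hB (Nat.dist x.1 x.2) (by rw [hd]; omega))
      have h3 : ((P ×ˢ P).filter fun y => x.1 + y.1 = x.2 + y.2).card ≤
          (P.filter fun n => n + Nat.dist x.1 x.2 ∈ P).card := by
        refine card_le_card_of_injOn (fun y => y.2) ?_ ?_
        · intro y hy
          rw [mem_coe, mem_filter, mem_product] at hy
          rw [mem_coe, mem_filter]
          refine ⟨hy.1.2, ?_⟩
          have e : y.2 + Nat.dist x.1 x.2 = y.1 := by
            rw [hd]
            omega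
          show y.2 + Nat.dist x.1 x.2 ∈ P
          rw [e]
          exact hy.1.1
        · intro y hy y' hy' h
          rw [mem_coe, mem_filter] at hy hy'
          have h' : y.2 = y'.2 := h
          exact Prod.ext (by omega) h'
      exact_mod_cast h3
    · have hd : Nat.dist x.1 x.2 = x.1 - x.2 := Nat.dist_eq_sub_of_le_right hlt.le
      refine le_trans ?_ (hB (Nat.dist x.1 x.2) (by rw [hd]; omega))
      have h3 : ((P ×ˢ P).filter fun y => x.1 + y.1 = x.2 + y.2).card ≤
          (P.filter fun n => n + Nat.dist x.1 x.2 ∈ P).card := by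
        refine card_le_card_of_injOn (fun y => y.1) ?_ ?_
        · intro y hy
          rw [mem_coe, mem_filter, mem_product] at hy
          rw [mem_coe, mem_filter]
          refine ⟨hy.1.1, ?_⟩
          have e : y.1 + Nat.dist x.1 x.2 = y.2 := by
            rw [hd]
            omega
          show y.1 + Nat.dist x.1 x.2 ∈ P
          rw [e]
          exact hy.1.2
        · intro y hy y' hy' h
          rw [mem_coe, mem_filter] at hy hy'
          have h' : y.1 = y'.1 := h
          exact Prod.ext h' (by omega)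
      exact_mod_cast h3

open Classical in
private theorem FB_cs (a N Y : ℕ) :
    ((FB_Q a Y).card : ℝ) ^ 2 * ((FB_P Y N).card : ℝ) ^ 2 ≤
      (((Icc 1 N).filter fun m => Even m ∧ HasRep a 0 m).card : ℝ) *
        (addEnergy (FB_Q a Y) (FB_P Y N) : ℝ) := by
  have h := card_sq_le_card_mul_addEnergy (FB_Q a Y) (FB_P Y N)
    ((Icc 1 N).filter fun m => Even m ∧ HasRep a 0 m)
  rw [filter_true_of_mem (fun x hx => FB_sum_mem (mem_product.mp hx).1 (mem_product.mp hx).2),
    card_product, mul_pow] at h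
  exact_mod_cast h

private theorem FB_dset {h : ℕ} (hh : 1 ≤ h) : dset {0, h} = h.primeFactors := by
  unfold dset
  have e : ({0, h} : Finset ℕ).offDiag = {(0, h), (h, 0)} := by
    ext ⟨x, y⟩
    simp only [mem_offDiag, mem_insert, mem_singleton, Prod.mk.injEq]
    omega
  rw [e, prod_insert (by
    rw [mem_singleton, Prod.mk.injEq]
    omega), prod_singleton]
  have e1 : Nat.dist 0 h = h := by
    rw [Nat.dist_eq_sub_of_le (Nat.zero_le h)]
    omega
  have e2 : Nat.dist h 0 = h := by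
    rw [Nat.dist_eq_sub_of_le_right (Nat.zero_le h)]
    omega
  simp only [e1, e2]
  rw [← sq, Nat.primeFactors_pow _ (by norm_num)]

private theorem FB_Pcount (N Y : ℕ) : Nat.primeCounting N ≤ (FB_P Y N).card + 2 * Y + 1 := by
  have h1 : Nat.primeCounting N = ((range (N + 1)).filter Nat.Prime).card := by
    rw [Nat.primeCounting, Nat.primeCounting', Nat.count_eq_card_filter_range]
  rw [h1]
  have h2 : (range (N + 1)).filter Nat.Prime ⊆
      FB_P Y N ∪ (range (Y + 1) ∪ Ioc (N - Y) N) := by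
    intro p hp
    rw [mem_filter, mem_range] at hp
    rw [mem_union, mem_union, FB_P, mem_filter, mem_Ioc, mem_range, mem_Ioc]
    by_cases h3 : p < Y + 1
    · exact Or.inr (Or.inl h3)
    · by_cases h4 : p ≤ N - Y
      · exact Or.inl ⟨⟨by omega, h4⟩, hp.2⟩
      · exact Or.inr (Or.inr ⟨by omega, by omega⟩)
  refine (card_le_card h2).trans ((card_union_le _ _).trans ?_)
  have h3 := card_union_le (range (Y + 1)) (Ioc (N - Y) N)
  rw [card_range, Nat.card_Ioc] at h3
  omega

open Classical in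
theorem mainB (a : ℕ) : ∃ c : ℝ, 0 < c ∧ ∀ᶠ N : ℕ in atTop,
    c * N / Real.log (Real.log (Real.log (Real.log N))) ≤
      (((Icc 1 N).filter fun m => Even m ∧ HasRep a 0 m).card : ℝ) := by
  obtain ⟨C₁, hC₁, hsieve⟩ := tuple_sieve
  obtain ⟨C₄, hC₄, hpair⟩ := pair_avg
  have hlog2 : 0 < Real.log 2 := Real.log_pos (by norm_num)
  have hlog3 : 0 < Real.log 3 := Real.log_pos (by norm_num)
  set C₅ : ℝ := C₁ * Real.log 2 + 2 * (2 * C₁ * Real.log 3) ^ 2 * C₄ with hC₅
  have hC₅0 : 0 < C₅ := by rw [hC₅]; positivity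
  refine ⟨1 / (16 * C₅), by positivity, ?_⟩
  have hL : Tendsto (fun N : ℕ => Real.log N) atTop atTop :=
    Real.tendsto_log_atTop.comp tendsto_natCast_atTop_atTop
  have hx : Tendsto (fun N : ℕ => Real.log (Real.log N)) atTop atTop :=
    Real.tendsto_log_atTop.comp hL
  have hl : Tendsto (fun N : ℕ => Real.log (Real.log (Real.log N))) atTop atTop :=
    Real.tendsto_log_atTop.comp hx
  have hll : Tendsto (fun N : ℕ => Real.log (Real.log (Real.log (Real.log N)))) atTop atTop :=
    Real.tendsto_log_atTop.comp hl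
  have hY : Tendsto (fun N : ℕ => ⌊(Real.log N) ^ 2⌋₊) atTop atTop :=
    tendsto_nat_floor_atTop.comp ((tendsto_pow_atTop (by norm_num)).comp hL)
  -- conditions
  have c1 : ∀ᶠ N : ℕ in atTop, 4 * (4 * Real.log (Real.log N)) ^ (a + 1) ≤ Real.log N := by
    have h1 : ∀ᶠ x : ℝ in atTop, 4 * 4 ^ (a + 1) * x ^ (a + 1) ≤ Real.exp x := by
      filter_upwards [(Real.tendsto_exp_div_pow_atTop (a + 1)).eventually_ge_atTop (4 * 4 ^ (a + 1)),
        eventually_gt_atTop 0] with x h1 h2
      rwa [le_div_iff₀ (by positivity)] at h1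
    filter_upwards [hx.eventually h1, hL.eventually_gt_atTop 0] with N h2 h3
    rw [Real.exp_log h3] at h2
    calc 4 * (4 * Real.log (Real.log N)) ^ (a + 1) =
        4 * 4 ^ (a + 1) * (Real.log (Real.log N)) ^ (a + 1) := by rw [mul_pow]; ring
      _ ≤ _ := h2
  have c2 : ∀ᶠ N : ℕ in atTop, 24 * (Real.log N) ^ 3 ≤ N := by
    have h1 := (Real.isLittleO_pow_log_id_atTop (n := 3)).bound (c := 1 / 24) (by norm_num)
    filter_upwards [tendsto_natCast_atTop_atTop.eventually h1] with N hN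
    have h2 : 0 ≤ Real.log N := Real.log_natCast_nonneg N
    simp only [id] at hN
    rw [Real.norm_of_nonneg (by positivity), Real.norm_of_nonneg (by positivity)] at hN
    linarith
  filter_upwards [c1, c2, hY.eventually (pic_ge (a + 1)), primeCounting_ge,
    hL.eventually_ge_atTop (2 * C₁ * Real.log 3), hL.eventually_ge_atTop (C₁ * Real.log 2),
    hL.eventually_ge_atTop 8,
    hx.eventually_ge_atTop 1,
    hl.eventually_ge_atTop (Real.log 4 + (a + 1) * Real.log 4 + 3),
    hll.eventually_ge_atTop (Real.log (a + 2)), hll.eventually_ge_atTop 1,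
    hl.eventually_ge_atTop 1] with N h1 h2 h3 h4 h5 h5' h6 h7 h8 h9 h10 h11
  set L : ℝ := Real.log N with hLdef
  set x : ℝ := Real.log L with hxdef
  set Y : ℕ := ⌊L ^ 2⌋₊ with hYdef
  have hL0 : 0 < L := by linarith
  have hx0 : 0 < x := by linarith
  have hlogx : 0 < Real.log x := by linarith
  have hN0 : (0 : ℝ) < N := by
    have : 0 < L ^ 3 := by positivity
    linarith
  have hYle : (Y : ℝ) ≤ L ^ 2 := Nat.floor_le (by positivity)
  have hYge : L ^ 2 / 2 ≤ Y := by
    have h12 : L ^ 2 < Y + 1 := Nat.lt_floor_add_one _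
    nlinarith
  have hY2 : (2 : ℝ) ≤ Y := by nlinarith
  have hlogY0 : 0 < Real.log Y := Real.log_pos (by linarith)
  have hlogY : Real.log Y ≤ 2 * x := by
    have h12 := Real.log_le_log (by linarith) hYle
    rw [Real.log_pow] at h12
    push_cast at h12
    exact h12
  -- the size of Q
  set Q := FB_Q a Y with hQdef
  set P := FB_P Y N with hPdef
  set D : ℝ := (4 * x) ^ (a + 1) with hD
  have hD0 : 0 < D := by rw [hD]; positivity
  have hQc : (Y : ℝ) / (2 * D) ≤ Q.card := by
    have h12 : (Y : ℝ) / D ≤ pic (a + 1) Y := by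
      refine le_trans ?_ h3
      refine div_le_div_of_nonneg_left (by linarith) (by positivity) ?_
      rw [hD]
      exact pow_le_pow_left₀ (by positivity) (by linarith) _
    have h13 : (2 : ℝ) ≤ Y / D := by
      rw [le_div_iff₀ hD0]
      have h14 : 4 * D ≤ L := h1
      nlinarith
    have h15 : ((pic (a + 1) Y - 1 : ℕ) : ℝ) = pic (a + 1) Y - 1 := by
      rw [Nat.cast_sub, Nat.cast_one]
      have : (1 : ℝ) ≤ pic (a + 1) Y := by linarith
      exact_mod_cast this
    rw [hQdef, FB_Qcard, h15]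
    have h16 : (Y : ℝ) / (2 * D) = Y / D / 2 := by
      field_simp
    rw [h16]
    linarith
  have hQL : L ≤ Q.card := by
    refine le_trans ?_ hQc
    rw [le_div_iff₀ (by positivity)]
    have h14 : 4 * D ≤ L := h1
    nlinarith
  have hQ0 : (0 : ℝ) < Q.card := by linarith
  -- the size of P
  have hPge : (N : ℝ) / (4 * L) ≤ P.card := by
    have h12 := FB_Pcount N Y
    have h13 : (Nat.primeCounting N : ℝ) ≤ P.card + 2 * Y + 1 := by exact_mod_cast h12
    have h14 : (N : ℝ) / (2 * L) = N / (4 * L) + N / (4 * L) := by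
      field_simp
      ring
    have h15 : 2 * (Y : ℝ) + 1 ≤ N / (4 * L) := by
      rw [le_div_iff₀ (by positivity)]
      nlinarith
    linarith
  have hPle : (P.card : ℝ) ≤ N * (C₁ * Real.log 2 / L) := by
    have h12 := hsieve {0} (singleton_nonempty 0) N (by
      rw [card_singleton]
      push_cast
      rw [mul_one, one_add_one_eq_two]
      exact h5')
    have h13 : P.card ≤ ((range N).filter fun n => ∀ h ∈ ({0} : Finset ℕ), (n + h).Prime).card := by
      refine card_le_card fun p hp => ?_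
      rw [hPdef, FB_P, mem_filter, mem_Ioc] at hp
      rw [mem_filter, mem_range]
      refine ⟨?_, ?_⟩
      · have : 0 < Y := by
          have : (0 : ℝ) < Y := by linarith
          exact_mod_cast this
        omega
      · intro h hh
        rw [mem_singleton] at hh
        rw [hh, add_zero]
        exact hp.2
    have h14 : (P.card : ℝ) ≤
        (((range N).filter fun n => ∀ h ∈ ({0} : Finset ℕ), (n + h).Prime).card : ℝ) := by
      exact_mod_cast h13
    refine h14.trans (h12.trans (le_of_eq ?_))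
    rw [card_singleton]
    push_cast
    rw [one_add_one_eq_two, ← hLdef]
    simp
  -- pairs
  have hB : ∀ h, 1 ≤ h → ((P.filter fun n => n + h ∈ P).card : ℝ) ≤
      N * (2 * C₁ * Real.log 3 / L) ^ 2 * ES h.primeFactors := by
    intro h hh
    have hcard : ({0, h} : Finset ℕ).card = 2 := card_pair (by omega)
    have h12 := hsieve {0, h} (insert_nonempty _ _) N (by
      rw [hcard]
      have e : ((2 : ℕ) : ℝ) + 1 = 3 := by norm_num
      rw [e]
      push_cast
      linarith)
    have h13 : (P.filter fun n => n + h ∈ P).card ≤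
        ((range N).filter fun n => ∀ k ∈ ({0, h} : Finset ℕ), (n + k).Prime).card := by
      refine card_le_card fun p hp => ?_
      rw [mem_filter, hPdef, FB_P, mem_filter, mem_filter, mem_Ioc, mem_Ioc] at hp
      rw [mem_filter, mem_range]
      refine ⟨by omega, ?_⟩
      intro k hk
      rw [mem_insert, mem_singleton] at hk
      rcases hk with rfl | rfl
      · rw [add_zero]
        exact hp.1.2
      · exact hp.2.2
    have h14 : ((P.filter fun n => n + h ∈ P).card : ℝ) ≤
        (((range N).filter fun n => ∀ k ∈ ({0, h} : Finset ℕ), (n + k).Prime).card : ℝ) := by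
      exact_mod_cast h13
    refine h14.trans (h12.trans (le_of_eq ?_))
    rw [hcard, FB_dset hh]
    have e : ((2 : ℕ) : ℝ) + 1 = 3 := by norm_num
    rw [e]
    push_cast
    rw [pow_one, ← hLdef]
    ring
  -- the average
  set k : ℕ := ⌈Real.log (4 * D)⌉₊ + 2 with hk
  have h4D : 0 < 4 * D := by positivity
  have hkexp : 4 * D ≤ Real.exp k := by
    have h12 : Real.log (4 * D) ≤ k := by
      rw [hk]
      push_cast
      have := Nat.le_ceil (Real.log (4 * D))
      linarith
    calc 4 * D = Real.exp (Real.log (4 * D)) := (Real.exp_log h4D).symm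
      _ ≤ Real.exp k := Real.exp_le_exp.mpr h12
  have hlog4D : Real.log (4 * D) = Real.log 4 + (a + 1) * (Real.log 4 + Real.log x) := by
    rw [Real.log_mul (by norm_num) hD0.ne', hD, Real.log_pow, Real.log_mul (by norm_num) hx0.ne']
    push_cast
    ring
  have hlog4 : 0 < Real.log 4 := Real.log_pos (by norm_num)
  have hkle : (k : ℝ) ≤ (a + 2) * Real.log x := by
    have h12 : (k : ℝ) ≤ Real.log (4 * D) + 3 := by
      rw [hk]
      push_cast
      have h13 : 0 ≤ Real.log (4 * D) := by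
        rw [hlog4D]
        positivity
      have := Nat.ceil_lt_add_one h13
      linarith
    rw [hlog4D] at h12
    nlinarith
  have hk0 : (0 : ℝ) < k := by
    rw [hk]
    push_cast
    positivity
  have hlogk : Real.log k ≤ 2 * Real.log (Real.log x) := by
    have h12 := Real.log_le_log hk0 hkle
    rw [Real.log_mul (by positivity) hlogx.ne'] at h12
    linarith
  have havg := hpair Y Q (by
    intro q hq
    obtain ⟨-, -, -, -, h12, h13⟩ := FB_Qmem hq
    rw [mem_Icc]
    omega) k (by omega) (by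
      have h12 : 2 * (Y : ℝ) = Y / (2 * D) * (4 * D) := by
        field_simp
        ring
      rw [h12]
      exact mul_le_mul hQc hkexp (by positivity) hQ0.le)
  -- the energy
  have hE := FB_energy Q P (fun h => N * (2 * C₁ * Real.log 3 / L) ^ 2 * ES h.primeFactors) hB
  rw [← mul_sum] at hE
  set ℓ : ℝ := Real.log (Real.log x) with hℓ
  have hℓ1 : 1 ≤ ℓ := h10
  have hE2 : (addEnergy Q P : ℝ) ≤ N / L ^ 2 * (Q.card : ℝ) ^ 2 * (C₅ * ℓ) := by
    have e1 : (Q.card : ℝ) * P.card ≤ N / L ^ 2 * (Q.card : ℝ) ^ 2 * (C₁ * Real.log 2 * ℓ) := by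
      calc (Q.card : ℝ) * P.card ≤ Q.card * (N * (C₁ * Real.log 2 / L)) :=
            mul_le_mul_of_nonneg_left hPle hQ0.le
        _ = N / L ^ 2 * (Q.card : ℝ) * L * (C₁ * Real.log 2) := by
            field_simp
        _ ≤ N / L ^ 2 * (Q.card : ℝ) * Q.card * (C₁ * Real.log 2 * ℓ) := by
            have e2 : C₁ * Real.log 2 ≤ C₁ * Real.log 2 * ℓ :=
              le_mul_of_one_le_right (by positivity) hℓ1
            gcongr
        _ = _ := by ring
    have e3 : (N : ℝ) * (2 * C₁ * Real.log 3 / L) ^ 2 *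
        ∑ x ∈ Q.offDiag, ES (Nat.dist x.1 x.2).primeFactors ≤
        N / L ^ 2 * (Q.card : ℝ) ^ 2 * (2 * (2 * C₁ * Real.log 3) ^ 2 * C₄ * ℓ) := by
      calc (N : ℝ) * (2 * C₁ * Real.log 3 / L) ^ 2 *
          ∑ x ∈ Q.offDiag, ES (Nat.dist x.1 x.2).primeFactors ≤
          N * (2 * C₁ * Real.log 3 / L) ^ 2 * (C₄ * Real.log k * (Q.card : ℝ) ^ 2) :=
            mul_le_mul_of_nonneg_left havg (by positivity)
        _ ≤ N * (2 * C₁ * Real.log 3 / L) ^ 2 * (C₄ * (2 * ℓ) * (Q.card : ℝ) ^ 2) := by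
            gcongr
        _ = _ := by
            field_simp
    calc (addEnergy Q P : ℝ) ≤ _ := hE
      _ ≤ N / L ^ 2 * (Q.card : ℝ) ^ 2 * (C₁ * Real.log 2 * ℓ) +
          N / L ^ 2 * (Q.card : ℝ) ^ 2 * (2 * (2 * C₁ * Real.log 3) ^ 2 * C₄ * ℓ) :=
          add_le_add e1 e3
      _ = _ := by rw [hC₅]; ring
  -- conclusion
  have hcs := FB_cs a N Y
  rw [← hQdef, ← hPdef] at hcs
  set M : ℝ := (((Icc 1 N).filter fun m => Even m ∧ HasRep a 0 m).card : ℝ) with hM
  have hM0 : 0 ≤ M := Nat.cast_nonneg _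
  have hfin : (Q.card : ℝ) ^ 2 * (N / (4 * L)) ^ 2 ≤
      M * (N / L ^ 2 * (Q.card : ℝ) ^ 2 * (C₅ * ℓ)) := by
    calc (Q.card : ℝ) ^ 2 * (N / (4 * L)) ^ 2 ≤ (Q.card : ℝ) ^ 2 * (P.card : ℝ) ^ 2 := by
          gcongr
      _ ≤ M * (addEnergy Q P : ℝ) := hcs
      _ ≤ _ := mul_le_mul_of_nonneg_left hE2 hM0
  have hpos : 0 < (Q.card : ℝ) ^ 2 * (N / L ^ 2) := by positivity
  have hfin2 : (Q.card : ℝ) ^ 2 * (N / L ^ 2) * (N / 16) ≤
      (Q.card : ℝ) ^ 2 * (N / L ^ 2) * (M * (C₅ * ℓ)) := by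
    calc (Q.card : ℝ) ^ 2 * (N / L ^ 2) * (N / 16) = (Q.card : ℝ) ^ 2 * (N / (4 * L)) ^ 2 := by
          field_simp
          ring
      _ ≤ _ := hfin
      _ = _ := by ring
  have hfin3 := le_of_mul_le_mul_left hfin2 hpos
  rw [div_mul_eq_mul_div, div_div, div_le_iff₀ (by positivity)]
  linarith

end Pool.Agent.Lib.MP_e3f158_nt.D2
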