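import Pool.Agent.Lib.MP_e3f158_nt.D2.Defs

/-!
# Blocks hit by primes with separated indices

PROOF. For `t ∈ T` let `i(t) = (pr t - 1) / H`; then `i(t) H < pr t ≤ (i(t) + 1) H` and
`i(t) ≤ N / H` (since `pr t ≤ N`). Let `T_i = {t ∈ T : i(t) = i}`. By `pr_le_iff`
(`pr t ≤ n ↔ t ≤ Nat.primeCounting n` for `t ≥ 1`) and `primeCounting_add`, the elements of `T_i` lie in
`(π(iH), π(iH) + cnt (iH) H]`; they are pairwise at distance `≥ H'`, so if `T_i` is nonempty
`T_i.card ≤ cnt (iH) H / H' + 1` (a set of integers in an interval `(x, x + c]` with pairwise distances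
`≥ H'` injects by `t ↦ (t - x - 1) / H'` into `range (c / H' + 1)`), and block `i` is one of the
blocks of the first filter if `i < N / H`. Also `cnt _ H ≤ H` (`cnt_le`). Sum over `i ∈ range (N/H + 1)`:
blocks with `cnt ≤ U` and `T_i ≠ ∅` give the first term, blocks with `cnt > U` and the
last (possibly incomplete) block `i = N / H` give the second.
-/

namespace Pool.Agent.Lib.MP_e3f158_nt.D2

open Finset

private theorem Transfer_block (i H H' : ℕ) (hH' : 1 ≤ H') (S : Finset ℕ)
    (hS : ∀ t ∈ S, 1 ≤ t ∧ i * H < pr t ∧ pr t ≤ (i + 1) * H)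
    (hsep : ∀ t ∈ S, ∀ t' ∈ S, t < t' → t + H' ≤ t') :
    S.card ≤ cnt (i * H) H / H' + 1 := by
  have hx : ∀ t ∈ S, Nat.primeCounting (i * H) + 1 ≤ t ∧
      t ≤ Nat.primeCounting (i * H) + cnt (i * H) H := by
    intro t ht
    obtain ⟨h1, h2, h3⟩ := hS t ht
    constructor
    · by_contra hcon
      have : pr t ≤ i * H := (pr_le_iff t (i * H) h1).2 (by omega)
      omega
    · rw [← primeCounting_add, show i * H + H = (i + 1) * H by ring]
      exact (pr_le_iff t ((i + 1) * H) h1).1 h3
  have hcard := Finset.card_le_card_of_injOn (s := S)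
    (t := range (cnt (i * H) H / H' + 1))
    (fun t => (t - Nat.primeCounting (i * H) - 1) / H') ?_ ?_
  · rwa [card_range] at hcard
  · intro t ht
    obtain ⟨h1, h2⟩ := hx t ht
    simp only [coe_range, Set.mem_Iio]
    have : (t - Nat.primeCounting (i * H) - 1) / H' ≤ cnt (i * H) H / H' :=
      Nat.div_le_div_right (by omega)
    omega
  · intro t ht t' ht' heq
    simp only at heq
    obtain ⟨h1, h2⟩ := hx t ht
    obtain ⟨h1', h2'⟩ := hx t' ht'
    have key : ∀ a ∈ S, ∀ b ∈ S, a < b →
        (a - Nat.primeCounting (i * H) - 1) / H' ≠ (b - Nat.primeCounting (i * H) - 1) / H' := by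
      intro a ha b hb hab
      obtain ⟨ha1, _⟩ := hx a ha
      have hs := hsep a ha b hb hab
      have h5 : (a - Nat.primeCounting (i * H) - 1) / H' + 1
          ≤ (b - Nat.primeCounting (i * H) - 1) / H' := by
        rw [← Nat.add_div_right _ (by omega : 0 < H')]
        exact Nat.div_le_div_right (by omega)
      omega
    rcases lt_trichotomy t t' with h | h | h
    · exact absurd heq (key t ht t' ht' h)
    · exact h
    · exact absurd heq.symm (key t' ht' t ht h)

theorem transfer (N H H' U : ℕ) (hH : 1 ≤ H) (hH' : 1 ≤ H') (T : Finset ℕ)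
    (hT : ∀ t ∈ T, 1 ≤ t ∧ pr t ≤ N)
    (hsep : ∀ t ∈ T, ∀ t' ∈ T, t < t' → t + H' ≤ t') :
    T.card ≤
      ((range (N / H)).filter fun i => ∃ t ∈ T, i * H < pr t ∧ pr t ≤ (i + 1) * H).card *
          (U / H' + 1) +
        (((range (N / H)).filter fun i => U < cnt (i * H) H).card + 1) * (H / H' + 1) := by
  classical
  have hpr : ∀ t, 1 ≤ pr t := fun t => (pr_prime t).one_le
  have hfib : ∀ t ∈ T, (pr t - 1) / H ∈ range (N / H + 1) := by
    intro t ht
    have h1 := (hT t ht).2
    rw [mem_range]
    have : (pr t - 1) / H ≤ N / H := Nat.div_le_div_right (by omega)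
    omega
  have hloc : ∀ t i, (pr t - 1) / H = i → i * H < pr t ∧ pr t ≤ (i + 1) * H := by
    intro t i hi
    have h1 := hpr t
    have h2 : i * H ≤ pr t - 1 := by
      rw [← hi]; exact Nat.div_mul_le_self _ _
    have h3 : pr t - 1 < (i + 1) * H := by
      rw [← Nat.div_lt_iff_lt_mul (by omega : 0 < H)]
      omega
    constructor <;> omega
  rw [card_eq_sum_card_fiberwise hfib, sum_range_succ]
  have hblk : ∀ i, (T.filter fun t => (pr t - 1) / H = i).card ≤ cnt (i * H) H / H' + 1 := by
    intro i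
    refine Transfer_block i H H' hH' _ ?_ ?_
    · intro t ht
      rw [mem_filter] at ht
      exact ⟨(hT t ht.1).1, hloc t i ht.2⟩
    · intro t ht t' ht' h
      rw [mem_filter] at ht ht'
      exact hsep t ht.1 t' ht'.1 h
  have hblkH : ∀ i, (T.filter fun t => (pr t - 1) / H = i).card ≤ H / H' + 1 := by
    intro i
    refine (hblk i).trans ?_
    have : cnt (i * H) H / H' ≤ H / H' := Nat.div_le_div_right (cnt_le _ _)
    omega
  have hmain : ∀ i ∈ range (N / H), (T.filter fun t => (pr t - 1) / H = i).card ≤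
      (if (∃ t ∈ T, i * H < pr t ∧ pr t ≤ (i + 1) * H) then (U / H' + 1) else 0) +
      (if U < cnt (i * H) H then (H / H' + 1) else 0) := by
    intro i _
    by_cases h2 : U < cnt (i * H) H
    · rw [if_pos h2]
      have := hblkH i
      omega
    · rw [if_neg h2]
      by_cases h1 : ∃ t ∈ T, i * H < pr t ∧ pr t ≤ (i + 1) * H
      · rw [if_pos h1]
        refine (hblk i).trans ?_
        have : cnt (i * H) H / H' ≤ U / H' := Nat.div_le_div_right (by omega)
        omega
      · rw [if_neg h1]
        have : (T.filter fun t => (pr t - 1) / H = i) = ∅ := by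
          rw [filter_eq_empty_iff]
          intro t ht hti
          exact h1 ⟨t, ht, hloc t i hti⟩
        rw [this]; simp
  have hsum := sum_le_sum hmain
  rw [sum_add_distrib, ← sum_filter, ← sum_filter, sum_const, sum_const, smul_eq_mul, smul_eq_mul] at hsum
  have hlast := hblkH (N / H)
  calc _ ≤ _ := Nat.add_le_add hsum hlast
    _ = _ := by ring

end Pool.Agent.Lib.MP_e3f158_nt.D2
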