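import Pool.Agent.Lib.MP_e3f158_nt.D2.BadBlk
import Pool.Agent.Lib.MP_e3f158_nt.D2.Transfer
import Pool.Agent.Lib.MP_e3f158_nt.Main

/-!
# Iterated primes hit a positive proportion of the blocks of length a power of `log N`

PROOF by induction on `R`. `R = 0`: `pic 0 n = n`, all blocks are hit (`H ≥ 1`), `c = 1/2`, `K = 0`
(`N / H ≥ N/(2H)` for the floor since `4H² ≤ N`).
Step `R → R + 1`. Let `c, K` be as in `HitP R` and `C₁, E` as in `bad_blk`; let `N` be large,
`L = log N`, `N' = Nat.primeCounting N ≥ N / (2L)` (`primeCounting_ge` in Main.lean, `N' ≤ N`),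
`H' = ⌈L^K⌉₊` (`1 ≤ H' ≤ 2 L^K`, `(log N')^K ≤ H'`, `4 H'² ≤ N'`). So at least `c N' / H'` of the
blocks `j < N'/H'` have `pic R (j H') < pic R ((j+1) H')`. One of the two parity classes of `j` contains at
least half of them. For such a `j` let `s_j = pr^[R] (pic R ((j+1) H'))`; as in `sum_lemma_aux`
(Iter.lean; `iter_le_iff`) `j H' < s_j ≤ (j+1) H'`. Let `T = {s_j}` (`j` in the parity class);
`|T| ≥ c N' / (2 H') ≥ c N / (4 L H')`, and for `j < j'` in the class `s_{j'} > j' H' ≥ (j+2) H' ≥
s_j + H'`. Also `1 ≤ s_j ≤ N'`, so `pr s_j ≤ N` (`pr_le_iff`).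
Let `K' = K + E + 3`, `H` with `L^{K'} ≤ H`, `4H² ≤ N`. Apply `transfer` with `U = ⌊C₁ H / L⌋₊`
(`U < cnt` implies `C₁ H < cnt * L`). A block `i` containing some `pr s_j = pr^[R+1] x`
(`Function.iterate_succ_apply'`), `x = pic R ((j+1)H') ≥ 1`, satisfies
`pic (R+1) (iH) < x ≤ pic (R+1) ((i+1)H)` by `iter_le_iff`. So with `F` = number of hit blocks at level
`R + 1`: `|T| ≤ F (U/H' + 1) + (bad + 1)(H/H' + 1)`. Here `C₁ H / (L H') ≥ 1`, so
`U/H' + 1 ≤ 2 C₁ H/(L H')`; `(bad + 1)(H/H' + 1) ≤ (2 + N L^E / H²)(2H/H') = 4H/H' + 2 N L^E/(H H')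
≤ c N/(8 L H')` for large `N` (`4 H ≤ 2 √N`, and `H ≥ L^{E+3}`). Hence
`F ≥ (c N / (8 L H')) (L H' / (2 C₁ H)) = c N / (16 C₁ H)`. So `HitP (R+1)` with `c/(16 C₁)` and `K'`.
-/

namespace Pool.Agent.Lib.MP_e3f158_nt.D2

open Finset Filter

private theorem hit_par (R N H H' U e : ℕ) (hH : 1 ≤ H) (hH' : 1 ≤ H') :
    ((range (Nat.primeCounting N / H')).filter fun j =>
        j % 2 = e ∧ pic R (j * H') < pic R ((j + 1) * H')).card ≤
      ((range (N / H)).filter fun i => pic (R + 1) (i * H) < pic (R + 1) ((i + 1) * H)).card *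
          (U / H' + 1) +
        (((range (N / H)).filter fun i => U < cnt (i * H) H).card + 1) * (H / H' + 1) := by
  classical
  set D := (range (Nat.primeCounting N / H')).filter fun j =>
        j % 2 = e ∧ pic R (j * H') < pic R ((j + 1) * H') with hD
  let s : ℕ → ℕ := fun j => pr^[R] (pic R ((j + 1) * H'))
  have hs : ∀ j ∈ D, j * H' < s j ∧ s j ≤ (j + 1) * H' ∧ 1 ≤ pic R ((j + 1) * H') := by
    intro j hj
    rw [hD, mem_filter] at hj
    have hy : 1 ≤ pic R ((j + 1) * H') := by omega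
    refine ⟨?_, ?_, hy⟩
    · have h1 := iter_le_iff R (pic R ((j + 1) * H')) (j * H') hy
      by_contra h2
      rw [not_lt] at h2
      have := h1.1 h2
      omega
    · exact (iter_le_iff R _ _ hy).2 (le_refl _)
  have hlt : ∀ j ∈ D, ∀ j' ∈ D, j < j' → s j + H' ≤ s j' := by
    intro j hj j' hj' h
    have h1 := hs j hj
    have h2 := hs j' hj'
    have h3 : j + 2 ≤ j' := by
      rw [hD, mem_filter] at hj hj'
      omega
    have h4 : (j + 2) * H' ≤ j' * H' := Nat.mul_le_mul_right _ h3
    have h5 : (j + 2) * H' = (j + 1) * H' + H' := by ring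
    omega
  have hinj : Set.InjOn s D := by
    intro j hj j' hj' h
    rcases lt_trichotomy j j' with h1 | h1 | h1
    · have := hlt j hj j' hj' h1
      omega
    · exact h1
    · have := hlt j' hj' j hj h1
      omega
  have hcard : (D.image s).card = D.card := card_image_of_injOn hinj
  rw [← hcard]
  refine (transfer N H H' U hH hH' (D.image s) ?_ ?_).trans ?_
  · intro t ht
    obtain ⟨j, hj, rfl⟩ := mem_image.1 ht
    have h1 := hs j hj
    have h2 : 1 ≤ s j := by omega
    refine ⟨h2, (pr_le_iff _ _ h2).2 ?_⟩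
    rw [hD, mem_filter, mem_range] at hj
    have h3 : (j + 1) * H' ≤ Nat.primeCounting N :=
      (Nat.le_div_iff_mul_le (by omega)).1 hj.1
    omega
  · intro t ht t' ht' h
    obtain ⟨j, hj, rfl⟩ := mem_image.1 ht
    obtain ⟨j', hj', rfl⟩ := mem_image.1 ht'
    rcases lt_trichotomy j j' with h1 | h1 | h1
    · exact hlt j hj j' hj' h1
    · rw [h1] at h
      omega
    · have := hlt j' hj' j hj h1
      omega
  · refine Nat.add_le_add_right (Nat.mul_le_mul_right _ (card_le_card ?_)) _
    intro i hi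
    rw [mem_filter] at hi ⊢
    refine ⟨hi.1, ?_⟩
    obtain ⟨t, ht, h1, h2⟩ := hi.2
    obtain ⟨j, hj, rfl⟩ := mem_image.1 ht
    have h3 := hs j hj
    have h4 : pr (s j) = pr^[R + 1] (pic R ((j + 1) * H')) := by
      rw [Function.iterate_succ_apply']
    rw [h4] at h1 h2
    have h5 := (iter_le_iff (R + 1) _ ((i + 1) * H) h3.2.2).1 h2
    have h6 : ¬ pic R ((j + 1) * H') ≤ pic (R + 1) (i * H) := by
      intro h7
      have := (iter_le_iff (R + 1) _ (i * H) h3.2.2).2 h7
      omega
    omega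

private theorem hit_fin (R N H H' U : ℕ) (hH : 1 ≤ H) (hH' : 1 ≤ H') :
    ((range (Nat.primeCounting N / H')).filter fun j =>
        pic R (j * H') < pic R ((j + 1) * H')).card ≤
      2 * (((range (N / H)).filter fun i =>
          pic (R + 1) (i * H) < pic (R + 1) ((i + 1) * H)).card * (U / H' + 1) +
        (((range (N / H)).filter fun i => U < cnt (i * H) H).card + 1) * (H / H' + 1)) := by
  classical
  have h0 := hit_par R N H H' U 0 hH hH'
  have h1 := hit_par R N H H' U 1 hH hH'
  have h2 : ((range (Nat.primeCounting N / H')).filter fun j =>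
        pic R (j * H') < pic R ((j + 1) * H')) ⊆
      ((range (Nat.primeCounting N / H')).filter fun j =>
        j % 2 = 0 ∧ pic R (j * H') < pic R ((j + 1) * H')) ∪
      ((range (Nat.primeCounting N / H')).filter fun j =>
        j % 2 = 1 ∧ pic R (j * H') < pic R ((j + 1) * H')) := by
    intro j hj
    rw [mem_filter] at hj
    rw [mem_union, mem_filter, mem_filter]
    rcases Nat.mod_two_eq_zero_or_one j with h | h
    · exact Or.inl ⟨hj.1, h, hj.2⟩
    · exact Or.inr ⟨hj.1, h, hj.2⟩
  have h3 := (card_le_card h2).trans (card_union_le _ _)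
  omega

private theorem hit_zero : HitP 0 := by
  refine ⟨1 / 2, by norm_num, 0, ?_⟩
  filter_upwards [] with N H hH _ hN
  have h1 : ((range (N / H)).filter fun i => pic 0 (i * H) < pic 0 ((i + 1) * H)) =
      range (N / H) := by
    apply filter_true_of_mem
    intro i _
    rw [pic_zero, pic_zero, add_mul]
    omega
  rw [h1, card_range]
  have hHr : (1 : ℝ) ≤ H := by exact_mod_cast hH
  have h2 : (N : ℝ) / H < ((N / H : ℕ) : ℝ) + 1 := by
    rw [div_lt_iff₀ (by linarith)]
    have h3 : N < (N / H + 1) * H := by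
      have := Nat.lt_div_mul_add (a := N) (b := H) (by omega)
      rw [add_mul]
      omega
    exact_mod_cast h3
  have h4 : (2 : ℝ) ≤ (N : ℝ) / H := by
    rw [le_div_iff₀ (by linarith)]
    nlinarith
  have h5 : 1 / 2 * (N : ℝ) / H = (N : ℝ) / H / 2 := by ring
  rw [h5]
  linarith

private theorem hit_log (k : ℕ) (M : ℝ) : ∀ᶠ N : ℕ in atTop, M * (Real.log N) ^ k ≤ N := by
  have h1 : (fun x : ℝ => (Real.log x) ^ k) =o[atTop] (fun x : ℝ => x) :=
    Real.isLittleO_pow_log_id_atTop
  have h2 := h1.bound (c := 1 / (|M| + 1)) (by positivity)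
  filter_upwards [tendsto_natCast_atTop_atTop.eventually h2, eventually_ge_atTop 1] with N hN hN1
  have hN1r : (1 : ℝ) ≤ N := by exact_mod_cast hN1
  have hl : 0 ≤ Real.log N := Real.log_nonneg hN1r
  rw [Real.norm_of_nonneg (by positivity), Real.norm_of_nonneg (by positivity)] at hN
  have h3 : (|M| + 1) * (Real.log N) ^ k ≤ N := by
    have h4 : (|M| + 1) * (Real.log N) ^ k ≤ (|M| + 1) * (1 / (|M| + 1) * N) :=
      mul_le_mul_of_nonneg_left hN (by positivity)
    have h5 : (|M| + 1) * (1 / (|M| + 1) * (N : ℝ)) = N := by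
      field_simp
    linarith
  have h6 : M * (Real.log N) ^ k ≤ (|M| + 1) * (Real.log N) ^ k := by
    refine mul_le_mul_of_nonneg_right ?_ (by positivity)
    have := le_abs_self M
    linarith
  linarith

private theorem hit_loglarge (M : ℝ) : ∀ᶠ N : ℕ in atTop, M ≤ Real.log N :=
  (Real.tendsto_log_atTop.comp tendsto_natCast_atTop_atTop).eventually_ge_atTop M

private theorem hit_step (R : ℕ) (h : HitP R) : HitP (R + 1) := by
  obtain ⟨c, hc, K, hK⟩ := h
  obtain ⟨C₁, hC₁, E, hE⟩ := bad_blk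
  refine ⟨c / (16 * C₁), by positivity, K + E + 3, ?_⟩
  filter_upwards [Nat.tendsto_primeCounting.eventually hK, hE, primeCounting_ge,
    hit_log (2 * K + 1) 32, hit_log 2 (1024 / c ^ 2), hit_loglarge 2, hit_loglarge (32 / c),
    eventually_ge_atTop 2] with N h1 h2 h3 h4 h5 h6 h6' h7 H hH hHK hHN
  set L := Real.log N with hL
  have hNr : (2 : ℝ) ≤ N := by exact_mod_cast h7
  have hL0 : 0 < L := by linarith
  have hLK1 : ∀ k : ℕ, 1 ≤ L ^ k := fun k => one_le_pow₀ (by linarith)
  set H' := ⌈L ^ K⌉₊ with hH'def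
  have hH'1 : 1 ≤ H' := by
    rw [hH'def, Nat.one_le_ceil_iff]
    have := hLK1 K
    linarith
  have hH'ge : L ^ K ≤ H' := Nat.le_ceil _
  have hH'le : (H' : ℝ) ≤ 2 * L ^ K := by
    have := Nat.ceil_lt_add_one (a := L ^ K) (by positivity)
    have h8 := hLK1 K
    rw [← hH'def] at this
    linarith
  have hH'r : (1 : ℝ) ≤ H' := by exact_mod_cast hH'1
  have hHr : (1 : ℝ) ≤ H := by exact_mod_cast hH
  have hN' : (N : ℝ) / (2 * L) ≤ Nat.primeCounting N := h3
  have hN'le : (Nat.primeCounting N : ℝ) ≤ N := by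
    have := pic_le 1 N
    rw [pic_succ, pic_zero] at this
    exact_mod_cast this
  have hN'pos : (0 : ℝ) < Nat.primeCounting N := lt_of_lt_of_le (by positivity) hN'
  have hlog' : (Real.log (Nat.primeCounting N : ℝ)) ^ K ≤ H' := by
    refine le_trans ?_ hH'ge
    have h8 : Real.log (Nat.primeCounting N : ℝ) ≤ L := Real.log_le_log hN'pos hN'le
    have h9 : 0 ≤ Real.log (Nat.primeCounting N : ℝ) := by
      apply Real.log_nonneg
      have : 0 < Nat.primeCounting N := by exact_mod_cast hN'pos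
      exact_mod_cast this
    exact pow_le_pow_left₀ h9 h8 K
  have h4H' : 4 * (H' : ℝ) ^ 2 ≤ Nat.primeCounting N := by
    refine le_trans ?_ hN'
    rw [le_div_iff₀ (by positivity)]
    have h8 : (H' : ℝ) ^ 2 ≤ (2 * L ^ K) ^ 2 := pow_le_pow_left₀ (by positivity) hH'le 2
    calc 4 * (H' : ℝ) ^ 2 * (2 * L) ≤ 4 * (2 * L ^ K) ^ 2 * (2 * L) := by gcongr
      _ = 32 * L ^ (2 * K + 1) := by ring
      _ ≤ N := h4
  have hD := h1 H' hH'1 hlog' h4H'
  have hfin := hit_fin R N H H' (⌊C₁ * H / L⌋₊) hH hH'1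
  have hbad := h2 H hH hHN
  set D := ((range (Nat.primeCounting N / H')).filter fun j =>
        pic R (j * H') < pic R ((j + 1) * H')).card with hDdef
  set F := ((range (N / H)).filter fun i =>
          pic (R + 1) (i * H) < pic (R + 1) ((i + 1) * H)).card with hFdef
  have hbad' : (((range (N / H)).filter fun i => ⌊C₁ * H / L⌋₊ < cnt (i * H) H).card : ℝ) ≤
      1 + N * L ^ E / (H : ℝ) ^ 2 := by
    refine le_trans ?_ hbad
    have h8 : ((range (N / H)).filter fun i => ⌊C₁ * H / L⌋₊ < cnt (i * H) H) ⊆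
        (range (N / H)).filter fun i => C₁ * H < cnt (i * H) H * Real.log N := by
      intro i hi
      rw [mem_filter] at hi ⊢
      refine ⟨hi.1, ?_⟩
      have h9 := (Nat.floor_lt (by positivity)).1 hi.2
      rwa [div_lt_iff₀ hL0] at h9
    exact_mod_cast card_le_card h8
  set B := ((range (N / H)).filter fun i => ⌊C₁ * H / L⌋₊ < cnt (i * H) H).card with hBdef
  -- size of `H`
  have hHbig : L ^ (K + E + 3) ≤ H := hHK
  have hLpos : ∀ k : ℕ, 0 < L ^ k := fun k => by positivity
  have hHLH' : L * H' ≤ H := by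
    have h8 : L * (H' : ℝ) ≤ L * (2 * L ^ K) := mul_le_mul_of_nonneg_left hH'le hL0.le
    have h9 : L * (2 * L ^ K) ≤ L ^ (K + E + 3) := by
      have e1 : L ^ (K + E + 3) = L * L ^ K * (L ^ E * L ^ 2) := by ring
      have e2 : (2 : ℝ) ≤ L ^ E * L ^ 2 := by
        have e4 : (2 : ℝ) ≤ L ^ 2 := by
          have : (2 : ℝ) ^ 2 ≤ L ^ 2 := pow_le_pow_left₀ (by norm_num) h6 2
          linarith
        exact e4.trans (le_mul_of_one_le_left (by positivity) (hLK1 E))
      rw [e1]
      have e3 : 0 ≤ L * L ^ K := by positivity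
      have e5 := mul_le_mul_of_nonneg_left e2 e3
      linarith
    linarith
  have hH'H : (H' : ℝ) ≤ H :=
    le_trans (le_mul_of_one_le_left (by positivity) (by linarith)) hHLH'
  have hfinr : (D : ℝ) ≤ 2 * ((F : ℝ) * (((⌊C₁ * H / L⌋₊ / H' : ℕ) : ℝ) + 1) +
      ((B : ℝ) + 1) * (((H / H' : ℕ) : ℝ) + 1)) := by
    exact_mod_cast hfin
  have hU : (((⌊C₁ * H / L⌋₊ / H' : ℕ) : ℝ) + 1) ≤ 2 * C₁ * H / (L * H') := by
    have h8 : ((⌊C₁ * H / L⌋₊ / H' : ℕ) : ℝ) ≤ C₁ * H / (L * H') := by
      refine Nat.cast_div_le.trans ?_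
      rw [← div_div]
      refine div_le_div_of_nonneg_right (Nat.floor_le (by positivity)) (by positivity)
    have h9 : 1 ≤ C₁ * H / (L * H') := by
      rw [one_le_div (by positivity)]
      exact hHLH'.trans (le_mul_of_one_le_left (by positivity) hC₁)
    have h10 : 2 * C₁ * H / (L * H') = C₁ * H / (L * H') + C₁ * H / (L * H') := by ring
    linarith
  have hHH : (((H / H' : ℕ) : ℝ) + 1) ≤ 2 * H / H' := by
    have h8 : ((H / H' : ℕ) : ℝ) ≤ H / H' := Nat.cast_div_le
    have h9 : 1 ≤ (H : ℝ) / H' := by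
      rw [one_le_div (by positivity)]
      exact hH'H
    have h10 : 2 * (H : ℝ) / H' = H / H' + H / H' := by ring
    linarith
  have hF0 : (0 : ℝ) ≤ F := by positivity
  have hB0 : (0 : ℝ) ≤ B := by positivity
  -- the error terms
  have herr : 2 * (((B : ℝ) + 1) * (((H / H' : ℕ) : ℝ) + 1)) ≤ c * N / (4 * L * H') := by
    have h8 : ((B : ℝ) + 1) * (((H / H' : ℕ) : ℝ) + 1) ≤
        (2 + N * L ^ E / (H : ℝ) ^ 2) * (2 * H / H') := by
      refine mul_le_mul (by linarith) hHH (by positivity) (by positivity)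
    have h9 : 2 * ((2 + N * L ^ E / (H : ℝ) ^ 2) * (2 * H / H')) =
        (8 * H + 4 * (N * L ^ E / H)) / H' := by
      field_simp
      ring
    have h10 : 8 * (H : ℝ) + 4 * (N * L ^ E / H) ≤ c * N / (4 * L) := by
      have e1 : 8 * (H : ℝ) ≤ c * N / (8 * L) := by
        rw [le_div_iff₀ (by positivity)]
        have e2 : (64 * L * H) ^ 2 ≤ (c * N) ^ 2 := by
          have e3 : 1024 * L ^ 2 ≤ c ^ 2 * N := by
            have e4 := mul_le_mul_of_nonneg_left h5 (by positivity : (0 : ℝ) ≤ c ^ 2)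
            have e5 : c ^ 2 * (1024 / c ^ 2 * L ^ 2) = 1024 * L ^ 2 := by field_simp
            linarith
          calc (64 * L * H) ^ 2 = 1024 * L ^ 2 * (4 * (H : ℝ) ^ 2) := by ring
            _ ≤ 1024 * L ^ 2 * N := mul_le_mul_of_nonneg_left hHN (by positivity)
            _ ≤ c ^ 2 * N * N := mul_le_mul_of_nonneg_right e3 (by positivity)
            _ = (c * N) ^ 2 := by ring
        have e6 := (pow_le_pow_iff_left₀ (by positivity) (by positivity) two_ne_zero).1 e2
        linarith
      have e7 : 4 * (N * L ^ E / H) ≤ c * N / (8 * L) := by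
        have e8 : N * L ^ E / H ≤ N * L ^ E / L ^ (K + E + 3) :=
          div_le_div_of_nonneg_left (by positivity) (by positivity) hHbig
        have e9 : N * L ^ E / L ^ (K + E + 3) = N / (L * (L ^ K * L ^ 2)) := by
          have : L ^ (K + E + 3) = L ^ E * (L * (L ^ K * L ^ 2)) := by ring
          rw [this, mul_comm (N : ℝ), mul_div_mul_left _ _ (hLpos E).ne']
        have e10 : (N : ℝ) / (L * (L ^ K * L ^ 2)) ≤ c * N / (32 * L) := by
          rw [div_le_div_iff₀ (by positivity) (by positivity)]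
          have e11 : 32 ≤ c * (L ^ K * L ^ 2) := by
            have e12 : 32 ≤ c * L := by
              rw [div_le_iff₀ hc] at h6'
              linarith
            have e13 : L ≤ L ^ K * L ^ 2 := by
              have := hLK1 K
              have e14 : L ≤ L ^ 2 := by
                rw [sq]
                exact le_mul_of_one_le_left hL0.le (by linarith)
              have e15 : L ^ 2 ≤ L ^ K * L ^ 2 := le_mul_of_one_le_left (by positivity) this
              linarith
            exact e12.trans (mul_le_mul_of_nonneg_left e13 hc.le)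
          have e16 : 0 ≤ (N : ℝ) * L := by positivity
          have e17 := mul_le_mul_of_nonneg_left e11 e16
          linarith
        have e17 : c * N / (8 * L) = 4 * (c * N / (32 * L)) := by
          field_simp
          norm_num
        rw [e17]
        linarith
      have e18 : c * N / (4 * L) = c * N / (8 * L) + c * N / (8 * L) := by
        field_simp
        norm_num
      linarith
    calc 2 * (((B : ℝ) + 1) * (((H / H' : ℕ) : ℝ) + 1)) ≤
        2 * ((2 + N * L ^ E / (H : ℝ) ^ 2) * (2 * H / H')) := by linarith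
      _ = (8 * H + 4 * (N * L ^ E / H)) / H' := h9
      _ ≤ (c * N / (4 * L)) / H' := div_le_div_of_nonneg_right h10 (by positivity)
      _ = c * N / (4 * L * H') := by rw [div_div]
  have hDlow : c * N / (2 * L * H') ≤ D := by
    refine le_trans ?_ hD
    rw [← div_div]
    refine div_le_div_of_nonneg_right ?_ (by positivity)
    have e1 : c * N / (2 * L) = c * (N / (2 * L)) := by ring
    rw [e1]
    exact mul_le_mul_of_nonneg_left hN' hc.le
  have hmain : c * N / (4 * L * H') ≤ 2 * ((F : ℝ) * (2 * C₁ * H / (L * H'))) := by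
    have e1 : (F : ℝ) * (((⌊C₁ * H / L⌋₊ / H' : ℕ) : ℝ) + 1) ≤ F * (2 * C₁ * H / (L * H')) :=
      mul_le_mul_of_nonneg_left hU hF0
    have e2 : c * N / (2 * L * H') = c * N / (4 * L * H') + c * N / (4 * L * H') := by
      field_simp
      norm_num
    linarith
  have hX : (0 : ℝ) < 1 / (4 * L * H') := by positivity
  have e1 : c * N / (4 * L * H') = (c * N) * (1 / (4 * L * H')) := by ring
  have e2 : 2 * ((F : ℝ) * (2 * C₁ * H / (L * H'))) = (16 * C₁ * H * F) * (1 / (4 * L * H')) := by
    field_simp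
    norm_num
    ring
  rw [e1, e2] at hmain
  have e3 := le_of_mul_le_mul_right hmain hX
  rw [div_mul_eq_mul_div, div_div, div_le_iff₀ (by positivity)]
  linarith

theorem hit (R : ℕ) : HitP R := by
  induction R with
  | zero => exact hit_zero
  | succ R ih => exact hit_step R ih

end Pool.Agent.Lib.MP_e3f158_nt.D2
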