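import Mathlib
import Pool.Agent.Lib.BV.DivMom

/-!
# Sum of `1 / lcm` over quadruples

PROOF. Group the quadruples by `l = lcm (lcm d₁ d₂) (lcm d₃ d₄)`, `1 ≤ l ≤ R ^ 4`; the number of
quadruples with given `l` is at most `(l.divisors.card) ^ 4`. So the sum is
`≤ ∑_{l ≤ R^4} τ(l)^4 / l ≤ (1 + log (R^4)) ^ E` by `Pool.BV.div_mom 4`.
-/

namespace Pool.Agent.Lib.MP_e3f158_nt.D2

open Finset

theorem lcm4 : ∃ E : ℕ, ∀ R : ℕ, 1 ≤ R →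
    ∑ d₁ ∈ Icc 1 R, ∑ d₂ ∈ Icc 1 R, ∑ d₃ ∈ Icc 1 R, ∑ d₄ ∈ Icc 1 R,
      (1 : ℝ) / (Nat.lcm (Nat.lcm d₁ d₂) (Nat.lcm d₃ d₄) : ℕ) ≤ (1 + 4 * Real.log R) ^ E := by
  obtain ⟨E, hE⟩ := Pool.BV.div_mom 4
  refine ⟨E, fun R hR => ?_⟩
  have h1 := (hE (R ^ 4) (Nat.one_le_pow _ _ hR)).2
  have h2 : Real.log ((R ^ 4 : ℕ) : ℝ) = 4 * Real.log R := by
    push_cast
    rw [Real.log_pow]
    norm_num
  rw [h2] at h1
  refine le_trans ?_ h1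
  simp only [← sum_product']
  have hmap : ∀ p ∈ (Icc 1 R ×ˢ Icc 1 R ×ˢ Icc 1 R ×ˢ Icc 1 R : Finset (ℕ × ℕ × ℕ × ℕ)),
      Nat.lcm (Nat.lcm p.1 p.2.1) (Nat.lcm p.2.2.1 p.2.2.2) ∈ Icc 1 (R ^ 4) := by
    rintro ⟨a, b, c, d⟩ hp
    simp only [mem_product, mem_Icc] at hp ⊢
    obtain ⟨⟨ha, ha'⟩, ⟨hb, hb'⟩, ⟨hc, hc'⟩, ⟨hd, hd'⟩⟩ := hp
    constructor
    · exact Nat.pos_of_ne_zero (Nat.lcm_ne_zero (Nat.lcm_ne_zero (by omega) (by omega))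
        (Nat.lcm_ne_zero (by omega) (by omega)))
    · have e1 : Nat.lcm a b ≤ R * R :=
        (Nat.le_of_dvd (Nat.mul_pos ha hb) (Nat.lcm_dvd_mul a b)).trans (Nat.mul_le_mul ha' hb')
      have e2 : Nat.lcm c d ≤ R * R :=
        (Nat.le_of_dvd (Nat.mul_pos hc hd) (Nat.lcm_dvd_mul c d)).trans (Nat.mul_le_mul hc' hd')
      have e3 : 0 < Nat.lcm a b := Nat.pos_of_ne_zero (Nat.lcm_ne_zero (by omega) (by omega))
      have e4 : 0 < Nat.lcm c d := Nat.pos_of_ne_zero (Nat.lcm_ne_zero (by omega) (by omega))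
      refine ((Nat.le_of_dvd (Nat.mul_pos e3 e4) (Nat.lcm_dvd_mul _ _)).trans
        (Nat.mul_le_mul e1 e2)).trans (le_of_eq (by ring))
  rw [← sum_fiberwise_of_maps_to hmap]
  refine sum_le_sum fun l hl => ?_
  rw [mem_Icc] at hl
  have hcard : ((Icc 1 R ×ˢ Icc 1 R ×ˢ Icc 1 R ×ˢ Icc 1 R).filter
      fun p : ℕ × ℕ × ℕ × ℕ =>
        Nat.lcm (Nat.lcm p.1 p.2.1) (Nat.lcm p.2.2.1 p.2.2.2) = l).card ≤ l.divisors.card ^ 4 := by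
    have hsub : ((Icc 1 R ×ˢ Icc 1 R ×ˢ Icc 1 R ×ˢ Icc 1 R).filter
      fun p : ℕ × ℕ × ℕ × ℕ =>
        Nat.lcm (Nat.lcm p.1 p.2.1) (Nat.lcm p.2.2.1 p.2.2.2) = l) ⊆
        l.divisors ×ˢ l.divisors ×ˢ l.divisors ×ˢ l.divisors := by
      rintro ⟨a, b, c, d⟩ hp
      simp only [mem_filter, mem_product, Nat.mem_divisors] at hp ⊢
      obtain ⟨_, rfl⟩ := hp
      have hl0 : ((a.lcm b).lcm (c.lcm d)) ≠ 0 := by omega
      refine ⟨⟨?_, hl0⟩, ⟨?_, hl0⟩, ⟨?_, hl0⟩, ⟨?_, hl0⟩⟩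
      · exact (Nat.dvd_lcm_left a b).trans (Nat.dvd_lcm_left _ _)
      · exact (Nat.dvd_lcm_right a b).trans (Nat.dvd_lcm_left _ _)
      · exact (Nat.dvd_lcm_left c d).trans (Nat.dvd_lcm_right _ _)
      · exact (Nat.dvd_lcm_right c d).trans (Nat.dvd_lcm_right _ _)
    refine (card_le_card hsub).trans (le_of_eq ?_)
    simp only [card_product]
    ring
  have hl0 : (0 : ℝ) < l := by exact_mod_cast hl.1
  calc _ = ∑ p ∈ (Icc 1 R ×ˢ Icc 1 R ×ˢ Icc 1 R ×ˢ Icc 1 R).filter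
        (fun p : ℕ × ℕ × ℕ × ℕ =>
          Nat.lcm (Nat.lcm p.1 p.2.1) (Nat.lcm p.2.2.1 p.2.2.2) = l), (1 : ℝ) / l := by
        refine sum_congr rfl fun p hp => ?_
        rw [mem_filter] at hp
        rw [hp.2]
    _ = (((Icc 1 R ×ˢ Icc 1 R ×ˢ Icc 1 R ×ˢ Icc 1 R).filter
        (fun p : ℕ × ℕ × ℕ × ℕ =>
          Nat.lcm (Nat.lcm p.1 p.2.1) (Nat.lcm p.2.2.1 p.2.2.2) = l)).card : ℝ) * (1 / l) := by
        rw [sum_const, nsmul_eq_mul]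
    _ ≤ ((l.divisors.card ^ 4 : ℕ) : ℝ) * (1 / l) := by
        apply mul_le_mul_of_nonneg_right _ (by positivity)
        exact_mod_cast hcard
    _ = _ := by push_cast; ring

end Pool.Agent.Lib.MP_e3f158_nt.D2
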