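import Pool.Agent.Lib.MP_e3f158_nt.D2.Variance
import Pool.Agent.Lib.MP_e3f158_nt.D2.Lcm4
import Pool.Agent.Lib.MP_67663b_nt.MR.SieveW

/-!
# Few short intervals contain too many primes (absolute constant)
-/

namespace Pool.Agent.Lib.MP_e3f158_nt.D2

open Finset Filter

private theorem ld_major (R H m : ℕ) (hR : 1 ≤ R) (hm : R ≤ m) (ρ : ℕ → ℝ) (h1 : ρ 1 = 1) :
    (cnt m H : ℝ) ≤ ∑ h ∈ Ioc 0 H, (∑ d ∈ (Icc 1 R).filter (fun d => d ∣ m + h), ρ d) ^ 2 := by
  unfold cnt
  rw [card_filter]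
  push_cast
  refine sum_le_sum fun h hh => ?_
  split_ifs with hp
  · have : (Icc 1 R).filter (fun d => d ∣ m + h) = {1} := by
      ext d
      rw [mem_filter, mem_Icc, mem_singleton]
      constructor
      · rintro ⟨⟨h1, h2⟩, h3⟩
        rcases (Nat.dvd_prime hp).1 h3 with h4 | h4
        · exact h4
        · rw [mem_Ioc] at hh
          omega
      · rintro rfl
        exact ⟨⟨le_refl _, hR⟩, one_dvd _⟩
    rw [this, sum_singleton, h1]
    norm_num
  · positivity

/-- Chebyshev's inequality. -/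
private theorem ld_cheb (N : ℕ) (S : Finset ℕ) (hS : S ⊆ range N) (V : ℕ → ℝ) (μ δ B : ℝ)
    (hδ : 0 < δ) (hB : ∑ m ∈ range N, (V m - μ) ^ 2 ≤ B) (h : ∀ m ∈ S, δ ≤ V m - μ) :
    (S.card : ℝ) ≤ B / δ ^ 2 := by
  rw [le_div_iff₀ (by positivity)]
  calc (S.card : ℝ) * δ ^ 2 = ∑ m ∈ S, δ ^ 2 := by rw [sum_const, nsmul_eq_mul]
    _ ≤ ∑ m ∈ S, (V m - μ) ^ 2 := sum_le_sum fun m hm => by
        have := h m hm
        gcongr
    _ ≤ ∑ m ∈ range N, (V m - μ) ^ 2 :=
        sum_le_sum_of_subset_of_nonneg hS fun _ _ _ => by positivity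
    _ ≤ B := hB

theorem large_dev : ∃ C₀ : ℝ, 1 ≤ C₀ ∧ ∃ E : ℕ, ∀ᶠ N : ℕ in atTop, ∀ H : ℕ, 1 ≤ H →
    (H : ℝ) ^ 2 ≤ N →
    (((range N).filter fun m => C₀ * H < cnt m H * Real.log N).card : ℝ) ≤
      N * (Real.log N) ^ E / H := by
  obtain ⟨C, hC, hw⟩ := Pool.MP_67663b_nt.MR.sieve_weights
  obtain ⟨E, hE⟩ := lcm4
  refine ⟨32 * C + 1, by linarith, E + 3, ?_⟩
  have hL : Tendsto (fun N : ℕ => Real.log N) atTop atTop :=
    Real.tendsto_log_atTop.comp tendsto_natCast_atTop_atTop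
  have hexp : ∀ᶠ x : ℝ in atTop, 3 * (x * 4) ^ 2 ≤ Real.exp x := by
    filter_upwards [(Real.tendsto_exp_div_pow_atTop 2).eventually_ge_atTop 48,
      eventually_gt_atTop 0] with x h1 h2
    rw [le_div_iff₀ (by positivity)] at h1
    linarith
  have h4 : Tendsto (fun N : ℕ => Real.log N / 4) atTop atTop :=
    hL.atTop_div_const (by norm_num)
  filter_upwards [hL.eventually_ge_atTop 32, h4.eventually hexp] with N hL32 hL4 H hH hHN
  set L : ℝ := Real.log N with hLdef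
  have hL0 : 0 < L := by linarith
  have hNpos : 0 < (N : ℝ) := by
    rcases Nat.eq_zero_or_pos N with h | h
    · exfalso
      rw [hLdef, h] at hL32
      simp at hL32
      linarith
    · exact_mod_cast h
  have hNexp : Real.exp L = N := Real.exp_log hNpos
  have hl2 := Real.log_two_lt_d9
  have hl2' : 0 < Real.log 2 := Real.log_pos (by norm_num)
  -- the level
  set R : ℕ := ⌊Real.exp (L / 16)⌋₊ with hR
  have hR1 : (R : ℝ) ≤ Real.exp (L / 16) := Nat.floor_le (Real.exp_pos _).le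
  have hR2 : Real.exp (L / 16) < R + 1 := Nat.lt_floor_add_one _
  have he3 : (3 : ℝ) ≤ Real.exp (L / 16) := by
    have := Real.add_one_le_exp (L / 16)
    linarith
  have hR3 : Real.exp (L / 16) / 2 ≤ R := by linarith
  have hR4 : (2 : ℝ) ≤ R := by linarith
  have hR5 : 2 ≤ R := by exact_mod_cast hR4
  have hRpos : (0 : ℝ) < R := by linarith
  have hlR : L / 32 ≤ Real.log R := by
    have h1 : Real.log (Real.exp (L / 16) / 2) ≤ Real.log R := Real.log_le_log (by positivity) hR3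
    rw [Real.log_div (Real.exp_pos _).ne' (by norm_num), Real.log_exp] at h1
    linarith
  have hlR2 : Real.log R ≤ L / 16 := by
    rw [Real.log_le_iff_le_exp hRpos]
    exact hR1
  have hlR0 : 0 < Real.log R := by linarith
  obtain ⟨ρ, hρ1, hρ2, _, hρ4⟩ := hw R hR5
  set V : ℕ → ℝ := fun m => ∑ h ∈ Ioc 0 H, (∑ d ∈ (Icc 1 R).filter (fun d => d ∣ m + h), ρ d) ^ 2
    with hV
  set μ : ℝ := H * ∑ d ∈ Icc 1 R, ∑ e ∈ Icc 1 R, ρ d * ρ e / (Nat.lcm d e : ℝ) with hμ
  have hHpos : (0 : ℝ) < H := by exact_mod_cast hH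
  have hμ1 : μ ≤ 32 * C * H / L := by
    calc μ ≤ H * (C / Real.log R) := by
          rw [hμ]
          exact mul_le_mul_of_nonneg_left hρ4 hHpos.le
      _ ≤ H * (C / (L / 32)) := by gcongr
      _ = 32 * C * H / L := by field_simp
  have hvar := variance N H R ρ hρ2
  have h4sum := hE R (by omega)
  have hlog1 : 1 + 4 * Real.log R ≤ L := by linarith
  have hlog0 : 0 ≤ 1 + 4 * Real.log R := by linarith
  have hB : ∑ m ∈ range N, (V m - μ) ^ 2 ≤ N * H * L ^ E + 3 * (H : ℝ) ^ 2 * (R : ℝ) ^ 4 := by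
    refine hvar.trans ?_
    gcongr
    exact h4sum.trans (pow_le_pow_left₀ hlog0 hlog1 E)
  -- the two parts
  set S2 := (range N).filter fun m => R ≤ m ∧ (32 * C + 1) * H < cnt m H * L with hS2
  have hcov : ((range N).filter fun m => (32 * C + 1) * H < cnt m H * L) ⊆ range R ∪ S2 := by
    intro m hm
    rw [mem_filter] at hm
    rw [mem_union, mem_range, hS2, mem_filter]
    by_cases h : m < R
    · exact Or.inl h
    · exact Or.inr ⟨hm.1, not_lt.1 h, hm.2⟩
  have hc1 : (((range N).filter fun m => (32 * C + 1) * H < cnt m H * L).card : ℝ) ≤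
      R + S2.card := by
    have h1 := (card_le_card hcov).trans (card_union_le _ _)
    rw [card_range] at h1
    exact_mod_cast h1
  have hS2c := ld_cheb N S2 (filter_subset _ _) V μ (H / L) _ (by positivity) hB (by
    intro m hm
    rw [hS2, mem_filter] at hm
    have h1 := ld_major R H m (by omega) hm.2.1 ρ hρ1
    have h2 : (32 * C + 1) * H / L < V m := by
      rw [div_lt_iff₀ hL0]
      refine lt_of_lt_of_le hm.2.2 ?_
      exact mul_le_mul_of_nonneg_right h1 hL0.le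
    have h3 : (32 * C + 1) * H / L = 32 * C * H / L + H / L := by ring
    linarith)
  -- numerical bounds
  have hsq : (H : ℝ) ≤ Real.exp (L / 2) := by
    have h1 : Real.exp (L / 2) ^ 2 = N := by
      rw [← Real.exp_nat_mul, ← hNexp]
      congr 1
      push_cast
      ring
    rw [← h1] at hHN
    exact le_of_sq_le_sq hHN (Real.exp_pos _).le
  have hNH : Real.exp (L / 2) ≤ N / H := by
    rw [le_div_iff₀ hHpos]
    calc Real.exp (L / 2) * H ≤ Real.exp (L / 2) * Real.exp (L / 2) := by gcongr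
      _ = N := by rw [← Real.exp_add, ← hNexp]; congr 1; ring
  have hRN : (R : ℝ) ≤ N / H := by
    refine hR1.trans (le_trans ?_ hNH)
    exact Real.exp_le_exp.2 (by linarith)
  have hR4N : 3 * (R : ℝ) ^ 4 * L ^ 2 ≤ N / H := by
    have h1 : (R : ℝ) ^ 4 ≤ Real.exp (L / 4) := by
      calc (R : ℝ) ^ 4 ≤ Real.exp (L / 16) ^ 4 := by gcongr
        _ = Real.exp (L / 4) := by rw [← Real.exp_nat_mul]; congr 1; push_cast; ring
    have h2 : 3 * L ^ 2 ≤ Real.exp (L / 4) := by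
      have : 3 * (L / 4 * 4) ^ 2 ≤ Real.exp (L / 4) := hL4
      rwa [div_mul_cancel₀ _ (by norm_num : (4 : ℝ) ≠ 0)] at this
    calc 3 * (R : ℝ) ^ 4 * L ^ 2 = (R : ℝ) ^ 4 * (3 * L ^ 2) := by ring
      _ ≤ Real.exp (L / 4) * Real.exp (L / 4) := by gcongr
      _ = Real.exp (L / 2) := by rw [← Real.exp_add]; congr 1; ring
      _ ≤ N / H := hNH
  have hfin : (N * H * L ^ E + 3 * (H : ℝ) ^ 2 * (R : ℝ) ^ 4) / (H / L) ^ 2 ≤
      N * L ^ (E + 2) / H + N / H := by
    have h1 : (N * H * L ^ E + 3 * (H : ℝ) ^ 2 * (R : ℝ) ^ 4) / (H / L) ^ 2 =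
        N * L ^ (E + 2) / H + 3 * (R : ℝ) ^ 4 * L ^ 2 := by
      field_simp
      ring
    rw [h1]
    linarith
  have hN0 : 0 ≤ (N : ℝ) / H := by positivity
  have hLE : (1 : ℝ) ≤ L ^ (E + 2) := one_le_pow₀ (by linarith)
  calc (((range N).filter fun m => (32 * C + 1) * H < cnt m H * L).card : ℝ)
      ≤ R + S2.card := hc1
    _ ≤ N / H + (N * L ^ (E + 2) / H + N / H) := by linarith
    _ = N / H * (L ^ (E + 2) + 2) := by ring
    _ ≤ N / H * (L ^ (E + 2) * L) := by
        refine mul_le_mul_of_nonneg_left ?_ hN0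
        nlinarith
    _ = N * L ^ (E + 3) / H := by ring

end Pool.Agent.Lib.MP_e3f158_nt.D2
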