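import Pool.Agent.Lib.MP_e3f158_nt.D2.Defs

/-!
# Correlations of the discrepancies `psi`

PROOF. `psi H e m = ∑_{h ∈ Ioc 0 H} ([e ∣ m + h] - 1/e)`. So
`∑_{m < N} psi_e psi_f = ∑_{h, h' ∈ Ioc 0 H} (c_{ef}(h, h') - c_e(h)/f - c_f(h')/e + N/(e f))`, with
`c_e(h) = #{m < N : e ∣ m + h} = N/e + θ`, `|θ| ≤ 1` (`card_class` in `Brun.lean` after rewriting
`e ∣ m + h ↔ m ≡ v [MOD e]`), and `c_{ef}(h, h') = #{m < N : e ∣ m + h ∧ f ∣ m + h'}`, which is
`0` if `gcd e f ∤ h - h'` and `N / lcm e f + θ'`, `|θ'| ≤ 1`, otherwise (generalised CRT: the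
solutions form one class mod `lcm e f`: if `m₀` is a solution then
`m` is one iff `lcm e f ∣ m - m₀`; if there is no solution in `ℕ` at all the count is `0` and one has
to know that `gcd ∣ h - h'` implies there is a solution: `Nat.chineseRemainder'`).
With `g = gcd e f`, `l = lcm e f`, `e f = g l`: the sum is
`(N / l) ∑_{h,h'} ([g ∣ h - h'] - 1/g) + err`, `|err| ≤ ∑_{h,h'} (1 + 1/f + 1/e) ≤ 3 H²`, and for fixed
`h` the number of `h' ∈ Ioc 0 H` with `g ∣ h - h'` is `H/g + θ''`, `|θ''| ≤ 1`; so the main term is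
`≤ (N / l) H` in absolute value.
-/

namespace Pool.Agent.Lib.MP_e3f158_nt.D2

open Finset

private theorem dvd_add_iff_modEq {e : ℕ} (he : 0 < e) (h m : ℕ) :
    e ∣ m + h ↔ m ≡ (e - 1) * h [MOD e] := by
  have h1 : (e - 1) * h + h = e * h := by
    obtain ⟨d, rfl⟩ : ∃ d, e = d + 1 := ⟨e - 1, by omega⟩
    simp
    ring
  constructor
  · intro hd
    have h2 : m + h ≡ (e - 1) * h + h [MOD e] := by
      rw [h1]
      exact ((Nat.modEq_zero_iff_dvd.2 hd).trans (Nat.modEq_zero_iff_dvd.2 (dvd_mul_right e h)).symm)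
    exact Nat.ModEq.add_right_cancel' h h2
  · intro hm
    have h2 : m + h ≡ (e - 1) * h + h [MOD e] := hm.add_right h
    rw [h1] at h2
    exact Nat.modEq_zero_iff_dvd.1 (h2.trans (Nat.modEq_zero_iff_dvd.2 (dvd_mul_right e h)))

private theorem card_one (N e h : ℕ) (he : 0 < e) :
    |(((range N).filter fun m => e ∣ m + h).card : ℝ) - (N : ℝ) / e| ≤ 1 := by
  have h1 : ((range N).filter fun m => e ∣ m + h) = (range N).filter fun m => m ≡ (e - 1) * h [MOD e] :=
    filter_congr fun m _ => dvd_add_iff_modEq he h m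
  rw [h1]
  exact card_class N e _ he

private theorem card_h (H g h : ℕ) (hg : 0 < g) :
    |(((Ioc 0 H).filter fun h' => h ≡ h' [MOD g]).card : ℝ) - (H : ℝ) / g| ≤ 1 := by
  have h1 : ((Ioc 0 H).filter fun h' => h ≡ h' [MOD g]).card =
      ((range H).filter fun i => i ≡ h + (g - 1) [MOD g]).card := by
    symm
    refine card_bij (fun i _ => i + 1) ?_ ?_ ?_
    · intro i hi
      rw [mem_filter, mem_range] at hi
      rw [mem_filter, mem_Ioc]
      refine ⟨⟨by omega, by omega⟩, ?_⟩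
      have h2 : i + 1 ≡ h + (g - 1) + 1 [MOD g] := hi.2.add_right 1
      have h3 : h + (g - 1) + 1 = h + g := by omega
      rw [h3] at h2
      exact (h2.trans (Nat.add_modEq_right)).symm
    · intro a _ b _ hab
      simpa using hab
    · intro b hb
      rw [mem_filter, mem_Ioc] at hb
      refine ⟨b - 1, ?_, by omega⟩
      rw [mem_filter, mem_range]
      refine ⟨by omega, ?_⟩
      apply Nat.ModEq.add_right_cancel' 1
      have h3 : h + (g - 1) + 1 = h + g := by omega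
      have h4 : b - 1 + 1 = b := by omega
      rw [h3, h4]
      exact hb.2.symm.trans Nat.add_modEq_right.symm
  rw [h1]
  exact card_class H g _ hg

private theorem card_two (N e f h h' : ℕ) (he : 0 < e) (hf : 0 < f) :
    |(((range N).filter fun m => e ∣ m + h ∧ f ∣ m + h').card : ℝ) -
      (if h ≡ h' [MOD Nat.gcd e f] then (N : ℝ) / (Nat.lcm e f : ℕ) else 0)| ≤ 1 := by
  by_cases hc : h ≡ h' [MOD Nat.gcd e f]
  · rw [if_pos hc]
    have hab : (e - 1) * h ≡ (f - 1) * h' [MOD Nat.gcd e f] := by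
      have h1 : Nat.gcd e f ∣ (e - 1) * h + h :=
        (Nat.gcd_dvd_left e f).trans ((dvd_add_iff_modEq he h _).2 (Nat.ModEq.refl _))
      have h2 : Nat.gcd e f ∣ (f - 1) * h' + h' :=
        (Nat.gcd_dvd_right e f).trans ((dvd_add_iff_modEq hf h' _).2 (Nat.ModEq.refl _))
      have h3 : (e - 1) * h + h ≡ (f - 1) * h' + h' [MOD Nat.gcd e f] :=
        (Nat.modEq_zero_iff_dvd.2 h1).trans (Nat.modEq_zero_iff_dvd.2 h2).symm
      exact Nat.ModEq.add_right_cancel hc h3
    obtain ⟨m0, hm0, hm1⟩ := Nat.chineseRemainder' hab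
    have h1 : ((range N).filter fun m => e ∣ m + h ∧ f ∣ m + h') =
        (range N).filter fun m => m ≡ m0 [MOD Nat.lcm e f] := by
      refine filter_congr fun m _ => ?_
      rw [dvd_add_iff_modEq he h m, dvd_add_iff_modEq hf h' m]
      constructor
      · rintro ⟨h2, h3⟩
        have h4 := h2.trans hm0.symm
        have h5 := h3.trans hm1.symm
        rw [Nat.modEq_iff_dvd] at h4 h5 ⊢
        have h6 : e ∣ ((m0 : ℤ) - m).natAbs := Int.natCast_dvd.1 h4
        have h7 : f ∣ ((m0 : ℤ) - m).natAbs := Int.natCast_dvd.1 h5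
        exact Int.natCast_dvd.2 (Nat.lcm_dvd h6 h7)
      · intro h2
        exact ⟨(h2.of_dvd (Nat.dvd_lcm_left e f)).trans hm0,
          (h2.of_dvd (Nat.dvd_lcm_right e f)).trans hm1⟩
    rw [h1]
    exact card_class N _ _ (Nat.lcm_pos he hf)
  · rw [if_neg hc]
    have h1 : ((range N).filter fun m => e ∣ m + h ∧ f ∣ m + h') = ∅ := by
      rw [filter_eq_empty_iff]
      rintro m _ ⟨h2, h3⟩
      apply hc
      have h4 : m + h ≡ m + h' [MOD Nat.gcd e f] :=
        (Nat.modEq_zero_iff_dvd.2 ((Nat.gcd_dvd_left e f).trans h2)).trans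
          (Nat.modEq_zero_iff_dvd.2 ((Nat.gcd_dvd_right e f).trans h3)).symm
      exact Nat.ModEq.add_left_cancel' m h4
    rw [h1]
    simp

private theorem psi_eq_sum (H e m : ℕ) :
    psi H e m = ∑ h ∈ Ioc 0 H, ((if e ∣ m + h then (1 : ℝ) else 0) - 1 / e) := by
  unfold psi
  rw [sum_sub_distrib, sum_const, Nat.card_Ioc, card_filter]
  push_cast
  simp only [Nat.sub_zero, nsmul_eq_mul]
  ring

theorem psi_corr (N H e f : ℕ) (he : 0 < e) (hf : 0 < f) :
    |∑ m ∈ range N, psi H e m * psi H f m| ≤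
      (N : ℝ) * H * (1 / (Nat.lcm e f : ℕ)) + 3 * (H : ℝ) ^ 2 := by
  have heR : (0 : ℝ) < e := by exact_mod_cast he
  have hfR : (0 : ℝ) < f := by exact_mod_cast hf
  have hg : 0 < Nat.gcd e f := Nat.gcd_pos_of_pos_left f he
  have hl : 0 < Nat.lcm e f := Nat.lcm_pos he hf
  have hgR : (0 : ℝ) < (Nat.gcd e f : ℕ) := by exact_mod_cast hg
  have hlR : (0 : ℝ) < (Nat.lcm e f : ℕ) := by exact_mod_cast hl
  have hgl : ((Nat.gcd e f : ℕ) : ℝ) * (Nat.lcm e f : ℕ) = e * f := by
    exact_mod_cast Nat.gcd_mul_lcm e f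
  have he1 : (1 : ℝ) / e ≤ 1 := by
    rw [div_le_one heR]
    exact_mod_cast he
  have hf1 : (1 : ℝ) / f ≤ 1 := by
    rw [div_le_one hfR]
    exact_mod_cast hf
  -- expansion
  have hexp : ∑ m ∈ range N, psi H e m * psi H f m =
      ∑ h ∈ Ioc 0 H, ∑ h' ∈ Ioc 0 H,
        ((((range N).filter fun m => e ∣ m + h ∧ f ∣ m + h').card : ℝ)
          - (((range N).filter fun m => e ∣ m + h).card : ℝ) / f
          - (((range N).filter fun m => f ∣ m + h').card : ℝ) / e + (N : ℝ) / (e * f)) := by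
    have h1 : ∀ m ∈ range N, psi H e m * psi H f m =
        ∑ h ∈ Ioc 0 H, ∑ h' ∈ Ioc 0 H, (((if e ∣ m + h then (1 : ℝ) else 0) - 1 / e) *
          ((if f ∣ m + h' then (1 : ℝ) else 0) - 1 / f)) := by
      intro m _
      rw [psi_eq_sum, psi_eq_sum, sum_mul_sum]
    rw [sum_congr rfl h1, sum_comm]
    refine sum_congr rfl fun h _ => ?_
    rw [sum_comm]
    refine sum_congr rfl fun h' _ => ?_
    have h2 : ∀ m ∈ range N, (((if e ∣ m + h then (1 : ℝ) else 0) - 1 / e) *
          ((if f ∣ m + h' then (1 : ℝ) else 0) - 1 / f)) =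
        (if e ∣ m + h ∧ f ∣ m + h' then (1 : ℝ) else 0) - (if e ∣ m + h then (1 : ℝ) else 0) / f
          - (if f ∣ m + h' then (1 : ℝ) else 0) / e + 1 / (e * f) := by
      intro m _
      by_cases c1 : e ∣ m + h
      · by_cases c2 : f ∣ m + h'
        · simp only [c1, c2, and_self, if_true]
          field_simp
          ring
        · simp only [c1, c2, and_false, if_true, if_false]
          field_simp
          ring
      · by_cases c2 : f ∣ m + h'
        · simp only [c1, c2, false_and, if_true, if_false]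
          field_simp
          ring
        · simp only [c1, c2, and_self, if_false]
          field_simp
          ring
    rw [sum_congr rfl h2, sum_add_distrib, sum_sub_distrib, sum_sub_distrib, ← sum_div, ← sum_div,
      sum_const, card_range, card_filter, card_filter, card_filter]
    push_cast
    rw [nsmul_eq_mul]
    ring
  rw [hexp]
  -- main term
  have hmain : ∀ h ∈ Ioc 0 H, |∑ h' ∈ Ioc 0 H,
      ((if h ≡ h' [MOD Nat.gcd e f] then (N : ℝ) / (Nat.lcm e f : ℕ) else 0) - (N : ℝ) / (e * f))| ≤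
        (N : ℝ) / (Nat.lcm e f : ℕ) := by
    intro h _
    have h1 := card_h H (Nat.gcd e f) h hg
    have h2 : ∑ h' ∈ Ioc 0 H,
      ((if h ≡ h' [MOD Nat.gcd e f] then (N : ℝ) / (Nat.lcm e f : ℕ) else 0) - (N : ℝ) / (e * f)) =
        (N : ℝ) / (Nat.lcm e f : ℕ) *
          ((((Ioc 0 H).filter fun h' => h ≡ h' [MOD Nat.gcd e f]).card : ℝ) -
            (H : ℝ) / (Nat.gcd e f : ℕ)) := by
      rw [sum_sub_distrib, sum_const, Nat.card_Ioc, ← sum_filter, sum_const, nsmul_eq_mul,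
        nsmul_eq_mul, ← hgl, Nat.sub_zero]
      field_simp
    rw [h2, abs_mul, abs_of_nonneg (by positivity)]
    calc (N : ℝ) / (Nat.lcm e f : ℕ) * _ ≤ (N : ℝ) / (Nat.lcm e f : ℕ) * 1 :=
          mul_le_mul_of_nonneg_left h1 (by positivity)
      _ = _ := mul_one _
  have herr : ∀ h ∈ Ioc 0 H, ∀ h' ∈ Ioc 0 H,
      |((((range N).filter fun m => e ∣ m + h ∧ f ∣ m + h').card : ℝ)
          - (((range N).filter fun m => e ∣ m + h).card : ℝ) / f
          - (((range N).filter fun m => f ∣ m + h').card : ℝ) / e + (N : ℝ) / (e * f)) -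
        ((if h ≡ h' [MOD Nat.gcd e f] then (N : ℝ) / (Nat.lcm e f : ℕ) else 0) - (N : ℝ) / (e * f))|
          ≤ 3 := by
    intro h _ h' _
    have h1 := abs_le.1 (card_two N e f h h' he hf)
    have h2 := abs_le.1 (card_one N e h he)
    have h3 := abs_le.1 (card_one N f h' hf)
    set a : ℝ := (((range N).filter fun m => e ∣ m + h ∧ f ∣ m + h').card : ℝ)
    set b : ℝ := (((range N).filter fun m => e ∣ m + h).card : ℝ)
    set c : ℝ := (((range N).filter fun m => f ∣ m + h').card : ℝ)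
    set I : ℝ := (if h ≡ h' [MOD Nat.gcd e f] then (N : ℝ) / (Nat.lcm e f : ℕ) else 0)
    have e1 : (a - b / f - c / e + (N : ℝ) / (e * f)) - (I - (N : ℝ) / (e * f)) =
        (a - I) - (b - N / e) * (1 / f) - (c - N / f) * (1 / e) := by
      field_simp
      ring
    rw [e1]
    have hf0 : (0 : ℝ) ≤ 1 / f := by positivity
    have he0 : (0 : ℝ) ≤ 1 / e := by positivity
    have k1 : |(b - N / e) * (1 / f)| ≤ 1 := by
      rw [abs_mul, abs_of_nonneg hf0]
      have := abs_le.2 h2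
      calc |b - N / e| * (1 / f) ≤ 1 * 1 := mul_le_mul this hf1 hf0 zero_le_one
        _ = 1 := one_mul 1
    have k2 : |(c - N / f) * (1 / e)| ≤ 1 := by
      rw [abs_mul, abs_of_nonneg he0]
      have := abs_le.2 h3
      calc |c - N / f| * (1 / e) ≤ 1 * 1 := mul_le_mul this he1 he0 zero_le_one
        _ = 1 := one_mul 1
    have k1' := abs_le.1 k1
    have k2' := abs_le.1 k2
    rw [abs_le]
    constructor <;> linarith [h1.1, h1.2, k1'.1, k1'.2, k2'.1, k2'.2]
  set T : ℕ → ℕ → ℝ := fun h h' => ((((range N).filter fun m => e ∣ m + h ∧ f ∣ m + h').card : ℝ)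
          - (((range N).filter fun m => e ∣ m + h).card : ℝ) / f
          - (((range N).filter fun m => f ∣ m + h').card : ℝ) / e + (N : ℝ) / (e * f)) with hT
  set M : ℕ → ℕ → ℝ := fun h h' => ((if h ≡ h' [MOD Nat.gcd e f] then
    (N : ℝ) / (Nat.lcm e f : ℕ) else 0) - (N : ℝ) / (e * f)) with hM
  have hsplit : ∑ h ∈ Ioc 0 H, ∑ h' ∈ Ioc 0 H, T h h' =
      ∑ h ∈ Ioc 0 H, ∑ h' ∈ Ioc 0 H, M h h' + ∑ h ∈ Ioc 0 H, ∑ h' ∈ Ioc 0 H, (T h h' - M h h') := by
    rw [← sum_add_distrib]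
    refine sum_congr rfl fun h _ => ?_
    rw [← sum_add_distrib]
    refine sum_congr rfl fun h' _ => ?_
    ring
  show |∑ h ∈ Ioc 0 H, ∑ h' ∈ Ioc 0 H, T h h'| ≤ _
  rw [hsplit]
  refine (abs_add_le _ _).trans (add_le_add ?_ ?_)
  · refine (abs_sum_le_sum_abs _ _).trans ((sum_le_sum hmain).trans ?_)
    rw [sum_const, Nat.card_Ioc, nsmul_eq_mul, Nat.sub_zero]
    apply le_of_eq
    ring
  · refine (abs_sum_le_sum_abs _ _).trans ?_
    calc ∑ h ∈ Ioc 0 H, |∑ h' ∈ Ioc 0 H, (T h h' - M h h')|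
        ≤ ∑ h ∈ Ioc 0 H, ∑ h' ∈ Ioc 0 H, (3 : ℝ) := by
          refine sum_le_sum fun h hh => (abs_sum_le_sum_abs _ _).trans (sum_le_sum fun h' hh' => ?_)
          exact herr h hh h' hh'
      _ = 3 * (H : ℝ) ^ 2 := by
          rw [sum_const, sum_const, Nat.card_Ioc, nsmul_eq_mul, nsmul_eq_mul, Nat.sub_zero]
          ring

end Pool.Agent.Lib.MP_e3f158_nt.D2
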