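import Pool.Agent.Lib.MP_e3f158_nt.D2.Defs
import Pool.Agent.Lib.MP_c77da8_nt.Sv4

/-!
# Upper bound sieve for prime tuples, uniform in the number of translates
-/

namespace Pool.Agent.Lib.MP_e3f158_nt.D2

open Finset

open Pool.Agent.Lib.MP_c77da8_nt in
private theorem TSieve_prod (S : Finset ℕ) (hS : S.Nonempty) (u t : ℕ) (hu : 2 * S.card ≤ 2 ^ u)
    (hu1 : 1 ≤ u) :
    ∏ j, ∏ q ∈ Sv.blk u t j,
      (1 - (((S.image fun h => (q - h % q) % q).card : ℕ) : ℝ) / q) ≤
      (Real.exp 8 / 2 ^ t) ^ S.card * (ES (dset S)) ^ (S.card - 1) := by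
  classical
  set k := S.card with hk
  have hk1 : 1 ≤ k := hS.card_pos
  have hk' : (1 : ℝ) ≤ k := by exact_mod_cast hk1
  have hB : ∀ q : ℕ, (S.image fun h => (q - h % q) % q).card ≤ k := fun q => card_image_le
  have hB1 : ∀ q : ℕ, 1 ≤ (S.image fun h => (q - h % q) % q).card :=
    fun q => (hS.image _).card_pos
  have hB2 : ∀ q : ℕ, q.Prime → q ∉ dset S →
      (S.image fun h => (q - h % q) % q).card = k := by
    intro q hq hqd
    refine card_image_of_injOn ?_
    intro x hx y hy hxy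
    simp only at hxy
    by_contra hne
    apply hqd
    unfold dset
    rw [Nat.mem_primeFactors]
    have hmod : x % q = y % q := by
      have hx' : x % q < q := Nat.mod_lt _ hq.pos
      have hy' : y % q < q := Nat.mod_lt _ hq.pos
      rcases Nat.eq_zero_or_pos (x % q) with h0 | h0
      · rw [h0] at hxy ⊢
        rw [Nat.sub_zero, Nat.mod_self] at hxy
        rcases Nat.eq_zero_or_pos (y % q) with h1 | h1
        · exact h1.symm
        · rw [Nat.mod_eq_of_lt (by omega : q - y % q < q)] at hxy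
          omega
      · rw [Nat.mod_eq_of_lt (by omega : q - x % q < q)] at hxy
        rcases Nat.eq_zero_or_pos (y % q) with h1 | h1
        · rw [h1, Nat.sub_zero, Nat.mod_self] at hxy
          omega
        · rw [Nat.mod_eq_of_lt (by omega : q - y % q < q)] at hxy
          omega
    refine ⟨hq, ?_, ?_⟩
    · have hmem : (x, y) ∈ S.offDiag := mem_offDiag.2 ⟨hx, hy, hne⟩
      refine Dvd.dvd.trans ?_ (dvd_prod_of_mem (fun x : ℕ × ℕ => Nat.dist x.1 x.2) hmem)
      simp only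
      rcases le_total x y with h | h
      · rw [Nat.dist_eq_sub_of_le h]
        exact (Nat.modEq_iff_dvd' h).1 hmod
      · rw [Nat.dist_eq_sub_of_le_right h]
        exact (Nat.modEq_iff_dvd' h).1 hmod.symm
    · rw [prod_ne_zero_iff]
      intro z hz
      rw [mem_offDiag] at hz
      intro h0
      exact hz.2.2 (Nat.eq_of_dist_eq_zero h0)
  have h1 : ∏ j, ∏ q ∈ Sv.blk u t j,
      (1 - (((S.image fun h => (q - h % q) % q).card : ℕ) : ℝ) / q) ≤
      ∏ j, ∏ q ∈ Sv.blk u t j,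
        Real.exp (-(k * ((1 : ℝ) / q)) + if q ∈ dset S then ((k - 1 : ℕ) : ℝ) * (1 / q) else 0) := by
    have key : ∀ j, ∀ q ∈ Sv.blk u t j,
        0 ≤ 1 - (((S.image fun h => (q - h % q) % q).card : ℕ) : ℝ) / q ∧
        1 - (((S.image fun h => (q - h % q) % q).card : ℕ) : ℝ) / q ≤
        Real.exp (-(k * ((1 : ℝ) / q)) + if q ∈ dset S then ((k - 1 : ℕ) : ℝ) * (1 / q) else 0) := by
      intro j q hq
      have hq1 := (Sv.mem_blk.1 hq).1
      have hq2 : 2 * k < q := lt_of_le_of_lt hu (Sv.blk_gt hq)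
      have hq0 : (0 : ℝ) < q := by exact_mod_cast hq1.pos
      constructor
      · have h2 : (((S.image fun h => (q - h % q) % q).card : ℕ) : ℝ) / q ≤ 1 := by
          rw [div_le_one hq0]
          have := hB q
          exact_mod_cast (by omega : (S.image fun h => (q - h % q) % q).card ≤ q)
        linarith
      · refine (Real.one_sub_le_exp_neg _).trans ?_
        apply Real.exp_le_exp.2
        by_cases hqd : q ∈ dset S
        · rw [if_pos hqd]
          have h3 : (1 : ℝ) ≤ (((S.image fun h => (q - h % q) % q).card : ℕ) : ℝ) := by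
            exact_mod_cast hB1 q
          have h4 : (1 : ℝ) / q ≤ (((S.image fun h => (q - h % q) % q).card : ℕ) : ℝ) / q := by
            gcongr
          have h5 : ((k - 1 : ℕ) : ℝ) = k - 1 := by
            rw [Nat.cast_sub hk1, Nat.cast_one]
          rw [h5]
          linarith
        · rw [if_neg hqd, hB2 q hq1 hqd]
          rw [mul_one_div]
          simp
    refine prod_le_prod (fun j _ => prod_nonneg fun q hq => (key j q hq).1) fun j _ => ?_
    exact prod_le_prod (fun q hq => (key j q hq).1) fun q hq => (key j q hq).2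
  refine h1.trans ?_
  simp_rw [← Real.exp_sum]
  have h2 : (Real.exp 8 / 2 ^ t) ^ k * (ES (dset S)) ^ (k - 1) =
      Real.exp (-(k * (t * Real.log 2 - 8)) + ((k - 1 : ℕ) : ℝ) * ∑ p ∈ dset S, (1 : ℝ) / p) := by
    unfold ES
    rw [← Real.exp_nat_mul, Real.exp_add]
    congr 1
    have h10 : (2 : ℝ) ^ t = Real.exp (t * Real.log 2) := by
      rw [← Real.log_pow, Real.exp_log (by positivity)]
    rw [h10, ← Real.exp_sub, ← Real.exp_nat_mul]
    congr 1
    ring
  rw [h2]
  apply Real.exp_le_exp.2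
  simp_rw [sum_add_distrib]
  have h3 : ∑ j : Fin t, ∑ q ∈ Sv.blk u t j, (-((k : ℝ) * ((1 : ℝ) / q))) ≤
      -(k * (t * Real.log 2 - 8)) := by
    rw [Sv.sum_all_blk]
    rw [sum_neg_distrib, sum_neg_distrib, ← mul_sum, ← mul_sum]
    have h4 := Sv.R_ge (u * 2 ^ t) (Nat.mul_pos hu1 (by positivity))
    have h5 := Mert.R_le u hu1
    have hu' : (0 : ℝ) < u := by exact_mod_cast hu1
    have h6 : Real.log ((u * 2 ^ t : ℕ) : ℝ) = Real.log u + t * Real.log 2 := by
      push_cast
      rw [Real.log_mul hu'.ne' (by positivity), Real.log_pow]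
    rw [h6] at h4
    unfold Mert.R at h4 h5
    have h7 : t * Real.log 2 - 8 ≤ ∑ p ∈ Nat.primesLE (2 ^ (u * 2 ^ t)), (1 : ℝ) / p -
        ∑ p ∈ Nat.primesLE (2 ^ u), (1 : ℝ) / p := by linarith
    have h8 := mul_le_mul_of_nonneg_left h7 (by linarith : (0 : ℝ) ≤ k)
    linarith
  have h4 : ∑ j : Fin t, ∑ q ∈ Sv.blk u t j,
      (if q ∈ dset S then ((k - 1 : ℕ) : ℝ) * (1 / (q : ℝ)) else 0) ≤
      ((k - 1 : ℕ) : ℝ) * ∑ p ∈ dset S, (1 : ℝ) / p := by
    rw [mul_sum]
    have h5 : ∑ j : Fin t, ∑ q ∈ Sv.blk u t j,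
        (if q ∈ dset S then ((k - 1 : ℕ) : ℝ) * (1 / (q : ℝ)) else 0) =
        ∑ q ∈ (univ : Finset (Fin t)).biUnion (Sv.blk u t),
          (if q ∈ dset S then ((k - 1 : ℕ) : ℝ) * (1 / (q : ℝ)) else 0) := by
      rw [sum_biUnion]
      intro i _ j _ hij
      exact Sv.blk_disj u t i j hij
    rw [h5, ← sum_filter]
    refine sum_le_sum_of_subset_of_nonneg ?_ fun _ _ _ => by positivity
    intro q hq
    exact (mem_filter.1 hq).2
  linarith

open Pool.Agent.Lib.MP_c77da8_nt in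
theorem tuple_sieve : ∃ C : ℝ, 1 ≤ C ∧ ∀ S : Finset ℕ, S.Nonempty → ∀ N : ℕ,
    C * S.card * Real.log (S.card + 1) ≤ Real.log N →
    (((range N).filter fun n => ∀ h ∈ S, (n + h).Prime).card : ℝ) ≤
      N * (C * S.card * Real.log (S.card + 1) / Real.log N) ^ S.card *
        (ES (dset S)) ^ (S.card - 1) := by
  classical
  have he8 : (1 : ℝ) ≤ Real.exp 8 := Real.one_le_exp (by norm_num)
  refine ⟨4 * (4080 * Real.exp 8), by linarith, ?_⟩
  intro S hS N hN
  set k := S.card with hk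
  have hk1 : 1 ≤ k := hS.card_pos
  have hk' : (1 : ℝ) ≤ k := by exact_mod_cast hk1
  set C1 : ℝ := 4080 * Real.exp 8 with hC1
  have hC1' : (4080 : ℝ) ≤ C1 := by rw [hC1]; linarith
  set lk := Real.log ((k : ℝ) + 1) with hlk
  have hl2 : (0.69 : ℝ) < Real.log 2 := by have := Real.log_two_gt_d9; linarith
  have hl2' : Real.log 2 < 1 := by have := Real.log_two_lt_d9; linarith
  have hlk0 : Real.log 2 ≤ lk := Real.log_le_log (by norm_num) (by linarith)
  have hlk1 : (0 : ℝ) < lk := by linarith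
  set L := Real.log N with hL
  have hklk : 0 < (k : ℝ) * lk := by positivity
  have hL0 : 4 * C1 * (k * lk) ≤ L := by
    calc 4 * C1 * (k * lk) = 4 * C1 * k * lk := by ring
      _ ≤ L := hN
  have hLpos : 0 < L := by
    have : 0 < 4 * C1 * (k * lk) := by positivity
    linarith
  have hNpos : (0 : ℝ) < N := by
    rcases Nat.eq_zero_or_pos N with h | h
    · rw [hL, h] at hLpos
      simp at hLpos
    · exact_mod_cast h
  have hexpL : Real.exp L = N := Real.exp_log hNpos
  -- the parameter u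
  set u := Nat.log 2 k + 2 with hudef
  have hu1 : 1 ≤ u := by omega
  have hu : 2 * k ≤ 2 ^ u := by
    have h1 : k < 2 ^ (Nat.log 2 k + 1) := Nat.lt_pow_succ_log_self (by norm_num) k
    have h2 : 2 ^ u = 2 * 2 ^ (Nat.log 2 k + 1) := by
      rw [hudef, show Nat.log 2 k + 2 = (Nat.log 2 k + 1) + 1 by ring, pow_succ]
      ring
    omega
  have hu5 : (u : ℝ) ≤ 5 * lk := by
    have h1 : 2 ^ (Nat.log 2 k) ≤ k := Nat.pow_log_le_self 2 (by omega)
    have h2 : ((Nat.log 2 k : ℕ) : ℝ) * Real.log 2 ≤ lk := by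
      rw [← Real.log_pow]
      refine Real.log_le_log (by positivity) ?_
      have : ((2 ^ (Nat.log 2 k) : ℕ) : ℝ) ≤ k := by exact_mod_cast h1
      push_cast at this
      linarith
    have h3 : ((Nat.log 2 k : ℕ) : ℝ) * 0.69 ≤ lk := by
      have : ((Nat.log 2 k : ℕ) : ℝ) * 0.69 ≤ ((Nat.log 2 k : ℕ) : ℝ) * Real.log 2 :=
        mul_le_mul_of_nonneg_left hl2.le (Nat.cast_nonneg _)
      linarith
    rw [hudef]
    push_cast
    linarith
  have hu0 : (1 : ℝ) ≤ u := by exact_mod_cast hu1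
  have hku : (1 : ℝ) ≤ (k : ℝ) * u := by nlinarith
  -- the parameter t
  set ell := L / Real.log 2 with hell
  have hellL : L ≤ ell := by
    rw [hell, le_div_iff₀ (by linarith)]
    nlinarith
  have hku2 : 408 * ((k : ℝ) * u) ≤ ell := by
    have h1 : (k : ℝ) * u ≤ k * (5 * lk) := by gcongr
    have h2 : 4 * 4080 * (k * lk) ≤ 4 * C1 * (k * lk) := by gcongr
    nlinarith
  set X := ⌊ell / (408 * ((k : ℝ) * u))⌋₊ with hX
  have hX1 : 1 ≤ X := by
    rw [hX, Nat.one_le_floor_iff]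
    rw [le_div_iff₀ (by positivity)]
    linarith
  set t := Nat.log 2 X with ht
  have ht1 : 408 * ((k : ℝ) * u) * 2 ^ t ≤ ell := by
    have h1 : 2 ^ t ≤ X := Nat.pow_log_le_self 2 (by omega)
    have h2 : ((2 ^ t : ℕ) : ℝ) ≤ X := by exact_mod_cast h1
    have h3 : (X : ℝ) ≤ ell / (408 * ((k : ℝ) * u)) := Nat.floor_le (by positivity)
    have h4 : ((2 : ℝ) ^ t) ≤ ell / (408 * ((k : ℝ) * u)) := by
      push_cast at h2
      linarith
    rw [le_div_iff₀ (by positivity)] at h4
    linarith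
  have ht2 : ell ≤ 816 * ((k : ℝ) * u) * 2 ^ t := by
    have h1 : X < 2 ^ (t + 1) := Nat.lt_pow_succ_log_self (by norm_num) X
    have h2 : ((X : ℕ) : ℝ) + 1 ≤ ((2 ^ (t + 1) : ℕ) : ℝ) := by exact_mod_cast h1
    have h3 : ell / (408 * ((k : ℝ) * u)) < X + 1 := Nat.lt_floor_add_one _
    have h4 : ell / (408 * ((k : ℝ) * u)) ≤ (2 : ℝ) ^ (t + 1) := by
      push_cast at h2
      linarith
    rw [div_le_iff₀ (by positivity), pow_succ] at h4
    linarith
  -- the sieve
  set B : ℕ → Finset ℕ := fun q => S.image fun h => (q - h % q) % q with hBdef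
  have hs := (Sv.sieve_blk k u t hk1 hu hu1 B (fun j q _ => card_image_le) (by
    intro j q hq b hb
    rw [hBdef, mem_image] at hb
    obtain ⟨h, _, rfl⟩ := hb
    exact Nat.mod_lt _ (Sv.mem_blk.1 hq).1.pos) N 1 0 one_pos
    (fun _ _ _ => Nat.coprime_one_left _)).2
  have hp := TSieve_prod S hS u t hu hu1
  rw [← hk] at hp
  set P := ∏ j, ∏ q ∈ Sv.blk u t j, (1 - ((B q).card : ℝ) / q) with hPdef
  have hp' : P ≤ (Real.exp 8 / 2 ^ t) ^ k * (ES (dset S)) ^ (k - 1) := hp
  -- splitting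
  have hsub : (range N).filter (fun n => ∀ h ∈ S, (n + h).Prime) ⊆
      range (2 ^ (u * 2 ^ t) + 1) ∪ (range N).filter fun m => m ≡ 0 [MOD 1] ∧
        ∀ j, ∀ q ∈ Sv.blk u t j, m % q ∉ B q := by
    intro n hn
    rw [mem_filter] at hn
    rw [mem_union, mem_range]
    by_cases hn2 : n < 2 ^ (u * 2 ^ t) + 1
    · exact Or.inl hn2
    · right
      rw [mem_filter]
      refine ⟨hn.1, Nat.modEq_one, ?_⟩
      intro j q hq hmem
      rw [hBdef, mem_image] at hmem
      obtain ⟨h, hh, hhq⟩ := hmem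
      have hq1 := (Sv.mem_blk.1 hq).1
      have hq2 := Sv.blk_le hq
      have hdvd : q ∣ n + h := by
        rw [Nat.dvd_iff_mod_eq_zero, Nat.add_mod, ← hhq]
        have hx' : h % q < q := Nat.mod_lt _ hq1.pos
        rw [Nat.mod_add_mod, Nat.sub_add_cancel hx'.le, Nat.mod_self]
      have := (hn.2 h hh).eq_one_or_self_of_dvd q hdvd
      rcases this with h1 | h1
      · exact hq1.one_lt.ne' h1
      · omega
  have hcard := (card_le_card hsub).trans (card_union_le _ _)
  have hcard' : (((range N).filter fun n => ∀ h ∈ S, (n + h).Prime).card : ℝ) ≤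
      ((2 : ℝ) ^ (u * 2 ^ t) + 1) + (((range N).filter fun m => m ≡ 0 [MOD 1] ∧
        ∀ j, ∀ q ∈ Sv.blk u t j, m % q ∉ B q).card : ℝ) := by
    rw [card_range] at hcard
    exact_mod_cast hcard
  -- small terms
  have hsmall : (2 : ℝ) ^ (204 * k * (u * 2 ^ t)) ≤ Real.exp (L / 2) := by
    have h10 : (2 : ℝ) ^ (204 * k * (u * 2 ^ t)) =
        Real.exp (((204 * k * (u * 2 ^ t) : ℕ) : ℝ) * Real.log 2) := by
      rw [← Real.log_pow, Real.exp_log (by positivity)]
    rw [h10]
    apply Real.exp_le_exp.2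
    have h11 : ((204 * k * (u * 2 ^ t) : ℕ) : ℝ) ≤ ell / 2 := by
      push_cast
      have : 408 * ((k : ℝ) * u) * 2 ^ t = 2 * (204 * k * (u * 2 ^ t)) := by ring
      linarith
    have h12 : ell * Real.log 2 = L := by
      rw [hell]
      exact div_mul_cancel₀ _ (by linarith)
    nlinarith
  have hsmall2 : (2 : ℝ) ^ (u * 2 ^ t) + 1 ≤ (2 : ℝ) ^ (204 * k * (u * 2 ^ t)) := by
    have h1 : 1 ≤ u * 2 ^ t := Nat.mul_pos hu1 (by positivity)
    have h2 : u * 2 ^ t + 1 ≤ 204 * k * (u * 2 ^ t) := by nlinarith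
    have h3 : (2 : ℝ) ^ (u * 2 ^ t) + 1 ≤ (2 : ℝ) ^ (u * 2 ^ t + 1) := by
      have : (1 : ℝ) ≤ (2 : ℝ) ^ (u * 2 ^ t) := one_le_pow₀ (by norm_num)
      rw [pow_succ]
      linarith
    exact h3.trans (pow_le_pow_right₀ (by norm_num) h2)
  -- the main quantity
  set a := C1 * (k * lk) / L with ha
  have ha0 : 0 < a := by positivity
  have hE : (1 : ℝ) ≤ (ES (dset S)) ^ (k - 1) := by
    apply one_le_pow₀
    unfold ES
    exact Real.one_le_exp (sum_nonneg fun _ _ => by positivity)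
  have hq : Real.exp 8 / 2 ^ t ≤ a := by
    rw [ha, div_le_div_iff₀ (by positivity) hLpos]
    have h1 : L ≤ ell := hellL
    have h2 : L ≤ 816 * (k * (5 * lk)) * 2 ^ t := by
      refine h1.trans (ht2.trans ?_)
      gcongr
    calc Real.exp 8 * L ≤ Real.exp 8 * (816 * (k * (5 * lk)) * 2 ^ t) := by gcongr
      _ = C1 * (k * lk) * 2 ^ t := by rw [hC1]; ring
  have hP2 : P ≤ a ^ k * (ES (dset S)) ^ (k - 1) := by
    refine hp'.trans ?_
    gcongr
  have hroot : Real.exp (L / 2) ≤ N * a ^ k := by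
    have h1 : (1 / a) ^ k ≤ Real.exp (L / 2) := by
      have h2 : 1 / a ≤ Real.exp (1 / a) := by
        have := Real.add_one_le_exp (1 / a)
        linarith
      calc (1 / a) ^ k ≤ (Real.exp (1 / a)) ^ k := by gcongr
        _ = Real.exp (k * (1 / a)) := (Real.exp_nat_mul _ _).symm
        _ ≤ Real.exp (L / 2) := by
            apply Real.exp_le_exp.2
            rw [ha, one_div, inv_div, ← mul_div_assoc, div_le_div_iff₀ (by positivity) (by norm_num)]
            have h3 : 2 ≤ C1 * lk := by nlinarith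
            have h4 : 0 ≤ (k : ℝ) * L := by positivity
            nlinarith
    have h2 : (1 : ℝ) ≤ a ^ k * Real.exp (L / 2) := by
      have h3 : a ^ k * (1 / a) ^ k = 1 := by
        rw [← mul_pow, mul_one_div, div_self ha0.ne', one_pow]
      calc (1 : ℝ) = a ^ k * (1 / a) ^ k := h3.symm
        _ ≤ a ^ k * Real.exp (L / 2) := by gcongr
    have h3 : (N : ℝ) = Real.exp (L / 2) * Real.exp (L / 2) := by
      rw [← Real.exp_add, ← hexpL]
      congr 1
      ring
    rw [h3]
    have h4 : 0 < Real.exp (L / 2) := Real.exp_pos _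
    nlinarith
  have hak : 0 < a ^ k := by positivity
  have hNa : (N : ℝ) * a ^ k ≤ N * a ^ k * (ES (dset S)) ^ (k - 1) :=
    le_mul_of_one_le_right (by positivity) hE
  have hs' : (((range N).filter fun m => m ≡ 0 [MOD 1] ∧
        ∀ j, ∀ q ∈ Sv.blk u t j, m % q ∉ B q).card : ℝ) ≤
      2 * (N * (a ^ k * (ES (dset S)) ^ (k - 1))) + Real.exp (L / 2) := by
    refine hs.trans ?_
    rw [Nat.cast_one, div_one]
    have : (N : ℝ) * P ≤ N * (a ^ k * (ES (dset S)) ^ (k - 1)) := by gcongr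
    linarith
  have h4k : (4 : ℝ) ≤ 4 ^ k := by
    calc (4 : ℝ) = 4 ^ 1 := by norm_num
      _ ≤ 4 ^ k := pow_le_pow_right₀ (by norm_num) hk1
  calc (((range N).filter fun n => ∀ h ∈ S, (n + h).Prime).card : ℝ)
      ≤ 4 * (N * a ^ k * (ES (dset S)) ^ (k - 1)) := by linarith
    _ ≤ 4 ^ k * (N * a ^ k * (ES (dset S)) ^ (k - 1)) := by
        refine mul_le_mul_of_nonneg_right h4k ?_
        have : 0 ≤ (ES (dset S)) ^ (k - 1) := by linarith
        positivity
    _ = N * (4 * a) ^ k * (ES (dset S)) ^ (k - 1) := by rw [mul_pow]; ring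
    _ = _ := by
        congr 3
        rw [ha]
        ring

end Pool.Agent.Lib.MP_e3f158_nt.D2
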