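import Pool.Agent.Lib.MP_e3f158_nt.D2.PsiCorr

/-!
# Variance of a sieve majorant in short intervals

PROOF. `(∑_{d ∣ m + h} ρ d)² = ∑_{d, e ≤ R} ρ d ρ e [lcm d e ∣ m + h]`. Sum over `h`:
`∑_h (..)² = ∑_{d,e} ρ d ρ e #{h : lcm d e ∣ m + h} = ∑_{d,e} ρ d ρ e (H / lcm d e + psi H (lcm d e) m)`.
So the quantity to be squared is `∑_{d,e} ρ d ρ e psi H (lcm d e) m`. Expand the square, exchange the
sums, use `|ρ| ≤ 1` and `psi_corr` for each of the `R^4` quadruples.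
-/

namespace Pool.Agent.Lib.MP_e3f158_nt.D2

open Finset

theorem Variance_sq (R n : ℕ) (ρ : ℕ → ℝ) :
    (∑ d ∈ (Icc 1 R).filter (fun d => d ∣ n), ρ d) ^ 2 =
      ∑ x ∈ Icc 1 R ×ˢ Icc 1 R, ρ x.1 * ρ x.2 * (if Nat.lcm x.1 x.2 ∣ n then (1 : ℝ) else 0) := by
  rw [Finset.sum_filter, sq, Finset.sum_mul_sum, Finset.sum_product]
  refine Finset.sum_congr rfl fun d _ => Finset.sum_congr rfl fun e _ => ?_
  by_cases h1 : d ∣ n <;> by_cases h2 : e ∣ n <;> simp [h1, h2, Nat.lcm_dvd_iff]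

theorem Variance_key (H R m : ℕ) (ρ : ℕ → ℝ) :
    ∑ h ∈ Ioc 0 H, (∑ d ∈ (Icc 1 R).filter (fun d => d ∣ m + h), ρ d) ^ 2 -
        H * ∑ d ∈ Icc 1 R, ∑ e ∈ Icc 1 R, ρ d * ρ e / (Nat.lcm d e : ℝ) =
      ∑ x ∈ Icc 1 R ×ˢ Icc 1 R, ρ x.1 * ρ x.2 * psi H (Nat.lcm x.1 x.2) m := by
  have h1 : ∑ h ∈ Ioc 0 H, (∑ d ∈ (Icc 1 R).filter (fun d => d ∣ m + h), ρ d) ^ 2 =
      ∑ x ∈ Icc 1 R ×ˢ Icc 1 R, ρ x.1 * ρ x.2 *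
        (((Ioc 0 H).filter fun h => Nat.lcm x.1 x.2 ∣ m + h).card : ℝ) := by
    rw [Finset.sum_congr rfl (fun h _ => Variance_sq R (m + h) ρ), Finset.sum_comm]
    refine Finset.sum_congr rfl fun x _ => ?_
    rw [← Finset.mul_sum, Finset.sum_boole]
  have h2 : (H : ℝ) * ∑ d ∈ Icc 1 R, ∑ e ∈ Icc 1 R, ρ d * ρ e / (Nat.lcm d e : ℝ) =
      ∑ x ∈ Icc 1 R ×ˢ Icc 1 R, ρ x.1 * ρ x.2 * ((H : ℝ) / (Nat.lcm x.1 x.2 : ℕ)) := by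
    rw [Finset.sum_product, Finset.mul_sum]
    refine Finset.sum_congr rfl fun d _ => ?_
    rw [Finset.mul_sum]
    refine Finset.sum_congr rfl fun e _ => ?_
    ring
  rw [h1, h2, ← Finset.sum_sub_distrib]
  refine Finset.sum_congr rfl fun x _ => ?_
  unfold psi
  ring

theorem variance (N H R : ℕ) (ρ : ℕ → ℝ) (hρ : ∀ d, |ρ d| ≤ 1) :
    ∑ m ∈ range N, (∑ h ∈ Ioc 0 H, (∑ d ∈ (Icc 1 R).filter (fun d => d ∣ m + h), ρ d) ^ 2 -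
        H * ∑ d ∈ Icc 1 R, ∑ e ∈ Icc 1 R, ρ d * ρ e / (Nat.lcm d e : ℝ)) ^ 2 ≤
      N * H * (∑ d₁ ∈ Icc 1 R, ∑ d₂ ∈ Icc 1 R, ∑ d₃ ∈ Icc 1 R, ∑ d₄ ∈ Icc 1 R,
        (1 : ℝ) / (Nat.lcm (Nat.lcm d₁ d₂) (Nat.lcm d₃ d₄) : ℕ)) +
        3 * (H : ℝ) ^ 2 * (R : ℝ) ^ 4 := by
  set P : Finset (ℕ × ℕ) := Icc 1 R ×ˢ Icc 1 R with hP
  have hcard : (P.card : ℝ) = (R : ℝ) ^ 2 := by
    rw [hP, Finset.card_product, Nat.card_Icc]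
    push_cast [Nat.add_sub_cancel]
    ring
  have h1 : ∑ m ∈ range N, (∑ h ∈ Ioc 0 H, (∑ d ∈ (Icc 1 R).filter (fun d => d ∣ m + h), ρ d) ^ 2 -
        H * ∑ d ∈ Icc 1 R, ∑ e ∈ Icc 1 R, ρ d * ρ e / (Nat.lcm d e : ℝ)) ^ 2 =
      ∑ x ∈ P, ∑ y ∈ P, (ρ x.1 * ρ x.2 * (ρ y.1 * ρ y.2)) *
        ∑ m ∈ range N, psi H (Nat.lcm x.1 x.2) m * psi H (Nat.lcm y.1 y.2) m := by
    have h2 : ∀ m ∈ range N, (∑ h ∈ Ioc 0 H, (∑ d ∈ (Icc 1 R).filter (fun d => d ∣ m + h), ρ d) ^ 2 -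
        H * ∑ d ∈ Icc 1 R, ∑ e ∈ Icc 1 R, ρ d * ρ e / (Nat.lcm d e : ℝ)) ^ 2 =
        ∑ x ∈ P, ∑ y ∈ P, (ρ x.1 * ρ x.2 * (ρ y.1 * ρ y.2)) *
          (psi H (Nat.lcm x.1 x.2) m * psi H (Nat.lcm y.1 y.2) m) := by
      intro m _
      rw [Variance_key, sq, Finset.sum_mul_sum]
      refine Finset.sum_congr rfl fun x _ => Finset.sum_congr rfl fun y _ => ?_
      ring
    rw [Finset.sum_congr rfl h2, Finset.sum_comm]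
    refine Finset.sum_congr rfl fun x _ => ?_
    rw [Finset.sum_comm]
    refine Finset.sum_congr rfl fun y _ => ?_
    rw [Finset.mul_sum]
  have hpos : ∀ x ∈ P, 0 < Nat.lcm x.1 x.2 := by
    intro x hx
    obtain ⟨h2, h3⟩ := Finset.mem_product.1 hx
    exact Nat.lcm_pos (Finset.mem_Icc.1 h2).1 (Finset.mem_Icc.1 h3).1
  have h3 : ∀ x ∈ P, ∀ y ∈ P, (ρ x.1 * ρ x.2 * (ρ y.1 * ρ y.2)) *
        ∑ m ∈ range N, psi H (Nat.lcm x.1 x.2) m * psi H (Nat.lcm y.1 y.2) m ≤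
      (N : ℝ) * H * (1 / (Nat.lcm (Nat.lcm x.1 x.2) (Nat.lcm y.1 y.2) : ℕ)) + 3 * (H : ℝ) ^ 2 := by
    intro x hx y hy
    have h4 := psi_corr N H _ _ (hpos x hx) (hpos y hy)
    refine le_trans ?_ h4
    refine (le_abs_self _).trans ?_
    rw [abs_mul]
    have h5 : |ρ x.1 * ρ x.2 * (ρ y.1 * ρ y.2)| ≤ 1 := by
      rw [abs_mul, abs_mul, abs_mul]
      have h6 : |ρ x.1| * |ρ x.2| ≤ 1 := mul_le_one₀ (hρ _) (abs_nonneg _) (hρ _)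
      have h7 : |ρ y.1| * |ρ y.2| ≤ 1 := mul_le_one₀ (hρ _) (abs_nonneg _) (hρ _)
      exact mul_le_one₀ h6 (by positivity) h7
    exact mul_le_of_le_one_left (abs_nonneg _) h5
  rw [h1]
  refine (Finset.sum_le_sum fun x hx => Finset.sum_le_sum fun y hy => h3 x hx y hy).trans ?_
  simp only [Finset.sum_add_distrib, ← Finset.mul_sum, Finset.sum_const, nsmul_eq_mul]
  rw [hcard]
  have h8 : ∑ x ∈ P, ∑ y ∈ P, (1 : ℝ) / (Nat.lcm (Nat.lcm x.1 x.2) (Nat.lcm y.1 y.2) : ℕ) =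
      ∑ d₁ ∈ Icc 1 R, ∑ d₂ ∈ Icc 1 R, ∑ d₃ ∈ Icc 1 R, ∑ d₄ ∈ Icc 1 R,
        (1 : ℝ) / (Nat.lcm (Nat.lcm d₁ d₂) (Nat.lcm d₃ d₄) : ℕ) := by
    rw [hP, Finset.sum_product]
    refine Finset.sum_congr rfl fun d₁ _ => Finset.sum_congr rfl fun d₂ _ => ?_
    rw [Finset.sum_product]
  rw [h8]
  apply le_of_eq
  ring

end Pool.Agent.Lib.MP_e3f158_nt.D2
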